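import Pool.Agent.Helper76.K3.Defs

/-!
# The Bloch-Wigner function at `exp(π i / 3)`
-/

noncomputable section

namespace Pool.Agent.Helper76.K3

open Complex MeasureTheory Set Filter Topology
open scoped ComplexConjugate

private theorem u_eq : exp (Real.pi / 3 * I) = ⟨1 / 2, Real.sqrt 3 / 2⟩ := by
  have h : (Real.pi / 3 : ℂ) = ((Real.pi / 3 : ℝ) : ℂ) := by push_cast; ring
  rw [h]
  apply Complex.ext
  · rw [Complex.exp_ofReal_mul_I_re, Real.cos_pi_div_three]
  · rw [Complex.exp_ofReal_mul_I_im, Real.sin_pi_div_three]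

private theorem norm_u : ‖exp (Real.pi / 3 * I)‖ = 1 := by
  have h : (Real.pi / 3 : ℂ) = ((Real.pi / 3 : ℝ) : ℂ) := by push_cast; ring
  rw [h, Complex.norm_exp_ofReal_mul_I]

private theorem re_im (t : ℝ) : (1 - (t : ℂ) * exp (Real.pi / 3 * I)).re = 1 - t / 2 ∧
    (1 - (t : ℂ) * exp (Real.pi / 3 * I)).im = -(t * (Real.sqrt 3 / 2)) := by
  rw [u_eq]
  constructor
  · simp; ring
  · simp

private theorem arg_bound {z : ℂ} (hre : 1 / 2 ≤ z.re) : |arg z| ≤ Real.pi * |z.im| := by
  have hz : z ≠ 0 := by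
    rintro rfl; norm_num at hre
  have hn : 1 / 2 ≤ ‖z‖ := hre.trans ((le_abs_self _).trans (Complex.abs_re_le_norm z))
  have h1 : |arg z| ≤ Real.pi / 2 := (Complex.abs_arg_le_pi_div_two_iff).2 (by linarith)
  have h2 := Real.mul_le_sin (abs_nonneg (arg z)) h1
  have h3 : Real.sin |arg z| = |z.im| / ‖z‖ := by
    rw [← abs_norm z, ← abs_div, ← Complex.sin_arg]
    rcases le_or_gt 0 (arg z) with h | h
    · rw [abs_of_nonneg h, abs_of_nonneg (Real.sin_nonneg_of_nonneg_of_le_pi h (Complex.arg_le_pi z))]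
    · rw [abs_of_neg h, Real.sin_neg, abs_of_nonpos]
      exact Real.sin_nonpos_of_nonpos_of_neg_pi_le h.le (Complex.neg_pi_lt_arg z).le
  rw [h3] at h2
  have h4 : |z.im| / ‖z‖ ≤ 2 * |z.im| := by
    rw [div_le_iff₀ (by linarith)]
    have := abs_nonneg z.im
    nlinarith
  have hpi := Real.pi_pos
  have h5 : 2 / Real.pi * |arg z| ≤ 2 * |z.im| := h2.trans h4
  rw [div_mul_eq_mul_div, div_le_iff₀ hpi] at h5
  nlinarith

theorem bw_pos : 0 < blochWigner (exp (Real.pi / 3 * I)) := by
  unfold blochWigner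
  rw [norm_u, Real.log_one, mul_zero, add_zero]
  have hs : Real.sqrt 3 / 2 ≤ 1 := by
    have : Real.sqrt 3 ≤ 2 := by
      rw [Real.sqrt_le_left (by norm_num)]; norm_num
    linarith
  have hs0 : 0 < Real.sqrt 3 / 2 := by positivity
  apply intervalIntegral.intervalIntegral_pos_of_pos_on
  · rw [intervalIntegrable_iff_integrableOn_Ioc_of_le zero_le_one]
    apply MeasureTheory.Measure.integrableOn_of_bounded (M := Real.pi)
    · simp
    · apply Measurable.aestronglyMeasurable
      have : Measurable fun t : ℝ => arg (1 - (t : ℂ) * exp (Real.pi / 3 * I)) :=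
        Complex.measurable_arg.comp (by fun_prop)
      exact (this.div measurable_id).neg
    · rw [ae_restrict_iff' measurableSet_Ioc]
      refine ae_of_all _ (fun t ht => ?_)
      obtain ⟨h1, h2⟩ := re_im t
      have hb := arg_bound (z := 1 - (t : ℂ) * exp (Real.pi / 3 * I)) (by
        rw [h1]; linarith [ht.2])
      rw [h2, abs_neg (t * (Real.sqrt 3 / 2)), abs_of_nonneg (mul_nonneg ht.1.le hs0.le)] at hb
      rw [Real.norm_eq_abs, abs_neg, abs_div, abs_of_pos ht.1, div_le_iff₀ ht.1]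
      refine hb.trans ?_
      have hpi := Real.pi_pos
      have := ht.1
      have : t * (Real.sqrt 3 / 2) ≤ t * 1 := mul_le_mul_of_nonneg_left hs this.le
      nlinarith
  · intro t ht
    obtain ⟨h1, h2⟩ := re_im t
    have : arg (1 - (t : ℂ) * exp (Real.pi / 3 * I)) < 0 := by
      rw [Complex.arg_neg_iff, h2]
      have := mul_pos ht.1 hs0
      linarith
    have h3 := div_neg_of_neg_of_pos this ht.1
    linarith
  · exact zero_lt_one

theorem isK3_pt (L : PeriodPair) (j : Fin 3) : IsK3 L ⟨[], [⟨1, j, exp (Real.pi / 3 * I)⟩]⟩ := by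
  have hu0 : exp (Real.pi / 3 * I) ≠ 0 := exp_ne_zero _
  have h1u : 1 - exp (Real.pi / 3 * I) = (exp (Real.pi / 3 * I))⁻¹ := by
    have h3 : Real.sqrt 3 * Real.sqrt 3 = 3 := Real.mul_self_sqrt (by norm_num)
    apply eq_inv_of_mul_eq_one_left
    rw [u_eq]
    apply Complex.ext
    · simp only [mul_re, sub_re, one_re, sub_im, one_im]
      nlinarith
    · simp only [mul_im, sub_re, one_re, sub_im, one_im]
      ring
  refine ⟨?_, ?_, ?_, ?_⟩
  · intro T hT; simp at hT
  · intro B _ j c; simp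
  · intro t ht
    simp only [List.mem_singleton] at ht
    subst ht
    refine ⟨hu0, ?_⟩
    intro h
    change exp (Real.pi / 3 * I) = 1 at h
    rw [h] at h1u
    simp at h1u
  · intro B hB j'
    have b1 : ∀ b, b ≠ 0 → B 1 b = 0 := by
      intro b hb
      have := hB.mul 1 1 b one_ne_zero one_ne_zero hb
      rw [one_mul] at this
      linarith
    have buu : B (exp (Real.pi / 3 * I)) (exp (Real.pi / 3 * I)) = 0 := by
      have := hB.skew _ _ hu0 hu0
      linarith
    have hmain : B (1 - exp (Real.pi / 3 * I)) (exp (Real.pi / 3 * I)) = 0 := by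
      rw [h1u]
      have := hB.mul (exp (Real.pi / 3 * I)) (exp (Real.pi / 3 * I))⁻¹ _ hu0 (inv_ne_zero hu0) hu0
      rw [mul_inv_cancel₀ hu0, b1 _ hu0, buu, zero_add] at this
      exact this.symm
    by_cases hj : j = j'
    · simp [hj, hmain]
    · simp [hj]

end Pool.Agent.Helper76.K3
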