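import Pool.Agent.Helper76.K3.Defs
import Pool.Agent.Helper21.Reg.Order
import Pool.Agent.Helper24.K1.Basic
import Pool.Agent.Helper24.K1.ScaDef

/-! Definitions used in the proofs. -/

noncomputable section

namespace Pool.Agent.Helper76.K3

open Complex MeasureTheory Set Filter Topology
open Pool.Agent.Helper21.Reg (IsElliptic ordAt intE Th ee Lat)
open Pool.Agent.Helper24.K1 (sq)
open scoped ComplexConjugate

/-- `x + y τ` -/
def zt (τ : ℂ) (p : ℝ × ℝ) : ℂ := p.1 + p.2 * τ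

/-- the elliptic function with divisor `2 [1/2] - 2 [0]` and `ff (z + 1/2) = 1 / ff z` -/
def ff (τ z : ℂ) : ℂ := -(Th τ (z + 1 / 2) / Th τ z) ^ 2

/-- `log |ff|` -/
def lam (τ z : ℂ) : ℂ := (Real.log ‖ff τ z‖ : ℂ)

/-- `ff' / ff` -/
def phi (τ z : ℂ) : ℂ := logDeriv (ff τ) z

/-- `ff' / ff`, conjugated -/
def phc (τ z : ℂ) : ℂ := conj (phi τ z)

/-- the average over `E × E` of `A(x) B(y) C(x + y)` -/
def tri (τ : ℂ) (A B C : ℂ → ℂ) : ℂ :=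
  ∫ p in sq, ∫ q in sq, A (zt τ p) * B (zt τ q) * C (zt τ p + zt τ q)

/-- the coefficient of `dx ∧ dy` in `r₃(ff(x), ff(y), ff(x + y))` -/
def ip (τ x y : ℂ) : ℂ :=
  1 / 3 * (phi τ x * phi τ y * lam τ (x + y) - lam τ x * phi τ y * phi τ (x + y) -
    phi τ x * lam τ y * phi τ (x + y))

/-- the coefficient of `dx ∧ dȳ` in `r₃(ff(x), ff(y), ff(x + y))` -/
def iq (τ x y : ℂ) : ℂ :=
  -(1 / 6) * (phi τ x * phc τ y * lam τ (x + y) - lam τ x * phc τ y * phi τ (x + y) -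
    phi τ x * lam τ y * phc τ (x + y))

/-- the average of `ip` over `E × E` -/
def PP (τ : ℂ) : ℂ := ∫ p in sq, ∫ q in sq, ip τ (zt τ p) (zt τ q)

/-- the average of `iq` over `E × E` -/
def QQ (τ : ℂ) : ℂ := ∫ p in sq, ∫ q in sq, iq τ (zt τ p) (zt τ q)

/-- the majorant -/
def hh (p : ℝ × ℝ) : ℝ :=
  |Real.sin (2 * Real.pi * p.1)| ^ (-(1 / 2) : ℝ) * |Real.sin (Real.pi * p.2)| ^ (-(1 / 2) : ℝ)

/-- the main function on `ℂ / L.lattice` -/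
def fL (L : PeriodPair) (z : ℂ) : ℂ := ff (L.ω₂ / L.ω₁) (z / L.ω₁)

/-- the symbol `{f(x), f(y), f(x + y)}` -/
def mainSym (L : PeriodPair) : Sym := ⟨1, ⟨0, fL L⟩, ⟨1, fL L⟩, ⟨2, fL L⟩⟩

end Pool.Agent.Helper76.K3
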