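import Pool.Agent.Helper76.K3.Basic
import Pool.Agent.Helper21.Reg.Avg

/-! # Series for `log |ff|` and `ff' / ff` -/

noncomputable section

namespace Pool.Agent.Helper76.K3

open Complex MeasureTheory Set Filter Topology
open Pool.Agent.Helper21.Reg
open Pool.Agent.Helper24.K1 (sq scale)
open scoped ComplexConjugate

private lemma ser_norm_lt {q s : ℂ} (hq : ‖q‖ < 1) (hs : ‖s‖ < 1) (n : ℕ) : ‖q ^ n * s‖ < 1 := by
  rw [norm_mul, norm_pow]
  calc ‖q‖ ^ n * ‖s‖ ≤ 1 * ‖s‖ := by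
        gcongr
        exact pow_le_one₀ (norm_nonneg _) hq.le
    _ < 1 := by simpa using hs

private lemma ser_ne {x : ℂ} (hx : ‖x‖ < 1) : 1 - x ≠ 0 := by
  intro h
  have : x = 1 := by linear_combination -h
  rw [this] at hx
  simp at hx

private lemma ser_ne' {x : ℂ} (hx : ‖x‖ < 1) : 1 + x ≠ 0 := by
  have := ser_ne (x := -x) (by simpa using hx)
  simpa using this

private lemma ser_log_qp {q s : ℂ} (hq : ‖q‖ < 1) (hs : ‖s‖ < 1) :
    HasSum (fun n : ℕ => Real.log ‖1 - q ^ n * s‖) (Real.log ‖qp q s‖) := by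
  have h1 := (qp_multipliable hq s).hasProd.norm
  have h2 : ‖∏' n : ℕ, (1 + -(q ^ n * s))‖ ≠ 0 := norm_ne_zero_iff.2 (qp_ne_zero hq hs)
  have h3 := (Real.continuousAt_log h2).tendsto.comp h1
  refine h3.congr fun b => ?_
  simp only [Function.comp]
  rw [Real.log_prod]
  · refine Finset.sum_congr rfl fun n _ => ?_
    rw [← sub_eq_add_neg]
  · intro n _
    rw [← sub_eq_add_neg]
    exact norm_ne_zero_iff.2 (ser_ne (ser_norm_lt hq hs n))

private lemma ser_psi {q s : ℂ} (hq : ‖q‖ < 1) (hs : ‖s‖ < 1) :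
    HasSum (fun n : ℕ => -(q ^ n * s) / (1 - q ^ n * s)) (psi q s) := by
  have key : HasProdLocallyUniformlyOn (fun (n : ℕ) (s : ℂ) => 1 + -(q ^ n * s))
      (fun s => ∏' n : ℕ, (1 + -(q ^ n * s))) univ := by
    apply hasProdLocallyUniformlyOn_of_forall_compact isOpen_univ
    intro K _ hK
    obtain ⟨M, hM⟩ := hK.isBounded.exists_norm_le
    refine Summable.hasProdUniformlyOn_nat_one_add
      (u := fun n => ‖q‖ ^ n * M) hK ?_ ?_ ?_
    · exact (summable_geometric_of_lt_one (norm_nonneg _) hq).mul_right _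
    · refine Eventually.of_forall fun n x hx => ?_
      rw [norm_neg, norm_mul, norm_pow]
      gcongr
      exact hM x hx
    · intro n; fun_prop
  have hld : ∀ n : ℕ, logDeriv (fun s : ℂ => 1 + -(q ^ n * s)) s = -q ^ n / (1 - q ^ n * s) := by
    intro n
    have hd : HasDerivAt (fun s : ℂ => 1 + -(q ^ n * s)) (-(q ^ n * 1)) s :=
      (((hasDerivAt_id s).const_mul (q ^ n)).neg).const_add 1
    rw [logDeriv_apply, hd.deriv]
    congr 1
    · ring
  have hsum : Summable fun n : ℕ => logDeriv (fun s : ℂ => 1 + -(q ^ n * s)) s := by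
    simp only [hld]
    refine Summable.of_norm_bounded (g := fun n => ‖q‖ ^ n * (1 - ‖s‖)⁻¹)
      ((summable_geometric_of_lt_one (norm_nonneg _) hq).mul_right _) fun n => ?_
    have h1 : ‖q ^ n * s‖ ≤ ‖s‖ := by
      rw [norm_mul, norm_pow]
      calc ‖q‖ ^ n * ‖s‖ ≤ 1 * ‖s‖ := by
            gcongr
            exact pow_le_one₀ (norm_nonneg _) hq.le
        _ = ‖s‖ := one_mul _
    have h2 := norm_sub_norm_le (1 : ℂ) (q ^ n * s)
    rw [norm_one] at h2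
    rw [norm_div, norm_neg, norm_pow, div_eq_mul_inv]
    exact mul_le_mul_of_nonneg_left (inv_anti₀ (by linarith) (by linarith)) (by positivity)
  have h := logDeriv_tprod_eq_tsum (f := fun (n : ℕ) (s : ℂ) => 1 + -(q ^ n * s)) isOpen_univ
    (mem_univ s) (fun n => by
      show 1 + -(q ^ n * s) ≠ 0
      rw [← sub_eq_add_neg]; exact ser_ne (ser_norm_lt hq hs n))
    (fun n => by fun_prop) hsum key.multipliableLocallyUniformlyOn (qp_ne_zero hq hs)
  have h2 : HasSum (fun n : ℕ => logDeriv (fun s : ℂ => 1 + -(q ^ n * s)) s)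
      (logDeriv (qp q) s) := by
    have e : (qp q) = (∏' i : ℕ, (fun (n : ℕ) (s : ℂ) => 1 + -(q ^ n * s)) i ·) := rfl
    rw [e, h]
    exact hsum.hasSum
  have h3 := h2.mul_left s
  have e2 : (fun n : ℕ => -(q ^ n * s) / (1 - q ^ n * s)) =
      fun n : ℕ => s * logDeriv (fun s : ℂ => 1 + -(q ^ n * s)) s := by
    funext n
    rw [hld]
    ring
  rw [e2]
  exact h3

private lemma ser_alg {x : ℂ} (h0 : x ≠ 0) (hx : ‖x‖ < 1) :
    -(4 * (Real.pi : ℂ)) / ((x - x⁻¹) / (2 * I)) =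
      4 * Real.pi * I * (-(-x) / (1 - -x) - -x / (1 - x)) := by
  have h1 := ser_ne hx
  have h2 := ser_ne' hx
  have h3 : x - x⁻¹ = -((1 - x) * (1 + x)) / x := by field_simp; ring
  rw [h3, sub_neg_eq_add]
  field_simp
  ring

/-! ### one period -/

section
variable {τ : ℂ} (hτ : 0 < τ.im)
include hτ

omit hτ in
private lemma ser_y {z : ℂ} (h1 : z.im < τ.im) : ‖ee τ * (ee z)⁻¹‖ < 1 := by
  rw [← ee_neg, ← ee_add]
  apply norm_q_lt
  simp [h1]

private lemma ser_log_Th {z : ℂ} (h0 : 0 < z.im) (h1 : z.im < τ.im) :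
    HasSum (fun n : ℕ => Real.log ‖1 - ee τ ^ n * ee z‖) (Real.log ‖qp (ee τ) (ee z)‖) ∧
    HasSum (fun n : ℕ => Real.log ‖1 - ee τ ^ n * (ee τ * (ee z)⁻¹)‖)
      (Real.log ‖qp (ee τ) (ee τ * (ee z)⁻¹)‖) :=
  ⟨ser_log_qp (norm_q_lt hτ) (norm_q_lt h0), ser_log_qp (norm_q_lt hτ) (ser_y h1)⟩

omit hτ in
private lemma ser_half (z : ℂ) : ee (z + 1 / 2) = -ee z := by
  rw [ee_add]
  have : ee (1 / 2) = -1 := by
    unfold ee
    rw [show 2 * (Real.pi : ℂ) * I * (1 / 2) = Real.pi * I by ring, Complex.exp_pi_mul_I]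
  rw [this]; ring

omit hτ in
/-- the cotangent through `ee` -/
private lemma ser_cot (w : ℂ) : ‖Complex.cot (Real.pi * w)‖ = ‖1 + ee w‖ / ‖1 - ee w‖ := by
  rw [Complex.cot_eq_exp_ratio]
  have e : cexp (2 * I * (Real.pi * w)) = ee w := by
    unfold ee; congr 1; ring
  rw [e, norm_div, norm_mul, norm_I, one_mul, add_comm]

omit hτ in
private lemma ser_sin (w : ℂ) : Complex.sin (2 * Real.pi * w) = (ee w - (ee w)⁻¹) / (2 * I) := by
  unfold Complex.sin
  rw [← ee_neg]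
  unfold ee
  rw [show -(2 * (Real.pi : ℂ) * w) * I = 2 * Real.pi * I * -w by ring,
    show (2 * (Real.pi : ℂ) * w) * I = 2 * Real.pi * I * w by ring]
  field_simp
  rw [I_sq]
  ring

omit hτ in
private lemma ser_ee_nat (z : ℂ) (n : ℕ) : ee (z + (n : ℤ) * τ) = ee τ ^ n * ee z := by
  rw [ee_add, ee_zsmul, zpow_natCast, mul_comm]

omit hτ in
private lemma ser_ee_neg (z : ℂ) (n : ℕ) :
    ee (z + (-((n : ℤ) + 1) : ℤ) * τ) = (ee τ ^ n * (ee τ * (ee z)⁻¹))⁻¹ := by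
  rw [ee_add, ee_zsmul, zpow_neg]
  have h1 := ee_ne_zero z
  have h2 := ee_ne_zero τ
  have h3 : ee τ ^ ((n : ℤ) + 1) = ee τ ^ n * ee τ := by
    rw [zpow_add₀ h2, zpow_natCast, zpow_one]
  rw [h3]
  field_simp

omit hτ in
private lemma ser_cot_inv {x : ℂ} (hx : x ≠ 0) : ‖1 + x⁻¹‖ / ‖1 - x⁻¹‖ = ‖1 + x‖ / ‖1 - x‖ := by
  have h1 : 1 + x⁻¹ = x⁻¹ * (1 + x) := by field_simp; ring
  have h2 : 1 - x⁻¹ = -(x⁻¹ * (1 - x)) := by field_simp; ring
  rw [h1, h2, norm_neg, norm_mul, norm_mul, mul_div_mul_left]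
  exact norm_ne_zero_iff.2 (inv_ne_zero hx)

private lemma ser_lam0 {z : ℂ} (h0 : 0 < z.im) (h1 : z.im < τ.im) :
    HasSum (fun k : ℤ => 2 * Real.log ‖Complex.cot (Real.pi * (z + k * τ))‖)
      (Real.log ‖ff τ z‖) := by
  have hq := norm_q_lt hτ
  have hs : ‖ee z‖ < 1 := norm_q_lt h0
  have hy : ‖ee τ * (ee z)⁻¹‖ < 1 := ser_y h1
  have hs' : ‖-ee z‖ < 1 := by rwa [norm_neg]
  have hy' : ‖ee τ * (-ee z)⁻¹‖ < 1 := by
    rw [inv_neg, mul_neg, norm_neg]; exact hy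
  have a1 := ser_log_qp hq hs
  have a2 := ser_log_qp hq hy
  have a3 := ser_log_qp hq hs'
  have a4 := ser_log_qp hq hy'
  have hq0 := ee_ne_zero τ
  have hz0 := ee_ne_zero z
  have b1 := (a3.sub a1).mul_left 2
  have b2 := (a4.sub a2).mul_left 2
  have e : Real.log ‖ff τ z‖ =
      2 * (Real.log ‖qp (ee τ) (-ee z)‖ - Real.log ‖qp (ee τ) (ee z)‖) +
      2 * (Real.log ‖qp (ee τ) (ee τ * (-ee z)⁻¹)‖ -
        Real.log ‖qp (ee τ) (ee τ * (ee z)⁻¹)‖) := by
    have n1 := norm_ne_zero_iff.2 (qp_ne_zero hq hs)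
    have n2 := norm_ne_zero_iff.2 (qp_ne_zero hq hy)
    have n3 := norm_ne_zero_iff.2 (qp_ne_zero hq hs')
    have n4 := norm_ne_zero_iff.2 (qp_ne_zero hq hy')
    unfold ff Th
    rw [ser_half, norm_neg, norm_pow, norm_div, norm_mul, norm_mul, Real.log_pow,
      Real.log_div (mul_ne_zero n3 n4) (mul_ne_zero n1 n2), Real.log_mul n3 n4,
      Real.log_mul n1 n2]
    push_cast
    ring
  rw [e]
  have lg : ∀ x : ℂ, ‖x‖ < 1 → 2 * (Real.log ‖1 + x‖ - Real.log ‖1 - x‖) =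
      2 * Real.log (‖1 + x‖ / ‖1 - x‖) := by
    intro x hx
    rw [Real.log_div (norm_ne_zero_iff.2 (ser_ne' hx)) (norm_ne_zero_iff.2 (ser_ne hx))]
  refine HasSum.of_nat_of_neg_add_one ?_ ?_
  · have c1 : (fun n : ℕ => 2 * Real.log ‖Complex.cot (Real.pi * (z + ((n : ℤ) : ℂ) * τ))‖) =
        fun n : ℕ => 2 * (Real.log ‖1 - ee τ ^ n * -ee z‖ - Real.log ‖1 - ee τ ^ n * ee z‖) := by
      funext n
      rw [ser_cot, ser_ee_nat, ← lg _ (ser_norm_lt hq hs n), mul_neg, sub_neg_eq_add]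
    show HasSum (fun n : ℕ => 2 * Real.log ‖Complex.cot (Real.pi * (z + ((n : ℤ) : ℂ) * τ))‖) _
    rw [c1]; exact b1
  · have c2 : (fun n : ℕ =>
        2 * Real.log ‖Complex.cot (Real.pi * (z + ((-((n : ℤ) + 1) : ℤ) : ℂ) * τ))‖) =
        fun n : ℕ => 2 * (Real.log ‖1 - ee τ ^ n * (ee τ * (-ee z)⁻¹)‖ -
          Real.log ‖1 - ee τ ^ n * (ee τ * (ee z)⁻¹)‖) := by
      funext n
      have hx : ee τ ^ n * (ee τ * (ee z)⁻¹) ≠ 0 :=
        mul_ne_zero (pow_ne_zero _ hq0) (mul_ne_zero hq0 (inv_ne_zero hz0))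
      rw [ser_cot, ser_ee_neg, ser_cot_inv hx, ← lg _ (ser_norm_lt hq hy n), inv_neg, mul_neg,
        mul_neg, sub_neg_eq_add]
    show HasSum (fun n : ℕ =>
        2 * Real.log ‖Complex.cot (Real.pi * (z + ((-((n : ℤ) + 1) : ℤ) : ℂ) * τ))‖) _
    rw [c2]; exact b2

private lemma ser_phi0 {z : ℂ} (h0 : 0 < z.im) (h1 : z.im < τ.im) :
    HasSum (fun k : ℤ => -(4 * Real.pi) / Complex.sin (2 * Real.pi * (z + k * τ)))
      (phi τ z) := by
  have hq := norm_q_lt hτ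
  have hs : ‖ee z‖ < 1 := norm_q_lt h0
  have hy : ‖ee τ * (ee z)⁻¹‖ < 1 := ser_y h1
  have hs' : ‖-ee z‖ < 1 := by rwa [norm_neg]
  have hy' : ‖ee τ * (-ee z)⁻¹‖ < 1 := by
    rw [inv_neg, mul_neg, norm_neg]; exact hy
  have a1 := ser_psi hq hs
  have a2 := ser_psi hq hy
  have a3 := ser_psi hq hs'
  have a4 := ser_psi hq hy'
  have hq0 := ee_ne_zero τ
  have hz0 := ee_ne_zero z
  have b1 := (a3.sub a1).mul_left (4 * Real.pi * I)
  have b2 := (a4.sub a2).mul_left (-(4 * Real.pi * I))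
  have t1 : Th τ z ≠ 0 := Th_ne_zero_of_im hτ h0 h1
  have t2 : Th τ (z + 1 / 2) ≠ 0 := Th_ne_zero_of_im hτ (by simpa using h0) (by simpa using h1)
  have e : phi τ z =
      4 * Real.pi * I * (psi (ee τ) (-ee z) - psi (ee τ) (ee z)) +
      -(4 * Real.pi * I) * (psi (ee τ) (ee τ * (-ee z)⁻¹) -
        psi (ee τ) (ee τ * (ee z)⁻¹)) := by
    have dT := Th_differentiable hτ
    have dT2 : DifferentiableAt ℂ (fun z => Th τ (z + 1 / 2)) z :=
      (dT _).comp z (by fun_prop)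
    have k1 : logDeriv (fun z => Th τ (z + 1 / 2)) z = ka τ (z + 1 / 2) := by
      unfold ka logDeriv
      simp only [Pi.div_apply, deriv_comp_add_const]
    have k2 : phi τ z = 2 * (ka τ (z + 1 / 2) - ka τ z) := by
      have e1 : ff τ = fun z => (-1 : ℂ) * (Th τ (z + 1 / 2) / Th τ z) ^ 2 := by
        funext z; unfold ff; ring
      unfold phi
      rw [e1, logDeriv_const_mul (f := fun z => (Th τ (z + 1 / 2) / Th τ z) ^ 2) z (-1)
          (by norm_num),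
        logDeriv_fun_pow (f := fun z => Th τ (z + 1 / 2) / Th τ z) (dT2.div (dT z) t1) 2,
        logDeriv_div (f := fun z => Th τ (z + 1 / 2)) (g := Th τ) z t2 t1 dT2 (dT z), k1]
      unfold ka
      push_cast
      ring
    rw [k2, ka_eq hτ t2, ka_eq hτ t1, ser_half]
    ring
  rw [e]
  refine HasSum.of_nat_of_neg_add_one ?_ ?_
  · have c1 : (fun n : ℕ =>
        -(4 * (Real.pi : ℂ)) / Complex.sin (2 * Real.pi * (z + ((n : ℤ) : ℂ) * τ))) =
        fun n : ℕ => 4 * Real.pi * I * (-(ee τ ^ n * -ee z) / (1 - ee τ ^ n * -ee z) -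
          -(ee τ ^ n * ee z) / (1 - ee τ ^ n * ee z)) := by
      funext n
      rw [ser_sin, ser_ee_nat]
      have hx : ee τ ^ n * ee z ≠ 0 := mul_ne_zero (pow_ne_zero _ hq0) hz0
      have hn := ser_norm_lt hq hs n
      rw [mul_neg]
      exact ser_alg hx hn
    show HasSum (fun n : ℕ =>
        -(4 * (Real.pi : ℂ)) / Complex.sin (2 * Real.pi * (z + ((n : ℤ) : ℂ) * τ))) _
    rw [c1]; exact b1
  · have c2 : (fun n : ℕ => -(4 * (Real.pi : ℂ)) /
        Complex.sin (2 * Real.pi * (z + ((-((n : ℤ) + 1) : ℤ) : ℂ) * τ))) =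
        fun n : ℕ => -(4 * Real.pi * I) *
          (-(ee τ ^ n * (ee τ * (-ee z)⁻¹)) / (1 - ee τ ^ n * (ee τ * (-ee z)⁻¹)) -
          -(ee τ ^ n * (ee τ * (ee z)⁻¹)) / (1 - ee τ ^ n * (ee τ * (ee z)⁻¹))) := by
      funext n
      have hx : ee τ ^ n * (ee τ * (ee z)⁻¹) ≠ 0 :=
        mul_ne_zero (pow_ne_zero _ hq0) (mul_ne_zero hq0 (inv_ne_zero hz0))
      have hn := ser_norm_lt hq hy n
      rw [ser_sin, ser_ee_neg, inv_neg, mul_neg, mul_neg]
      generalize ee τ ^ n * (ee τ * (ee z)⁻¹) = x at hx hn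
      have h3 := ser_alg hx hn
      rw [inv_inv]
      have h4 : -(4 * (Real.pi : ℂ)) / ((x⁻¹ - x) / (2 * I)) =
          -(-(4 * (Real.pi : ℂ)) / ((x - x⁻¹) / (2 * I))) := by
        rw [← div_neg, ← neg_div, neg_sub]
      rw [h4, h3]
      ring
    show HasSum (fun n : ℕ => -(4 * (Real.pi : ℂ)) /
        Complex.sin (2 * Real.pi * (z + ((-((n : ℤ) + 1) : ℤ) : ℂ) * τ))) _
    rw [c2]; exact b2

end

/-! ### periodicity -/

section
variable {τ : ℂ} (hτ : 0 < τ.im)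
include hτ

private lemma ser_ff_add (z : ℂ) : ff τ (z + τ) = ff τ z := by
  unfold ff
  have h1 : Th τ (z + τ + 1 / 2) = (ee z)⁻¹ * Th τ (z + 1 / 2) := by
    rw [show z + τ + 1 / 2 = (z + 1 / 2) + τ by ring, Th_add_tau hτ, ser_half, inv_neg, neg_neg]
  rw [h1, Th_add_tau hτ]
  have h2 := ee_ne_zero z
  rw [neg_mul, div_neg, neg_sq, mul_div_mul_left _ _ (inv_ne_zero h2)]

private lemma ser_ff_int (z : ℂ) (n : ℤ) : ff τ (z + n * τ) = ff τ z := by
  have h : Function.Periodic (ff τ) τ := ser_ff_add hτ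
  simpa using h.int_mul n z

private lemma ser_phi_int (z : ℂ) (n : ℤ) : phi τ (z + n * τ) = phi τ z := by
  unfold phi logDeriv
  have h : deriv (ff τ) (z + n * τ) = deriv (ff τ) z := by
    rw [← deriv_comp_add_const]
    congr 1
    funext w; exact ser_ff_int hτ w n
  simp only [Pi.div_apply, h, ser_ff_int hτ]

private lemma ser_reduce (p : ℝ × ℝ) (hp : Real.sin (Real.pi * p.2) ≠ 0) :
    ∃ (n : ℤ) (z : ℂ), 0 < z.im ∧ z.im < τ.im ∧ zt τ p = z + n * τ := by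
  refine ⟨⌊p.2⌋, p.1 + (Int.fract p.2 : ℝ) * τ, ?_, ?_, ?_⟩
  · have h1 : 0 < Int.fract p.2 := by
      refine lt_of_le_of_ne (Int.fract_nonneg _) fun h => hp ?_
      have h2 : p.2 = ⌊p.2⌋ := by
        have := Int.floor_add_fract p.2
        linarith
      rw [h2, mul_comm]
      exact Real.sin_int_mul_pi _
    have : (p.1 + (Int.fract p.2 : ℝ) * τ : ℂ).im = Int.fract p.2 * τ.im := by simp
    rw [this]
    positivity
  · have : (p.1 + (Int.fract p.2 : ℝ) * τ : ℂ).im = Int.fract p.2 * τ.im := by simp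
    rw [this]
    have h1 := Int.fract_lt_one p.2
    nlinarith
  · unfold zt
    have h2 : (p.2 : ℂ) = (⌊p.2⌋ : ℂ) + (Int.fract p.2 : ℝ) := by
      have := Int.floor_add_fract p.2
      exact_mod_cast this.symm
    rw [h2]
    ring

omit hτ in
private lemma ser_shift {M : Type*} [AddCommMonoid M] [TopologicalSpace M] {F : ℂ → M} {m : M}
    {z : ℂ} (n : ℤ) (h : HasSum (fun k : ℤ => F (z + k * τ)) m) :
    HasSum (fun k : ℤ => F (z + n * τ + k * τ)) m := by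
  have h2 := (Equiv.addLeft n).hasSum_iff.2 h
  convert h2 using 2 with k
  simp only [Function.comp, Equiv.coe_addLeft]
  congr 1
  push_cast
  ring

/-- `z = u + v τ` with `v` not an integer -/
theorem lam_series (p : ℝ × ℝ) (hp : Real.sin (Real.pi * p.2) ≠ 0) :
    HasSum (fun k : ℤ => 2 * Real.log ‖Complex.cot (Real.pi * (zt τ p + k * τ))‖)
      (Real.log ‖ff τ (zt τ p)‖) := by
  obtain ⟨n, z, h0, h1, hz⟩ := ser_reduce hτ p hp
  rw [hz, ser_ff_int hτ]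
  exact ser_shift (F := fun w => 2 * Real.log ‖Complex.cot (Real.pi * w)‖) n
    (ser_lam0 hτ h0 h1)

theorem phi_series (p : ℝ × ℝ) (hp : Real.sin (Real.pi * p.2) ≠ 0) :
    HasSum (fun k : ℤ => -(4 * Real.pi) / Complex.sin (2 * Real.pi * (zt τ p + k * τ)))
      (phi τ (zt τ p)) := by
  obtain ⟨n, z, h0, h1, hz⟩ := ser_reduce hτ p hp
  rw [hz, ser_phi_int hτ]
  exact ser_shift (F := fun w => -(4 * (Real.pi : ℂ)) / Complex.sin (2 * Real.pi * w)) n
    (ser_phi0 hτ h0 h1)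

end

end Pool.Agent.Helper76.K3
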