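import Pool.Agent.Helper76.K3.BndCore
import Pool.Agent.Helper76.K3.Ser

/-! Bounds and convergence. -/

noncomputable section

namespace Pool.Agent.Helper76.K3

open Complex MeasureTheory Set Filter Topology

/-- one constant for all `τ` near `i` -/
theorem bounds : ∃ C : ℝ, 0 < C ∧ ∀ τ : ℂ, |τ.re| ≤ 1 → 1 / 2 ≤ τ.im → τ.im ≤ 2 → ∀ p : ℝ × ℝ,
    Real.sin (2 * Real.pi * p.1) ≠ 0 → Real.sin (Real.pi * p.2) ≠ 0 →
    ‖phi τ (zt τ p)‖ ≤ C * hh p ∧ ‖lam τ (zt τ p)‖ ≤ C * hh p :=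
  Bnd.bounds_core (fun _ h p hp => lam_series h p hp) (fun _ h p hp => phi_series h p hp)

theorem phi_tendsto {t : ℕ → ℂ} (ht : Tendsto t atTop (𝓝 I)) (p : ℝ × ℝ)
    (hp : Real.sin (Real.pi * p.2) ≠ 0) :
    Tendsto (fun n => phi (t n) (zt (t n) p)) atTop (𝓝 (phi I (zt I p))) :=
  Bnd.phi_tendsto_core (fun _ h p hp => phi_series h p hp) ht p hp

theorem lam_tendsto {t : ℕ → ℂ} (ht : Tendsto t atTop (𝓝 I)) (p : ℝ × ℝ)
    (hp : Real.sin (Real.pi * p.2) ≠ 0) :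
    Tendsto (fun n => lam (t n) (zt (t n) p)) atTop (𝓝 (lam I (zt I p))) :=
  Bnd.lam_tendsto_core (fun _ h p hp => lam_series h p hp) ht p hp

end Pool.Agent.Helper76.K3
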