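import Pool.Agent.Helper76.K3.Basic

/-! Bounds and convergence, core part (uses the series only as hypotheses). -/

noncomputable section

namespace Pool.Agent.Helper76.K3

open Complex MeasureTheory Set Filter Topology

namespace Bnd

theorem norm_sin_sq (w : ℂ) :
    ‖Complex.sin w‖ ^ 2 = Real.sin w.re ^ 2 + Real.sinh w.im ^ 2 := by
  rw [Complex.sin_eq, Complex.sq_norm]
  have e : Complex.sin w.re * Complex.cosh w.im + Complex.cos w.re * Complex.sinh w.im * I =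
      ((Real.sin w.re * Real.cosh w.im : ℝ) : ℂ) + ((Real.cos w.re * Real.sinh w.im : ℝ) : ℂ) * I := by
    push_cast; ring
  rw [e, Complex.normSq_add_mul_I]
  have h1 := Real.cosh_sq w.im
  have h2 := Real.sin_sq_add_cos_sq w.re
  have h3 : Real.cos w.re ^ 2 = 1 - Real.sin w.re ^ 2 := by linarith
  rw [mul_pow, mul_pow, h1, h3]
  ring

theorem norm_cos_sq (w : ℂ) :
    ‖Complex.cos w‖ ^ 2 = Real.cos w.re ^ 2 + Real.sinh w.im ^ 2 := by
  rw [Complex.cos_eq, Complex.sq_norm]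
  have e : Complex.cos w.re * Complex.cosh w.im - Complex.sin w.re * Complex.sinh w.im * I =
      ((Real.cos w.re * Real.cosh w.im : ℝ) : ℂ) + ((-(Real.sin w.re * Real.sinh w.im) : ℝ) : ℂ) * I := by
    push_cast; ring
  rw [e, Complex.normSq_add_mul_I]
  have h1 := Real.cosh_sq w.im
  have h2 := Real.sin_sq_add_cos_sq w.re
  have h3 : Real.cos w.re ^ 2 = 1 - Real.sin w.re ^ 2 := by linarith
  rw [mul_pow, neg_sq, mul_pow, h1, h3]
  ring

theorem sinh_lower {t : ℝ} (ht : 1 ≤ t) : Real.exp t / 4 ≤ Real.sinh t := by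
  rw [Real.sinh_eq]
  have h1 : Real.exp (-t) ≤ 1 := Real.exp_le_one_iff.mpr (by linarith)
  have h2 : t + 1 ≤ Real.exp t := Real.add_one_le_exp t
  linarith

theorem sinh_sq_abs (t : ℝ) : Real.sinh t ^ 2 = Real.sinh |t| ^ 2 := by
  rw [← Real.abs_sinh, sq_abs]

theorem sinh_sq_mono {s t : ℝ} (hs : 0 ≤ s) (h : s ≤ |t|) : Real.sinh s ^ 2 ≤ Real.sinh t ^ 2 := by
  rw [sinh_sq_abs t]
  have h1 : 0 ≤ Real.sinh s := Real.sinh_nonneg_iff.mpr hs
  have h2 : Real.sinh s ≤ Real.sinh |t| := Real.sinh_le_sinh.mpr h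
  exact pow_le_pow_left₀ h1 h2 2

/-- the constant -/
def M : ℝ := 16 * Real.cosh (2 * Real.pi) ^ 2 * Real.exp 1

theorem cosh_ge : 1 ≤ Real.cosh (2 * Real.pi) ^ 2 := by
  have := Real.one_le_cosh (2 * Real.pi)
  nlinarith

theorem M_ge : 16 * Real.exp 1 ≤ M := by
  have h := cosh_ge
  have h2 := Real.exp_pos 1
  unfold M
  nlinarith

theorem M_pos : 0 < M := lt_of_lt_of_le (by positivity) M_ge

theorem exp_one_mul {b : ℝ} (hb : |b| ≤ 1) : 1 ≤ Real.exp 1 * Real.exp (-|b|) := by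
  rw [← Real.exp_add]
  exact Real.one_le_exp (by linarith)

theorem abs_log_le_of {a b d : ℝ} (hd : 0 < d) (ha : d ≤ a) (hb : d ≤ b) (hab : |a - b| ≤ 1) :
    |Real.log a - Real.log b| ≤ 1 / d := by
  have ha' : 0 < a := lt_of_lt_of_le hd ha
  have hb' : 0 < b := lt_of_lt_of_le hd hb
  have key : ∀ x y : ℝ, 0 < x → d ≤ y → |x - y| ≤ 1 → Real.log x - Real.log y ≤ 1 / d := by
    intro x y hx hy hxy
    have hy' : 0 < y := lt_of_lt_of_le hd hy
    rw [← Real.log_div hx.ne' hy'.ne']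
    have h1 := Real.log_le_sub_one_of_pos (div_pos hx hy')
    have h2 : x / y - 1 = (x - y) / y := by field_simp
    have h3 : (x - y) / y ≤ 1 / y := by
      apply div_le_div_of_nonneg_right _ hy'.le
      exact (le_abs_self _).trans hxy
    have h4 : 1 / y ≤ 1 / d := one_div_le_one_div_of_le hd hy
    linarith
  rw [abs_le]
  constructor
  · have := key b a hb' ha (by rw [abs_sub_comm]; exact hab)
    linarith
  · exact key a b ha' hb hab

theorem im_w (τ : ℂ) (u b : ℝ) (c : ℝ) : ((c : ℂ) * (u + b * τ)).im = c * (b * τ.im) := by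
  simp

theorem abs_c {τ : ℂ} (h2 : 1 / 2 ≤ τ.im) (b : ℝ) {c : ℝ} (hc : 0 ≤ c) :
    c * |b| / 2 ≤ |c * (b * τ.im)| := by
  rw [abs_mul, abs_mul, abs_of_nonneg hc, abs_of_nonneg (by linarith : (0:ℝ) ≤ τ.im)]
  have : 0 ≤ c * |b| := by positivity
  nlinarith

/-- lower bound of the sine -/
theorem sin_lower {τ : ℂ} (h2 : 1 / 2 ≤ τ.im) (u b : ℝ) :
    Real.sinh (Real.pi * |b|) ≤ ‖Complex.sin (2 * Real.pi * (u + b * τ))‖ := by
  have h0 : (2 * Real.pi * (u + b * τ) : ℂ) = ((2 * Real.pi : ℝ) : ℂ) * (u + b * τ) := by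
    push_cast; ring
  rw [h0]
  apply le_of_sq_le_sq _ (norm_nonneg _)
  rw [norm_sin_sq, im_w]
  have h3 := abs_c h2 b (c := 2 * Real.pi) (by positivity)
  have h4 : Real.pi * |b| ≤ |2 * Real.pi * (b * τ.im)| := by linarith
  have h5 := sinh_sq_mono (by positivity) h4
  nlinarith [sq_nonneg (Real.sin (((2 * Real.pi : ℝ) : ℂ) * (u + b * τ)).re)]

theorem term_sin {τ : ℂ} (h2 : 1 / 2 ≤ τ.im) {u b H : ℝ} (hH : 1 ≤ H)
    (hS0 : Complex.sin (2 * Real.pi * (u + b * τ)) ≠ 0)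
    (hS : 1 ≤ H * ‖Complex.sin (2 * Real.pi * (u + b * τ))‖) :
    ‖-(4 * Real.pi) / Complex.sin (2 * Real.pi * (u + b * τ))‖ ≤
      4 * Real.pi * (M * H * Real.exp (-|b|)) := by
  have hSpos : 0 < ‖Complex.sin (2 * Real.pi * (u + b * τ))‖ := norm_pos_iff.mpr hS0
  have e1 : ‖-(4 * Real.pi) / Complex.sin (2 * Real.pi * (u + b * τ))‖ =
      4 * Real.pi * (1 / ‖Complex.sin (2 * Real.pi * (u + b * τ))‖) := by
    rw [norm_div, norm_neg]
    have : ‖(4 * Real.pi : ℂ)‖ = 4 * Real.pi := by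
      rw [norm_mul, Complex.norm_real, Real.norm_of_nonneg Real.pi_pos.le]
      norm_num
    rw [this]
    ring
  rw [e1]
  apply mul_le_mul_of_nonneg_left _ (by positivity)
  have hM := M_ge
  have he1 : 1 ≤ Real.exp 1 := Real.one_le_exp (by norm_num)
  rcases le_or_gt |b| 1 with hb | hb
  · have h4 : 1 / ‖Complex.sin (2 * Real.pi * (u + b * τ))‖ ≤ H := by
      rw [div_le_iff₀ hSpos]; exact hS
    have h5 := exp_one_mul hb
    calc 1 / ‖Complex.sin (2 * Real.pi * (u + b * τ))‖ ≤ H := h4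
      _ = H * 1 := (mul_one _).symm
      _ ≤ H * (Real.exp 1 * Real.exp (-|b|)) := mul_le_mul_of_nonneg_left h5 (by linarith)
      _ ≤ H * (M * Real.exp (-|b|)) := by
          apply mul_le_mul_of_nonneg_left _ (by linarith)
          apply mul_le_mul_of_nonneg_right _ (Real.exp_pos _).le
          linarith
      _ = M * H * Real.exp (-|b|) := by ring
  · have h4 := sin_lower h2 u b
    have h5 : Real.exp |b| / 4 ≤ Real.sinh (Real.pi * |b|) := by
      have h6 : |b| ≤ Real.pi * |b| := by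
        have := Real.pi_gt_three
        nlinarith [abs_nonneg b]
      have h7 := sinh_lower (t := Real.pi * |b|) (by linarith)
      have h8 := Real.exp_le_exp.mpr h6
      linarith
    have h9 : Real.exp |b| / 4 ≤ ‖Complex.sin (2 * Real.pi * (u + b * τ))‖ := h5.trans h4
    calc 1 / ‖Complex.sin (2 * Real.pi * (u + b * τ))‖ ≤ 1 / (Real.exp |b| / 4) :=
          one_div_le_one_div_of_le (by positivity) h9
      _ = 4 * Real.exp (-|b|) := by rw [Real.exp_neg]; field_simp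
      _ ≤ M * H * Real.exp (-|b|) := by
          apply mul_le_mul_of_nonneg_right _ (Real.exp_pos _).le
          nlinarith

theorem sin_two_mul' (z : ℂ) : ‖Complex.sin (2 * z)‖ = 2 * ‖Complex.sin z‖ * ‖Complex.cos z‖ := by
  rw [Complex.sin_two_mul, norm_mul, norm_mul]
  norm_num

theorem log_abs_le {t : ℝ} (ht : 0 < t) : |Real.log t| ≤ t + t⁻¹ := by
  have h1 := Real.log_le_sub_one_of_pos ht
  have h2 := Real.log_le_sub_one_of_pos (inv_pos.mpr ht)
  rw [Real.log_inv] at h2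
  have h3 : 0 < t⁻¹ := inv_pos.mpr ht
  rw [abs_le]
  constructor <;> linarith

theorem term_cot {τ : ℂ} (h2 : 1 / 2 ≤ τ.im) (h3 : τ.im ≤ 2) {u b H : ℝ} (hH : 1 ≤ H)
    (hS0 : Complex.sin (2 * Real.pi * (u + b * τ)) ≠ 0)
    (hS : 1 ≤ H * ‖Complex.sin (2 * Real.pi * (u + b * τ))‖) :
    ‖2 * Real.log ‖Complex.cot (Real.pi * (u + b * τ))‖‖ ≤ M * H * Real.exp (-|b|) := by
  have hSpos : 0 < ‖Complex.sin (2 * Real.pi * (u + b * τ))‖ := norm_pos_iff.mpr hS0
  have hdef : ‖Complex.sin (2 * Real.pi * (u + b * τ))‖ =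
      2 * ‖Complex.sin (Real.pi * (u + b * τ))‖ * ‖Complex.cos (Real.pi * (u + b * τ))‖ := by
    rw [← sin_two_mul']; ring_nf
  have hs : 0 < ‖Complex.sin (Real.pi * (u + b * τ))‖ := by
    rcases (norm_nonneg (Complex.sin (Real.pi * (u + b * τ)))).eq_or_lt with h | h
    · rw [hdef, ← h] at hSpos; simp at hSpos
    · exact h
  have hc : 0 < ‖Complex.cos (Real.pi * (u + b * τ))‖ := by
    rcases (norm_nonneg (Complex.cos (Real.pi * (u + b * τ)))).eq_or_lt with h | h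
    · rw [hdef, ← h] at hSpos; simp at hSpos
    · exact h
  have hcot : ‖Complex.cot (Real.pi * (u + b * τ))‖ =
      ‖Complex.cos (Real.pi * (u + b * τ))‖ / ‖Complex.sin (Real.pi * (u + b * τ))‖ := by
    rw [Complex.cot, norm_div]
  have hns := norm_sin_sq (Real.pi * (u + b * τ))
  have hnc := norm_cos_sq (Real.pi * (u + b * τ))
  have him : (Real.pi * (u + b * τ) : ℂ).im = Real.pi * (b * τ.im) := im_w τ u b Real.pi
  set s := ‖Complex.sin (Real.pi * (u + b * τ))‖ with hsdef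
  set c := ‖Complex.cos (Real.pi * (u + b * τ))‖ with hcdef
  set a := (Real.pi * (u + b * τ) : ℂ).re with ha
  rw [him] at hns hnc
  have hsc := Real.sin_sq_add_cos_sq a
  have hM := M_ge
  have he1 : 1 ≤ Real.exp 1 := Real.one_le_exp (by norm_num)
  rcases le_or_gt |b| 1 with hb | hb
  · have h4 : 1 / ‖Complex.sin (2 * Real.pi * (u + b * τ))‖ ≤ H := by
      rw [div_le_iff₀ hSpos]; exact hS
    have h5 := exp_one_mul hb
    have hub : |Real.pi * (b * τ.im)| ≤ 2 * Real.pi := by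
      rw [abs_mul, abs_mul, abs_of_pos Real.pi_pos, abs_of_nonneg (by linarith : (0:ℝ) ≤ τ.im)]
      have := Real.pi_pos
      have h6 : |b| * τ.im ≤ 1 * 2 := mul_le_mul hb h3 (by linarith) (by norm_num)
      nlinarith
    have hsh : Real.sinh (Real.pi * (b * τ.im)) ^ 2 + 1 ≤ Real.cosh (2 * Real.pi) ^ 2 := by
      have h7 : Real.sinh (Real.pi * (b * τ.im)) ^ 2 ≤ Real.sinh (2 * Real.pi) ^ 2 := by
        rw [sinh_sq_abs]
        apply sinh_sq_mono (abs_nonneg _)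
        rw [abs_of_pos (by positivity : (0:ℝ) < 2 * Real.pi)]
        exact hub
      have h8 := Real.cosh_sq (2 * Real.pi)
      linarith
    have hc2 : c ^ 2 ≤ Real.cosh (2 * Real.pi) ^ 2 := by
      rw [hnc]; nlinarith [sq_nonneg (Real.sin a)]
    have hs2 : s ^ 2 ≤ Real.cosh (2 * Real.pi) ^ 2 := by
      rw [hns]; nlinarith [sq_nonneg (Real.cos a)]
    have hcotb : c / s + (c / s)⁻¹ ≤ 4 * Real.cosh (2 * Real.pi) ^ 2 * H := by
      have e1 : c / s + (c / s)⁻¹ =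
          2 * (c ^ 2 + s ^ 2) * (1 / ‖Complex.sin (2 * Real.pi * (u + b * τ))‖) := by
        rw [hdef]
        field_simp
      rw [e1]
      have h10 : 2 * (c ^ 2 + s ^ 2) ≤ 4 * Real.cosh (2 * Real.pi) ^ 2 := by linarith
      exact mul_le_mul h10 h4 (by positivity) (by positivity)
    calc ‖2 * Real.log ‖Complex.cot (Real.pi * (u + b * τ))‖‖ = 2 * |Real.log (c / s)| := by
          rw [hcot, norm_mul, Real.norm_eq_abs, Real.norm_eq_abs]; norm_num
      _ ≤ 2 * (c / s + (c / s)⁻¹) := by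
          have := log_abs_le (div_pos hc hs)
          linarith
      _ ≤ 2 * (4 * Real.cosh (2 * Real.pi) ^ 2 * H) := by linarith
      _ = 8 * Real.cosh (2 * Real.pi) ^ 2 * H * 1 := by ring
      _ ≤ 8 * Real.cosh (2 * Real.pi) ^ 2 * H * (Real.exp 1 * Real.exp (-|b|)) := by
          apply mul_le_mul_of_nonneg_left h5 (by positivity)
      _ ≤ 16 * Real.cosh (2 * Real.pi) ^ 2 * H * (Real.exp 1 * Real.exp (-|b|)) := by
          apply mul_le_mul_of_nonneg_right _ (by positivity)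
          apply mul_le_mul_of_nonneg_right _ (by linarith)
          apply mul_le_mul_of_nonneg_right _ (by positivity)
          norm_num
      _ = M * H * Real.exp (-|b|) := by unfold M; ring
  · have h11 : Real.exp |b| / 16 ≤ Real.sinh (Real.pi * (b * τ.im)) ^ 2 := by
      have h12 := abs_c h2 b (c := Real.pi) (by positivity)
      have h13 := sinh_sq_mono (s := Real.pi * |b| / 2) (by positivity) h12
      have hpi := Real.pi_gt_three
      have h14 := sinh_lower (t := Real.pi * |b| / 2) (by nlinarith)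
      have h15 : (Real.exp (Real.pi * |b| / 2) / 4) ^ 2 ≤ Real.sinh (Real.pi * |b| / 2) ^ 2 :=
        pow_le_pow_left₀ (by positivity) h14 2
      have h16 : (Real.exp (Real.pi * |b| / 2) / 4) ^ 2 = Real.exp (Real.pi * |b|) / 16 := by
        rw [div_pow, ← Real.exp_nat_mul]
        congr 1
        · congr 1
          push_cast
          ring
        · norm_num
      have h17 : Real.exp |b| ≤ Real.exp (Real.pi * |b|) := by
        apply Real.exp_le_exp.mpr
        nlinarith [abs_nonneg b]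
      linarith
    have hd : 0 < Real.exp |b| / 16 := by positivity
    have h18 := abs_log_le_of hd (a := c ^ 2) (b := s ^ 2)
      (by rw [hnc]; nlinarith [sq_nonneg (Real.cos a)])
      (by rw [hns]; nlinarith [sq_nonneg (Real.sin a)])
      (by
        rw [hnc, hns, abs_le]
        constructor <;> nlinarith [sq_nonneg (Real.cos a), sq_nonneg (Real.sin a)])
    have h19 : ‖2 * Real.log ‖Complex.cot (Real.pi * (u + b * τ))‖‖ =
        |Real.log (c ^ 2) - Real.log (s ^ 2)| := by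
      rw [hcot, Real.log_div hc.ne' hs.ne', Real.log_pow, Real.log_pow, Real.norm_eq_abs]
      congr 1
      push_cast
      ring
    rw [h19]
    calc |Real.log (c ^ 2) - Real.log (s ^ 2)| ≤ 1 / (Real.exp |b| / 16) := h18
      _ = 16 * Real.exp (-|b|) := by rw [Real.exp_neg]; field_simp
      _ ≤ M * H * Real.exp (-|b|) := by
          apply mul_le_mul_of_nonneg_right _ (Real.exp_pos _).le
          nlinarith

/-- the sum of the majorants -/
def K : ℝ := ∑' j : ℤ, Real.exp (1 - |(j : ℝ)|)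

theorem summable_K : Summable fun j : ℤ => Real.exp (1 - |(j : ℝ)|) := by
  have h1 : Summable fun n : ℕ => Real.exp (1 - (n : ℝ)) := by
    have h2 : Summable fun n : ℕ => Real.exp 1 * Real.exp (-(n : ℝ)) :=
      (Real.summable_exp_neg_nat).mul_left _
    refine h2.congr fun n => ?_
    rw [← Real.exp_add]
    ring_nf
  apply Summable.of_nat_of_neg
  · simpa using h1
  · simpa using h1

theorem shift_le (v : ℝ) (k : ℤ) : Real.exp (-|v + k|) ≤ Real.exp (1 - |((⌊v⌋ + k : ℤ) : ℝ)|) := by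
  apply Real.exp_le_exp.mpr
  have h1 := Int.floor_le v
  have h2 := Int.lt_floor_add_one v
  have h3 : |((⌊v⌋ + k : ℤ) : ℝ)| ≤ |v + k| + |(⌊v⌋ : ℝ) - v| := by
    have := abs_add_le (v + k) ((⌊v⌋ : ℝ) - v)
    push_cast
    have e : v + k + ((⌊v⌋ : ℝ) - v) = ⌊v⌋ + k := by ring
    rwa [e] at this
  have h4 : |(⌊v⌋ : ℝ) - v| ≤ 1 := by
    rw [abs_le]; constructor <;> linarith
  linarith

theorem summable_K' (v : ℝ) : Summable fun k : ℤ => Real.exp (1 - |((⌊v⌋ + k : ℤ) : ℝ)|) :=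
  (Equiv.addLeft ⌊v⌋).summable_iff.mpr summable_K

theorem summable_shift (v : ℝ) : Summable fun k : ℤ => Real.exp (-|v + k|) :=
  Summable.of_nonneg_of_le (fun _ => (Real.exp_pos _).le) (shift_le v) (summable_K' v)

theorem tsum_shift_le (v : ℝ) : ∑' k : ℤ, Real.exp (-|v + k|) ≤ K := by
  have h1 := (summable_shift v).tsum_le_tsum (shift_le v) (summable_K' v)
  have h2 : ∑' k : ℤ, Real.exp (1 - |((⌊v⌋ + k : ℤ) : ℝ)|) = K :=
    (Equiv.addLeft ⌊v⌋).tsum_eq (fun j : ℤ => Real.exp (1 - |(j : ℝ)|))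
  linarith

theorem K_pos : 0 < K :=
  summable_K.tsum_pos (fun _ => (Real.exp_pos _).le) 0 (Real.exp_pos _)

/-- the norm of a sum with exponential majorant -/
theorem norm_le_of {E : Type*} [NormedAddCommGroup E] {f : ℤ → E} {x : E} (v A : ℝ) (hA : 0 ≤ A)
    (hf : HasSum f x) (h : ∀ k : ℤ, ‖f k‖ ≤ A * Real.exp (-|v + k|)) : ‖x‖ ≤ A * K := by
  have h1 : Summable fun k : ℤ => A * Real.exp (-|v + k|) := (summable_shift v).mul_left A
  have h2 := hf.norm_le_of_bounded h1.hasSum h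
  rw [tsum_mul_left] at h2
  exact h2.trans (mul_le_mul_of_nonneg_left (tsum_shift_le v) hA)

theorem sin_add_int (v : ℝ) (k : ℤ) :
    |Real.sin (Real.pi * (v + k))| = |Real.sin (Real.pi * v)| := by
  have e : Real.pi * (v + k) = Real.pi * v + k * Real.pi := by ring
  rw [e, Real.sin_add_int_mul_pi, abs_mul]
  have : |((-1 : ℝ)) ^ k| = 1 := by
    rw [abs_zpow]; simp
  rw [this, one_mul]

theorem b_ne {v : ℝ} (hv : Real.sin (Real.pi * v) ≠ 0) (k : ℤ) : v + k ≠ 0 := by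
  intro h
  have h1 := sin_add_int v k
  rw [h, mul_zero, Real.sin_zero, abs_zero] at h1
  exact hv (abs_eq_zero.mp h1.symm)

theorem self_le_sinh {t : ℝ} (ht : 0 ≤ t) : t ≤ Real.sinh t := Real.self_le_sinh_iff.mpr ht

/-- `|sin π v| ≤ |sin 2π(u + b τ)|` -/
theorem sin_v_le {τ : ℂ} (h2 : 1 / 2 ≤ τ.im) (u v : ℝ) (k : ℤ) :
    |Real.sin (Real.pi * v)| ≤ ‖Complex.sin (2 * Real.pi * (u + ((v + k : ℝ) : ℂ) * τ))‖ := by
  have h3 := sin_lower h2 u (v + k)
  have h4 : |Real.sin (Real.pi * v)| ≤ Real.pi * |v + k| := by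
    rw [← sin_add_int v k]
    calc |Real.sin (Real.pi * (v + k))| ≤ |Real.pi * (v + k)| := Real.abs_sin_le_abs
      _ = Real.pi * |v + k| := by rw [abs_mul, abs_of_pos Real.pi_pos]
  have h5 := self_le_sinh (t := Real.pi * |v + k|) (by positivity)
  linarith

theorem sin_pos_of {τ : ℂ} (h2 : 1 / 2 ≤ τ.im) (u : ℝ) {v : ℝ} (hv : Real.sin (Real.pi * v) ≠ 0)
    (k : ℤ) : Complex.sin (2 * Real.pi * (u + ((v + k : ℝ) : ℂ) * τ)) ≠ 0 := by
  rw [← norm_pos_iff]
  exact lt_of_lt_of_le (abs_pos.mpr hv) (sin_v_le h2 u v k)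

/-- `|sin 2 π u| ≤ 3 |sin 2π(u + b τ)|` -/
theorem sin_u_le {τ : ℂ} (h1 : |τ.re| ≤ 1) (h2 : 1 / 2 ≤ τ.im) (u b : ℝ) :
    |Real.sin (2 * Real.pi * u)| ≤ 3 * ‖Complex.sin (2 * Real.pi * (u + b * τ))‖ := by
  have h0 : (2 * Real.pi * (u + b * τ) : ℂ) = ((2 * Real.pi : ℝ) : ℂ) * (u + b * τ) := by
    push_cast; ring
  have hre : (((2 * Real.pi : ℝ) : ℂ) * (u + b * τ)).re = 2 * Real.pi * (u + b * τ.re) := by
    simp
  have h3 : |Real.sin (2 * Real.pi * (u + b * τ.re))| ≤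
      ‖Complex.sin (2 * Real.pi * (u + b * τ))‖ := by
    rw [h0]
    apply le_of_sq_le_sq _ (norm_nonneg _)
    rw [norm_sin_sq, hre, sq_abs]
    nlinarith [sq_nonneg (Real.sinh (((2 * Real.pi : ℝ) : ℂ) * (u + b * τ)).im)]
  have h4 : Real.pi * |b| ≤ ‖Complex.sin (2 * Real.pi * (u + b * τ))‖ :=
    (self_le_sinh (by positivity)).trans (sin_lower h2 u b)
  have h5 : |Real.sin (2 * Real.pi * u)| ≤ |Real.sin (2 * Real.pi * (u + b * τ.re))| +
      |2 * Real.pi * (b * τ.re)| := by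
    have e : 2 * Real.pi * u = 2 * Real.pi * (u + b * τ.re) - 2 * Real.pi * (b * τ.re) := by ring
    rw [e, Real.sin_sub]
    set x := 2 * Real.pi * (u + b * τ.re)
    set y := 2 * Real.pi * (b * τ.re)
    calc |Real.sin x * Real.cos y - Real.cos x * Real.sin y| ≤
          |Real.sin x * Real.cos y| + |Real.cos x * Real.sin y| := abs_sub _ _
      _ ≤ |Real.sin x| * 1 + 1 * |y| := by
          rw [abs_mul, abs_mul]
          apply add_le_add
          · exact mul_le_mul_of_nonneg_left (Real.abs_cos_le_one _) (abs_nonneg _)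
          · exact mul_le_mul (Real.abs_cos_le_one _) Real.abs_sin_le_abs (abs_nonneg _) zero_le_one
      _ = _ := by ring
  have h6 : |2 * Real.pi * (b * τ.re)| ≤ 2 * (Real.pi * |b|) := by
    rw [abs_mul, abs_mul b, abs_of_pos (by positivity : (0:ℝ) < 2 * Real.pi)]
    have : |b| * |τ.re| ≤ |b| * 1 := mul_le_mul_of_nonneg_left h1 (abs_nonneg _)
    have := Real.pi_pos
    nlinarith
  linarith

theorem hh_ge_one {p : ℝ × ℝ} (h1 : Real.sin (2 * Real.pi * p.1) ≠ 0)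
    (h2 : Real.sin (Real.pi * p.2) ≠ 0) : 1 ≤ hh p := by
  have key : ∀ x : ℝ, Real.sin x ≠ 0 → 1 ≤ |Real.sin x| ^ (-(1 / 2) : ℝ) := by
    intro x hx
    have h3 : 0 < |Real.sin x| := abs_pos.mpr hx
    exact Real.one_le_rpow_of_pos_of_le_one_of_nonpos h3 (Real.abs_sin_le_one x) (by norm_num)
  unfold hh
  have h3 := key _ h1
  have h4 := key _ h2
  nlinarith

/-- `1 ≤ 3 hh |sin 2π(u + b τ)|` -/
theorem hh_bound {τ : ℂ} (h1 : |τ.re| ≤ 1) (h2 : 1 / 2 ≤ τ.im) {p : ℝ × ℝ}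
    (hu : Real.sin (2 * Real.pi * p.1) ≠ 0) (hv : Real.sin (Real.pi * p.2) ≠ 0) (k : ℤ) :
    1 ≤ 3 * hh p * ‖Complex.sin (2 * Real.pi * (p.1 + ((p.2 + k : ℝ) : ℂ) * τ))‖ := by
  have h3 := sin_u_le h1 h2 p.1 (p.2 + k)
  have h4 := sin_v_le h2 p.1 p.2 k
  set S := ‖Complex.sin (2 * Real.pi * (p.1 + ((p.2 + k : ℝ) : ℂ) * τ))‖ with hS
  have hS0 : 0 ≤ S := norm_nonneg _
  set x := |Real.sin (2 * Real.pi * p.1)| with hx
  set y := |Real.sin (Real.pi * p.2)| with hy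
  have hx0 : 0 < x := abs_pos.mpr hu
  have hy0 : 0 < y := abs_pos.mpr hv
  have hhd : hh p = x ^ (-(1 / 2) : ℝ) * y ^ (-(1 / 2) : ℝ) := rfl
  have e1 : x ^ (1 / 2 : ℝ) * x ^ (-(1 / 2) : ℝ) = 1 := by
    rw [← Real.rpow_add hx0]; norm_num
  have e2 : y ^ (1 / 2 : ℝ) * y ^ (-(1 / 2) : ℝ) = 1 := by
    rw [← Real.rpow_add hy0]; norm_num
  have f1 : x ^ (1 / 2 : ℝ) ≤ 3 ^ (1 / 2 : ℝ) * S ^ (1 / 2 : ℝ) := by
    rw [← Real.mul_rpow (by norm_num) hS0]
    exact Real.rpow_le_rpow hx0.le h3 (by norm_num)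
  have f2 : y ^ (1 / 2 : ℝ) ≤ S ^ (1 / 2 : ℝ) := Real.rpow_le_rpow hy0.le h4 (by norm_num)
  have f3 : (3 : ℝ) ^ (1 / 2 : ℝ) ≤ 3 := by
    calc (3 : ℝ) ^ (1 / 2 : ℝ) ≤ 3 ^ (1 : ℝ) := Real.rpow_le_rpow_of_exponent_le (by norm_num) (by norm_num)
      _ = 3 := Real.rpow_one 3
  have f4 : S ^ (1 / 2 : ℝ) * S ^ (1 / 2 : ℝ) = S := by
    rw [← Real.sqrt_eq_rpow, Real.mul_self_sqrt hS0]
  have f5 : x ^ (1 / 2 : ℝ) * y ^ (1 / 2 : ℝ) ≤ 3 * S := by
    calc x ^ (1 / 2 : ℝ) * y ^ (1 / 2 : ℝ) ≤ (3 ^ (1 / 2 : ℝ) * S ^ (1 / 2 : ℝ)) * S ^ (1 / 2 : ℝ) :=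
          mul_le_mul f1 f2 (by positivity) (by positivity)
      _ = 3 ^ (1 / 2 : ℝ) * S := by rw [mul_assoc, f4]
      _ ≤ 3 * S := mul_le_mul_of_nonneg_right f3 hS0
  rw [hhd]
  calc (1 : ℝ) = (x ^ (1 / 2 : ℝ) * x ^ (-(1 / 2) : ℝ)) * (y ^ (1 / 2 : ℝ) * y ^ (-(1 / 2) : ℝ)) := by
        rw [e1, e2, one_mul]
    _ = (x ^ (1 / 2 : ℝ) * y ^ (1 / 2 : ℝ)) * (x ^ (-(1 / 2) : ℝ) * y ^ (-(1 / 2) : ℝ)) := by ring
    _ ≤ 3 * S * (x ^ (-(1 / 2) : ℝ) * y ^ (-(1 / 2) : ℝ)) :=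
        mul_le_mul_of_nonneg_right f5 (by positivity)
    _ = _ := by ring

theorem arg_eq (τ : ℂ) (p : ℝ × ℝ) (k : ℤ) :
    zt τ p + k * τ = p.1 + ((p.2 + k : ℝ) : ℂ) * τ := by
  unfold zt; push_cast; ring

variable (hlam : ∀ τ : ℂ, 0 < τ.im → ∀ p : ℝ × ℝ, Real.sin (Real.pi * p.2) ≠ 0 →
    HasSum (fun k : ℤ => 2 * Real.log ‖Complex.cot (Real.pi * (zt τ p + k * τ))‖)
      (Real.log ‖ff τ (zt τ p)‖))
  (hphi : ∀ τ : ℂ, 0 < τ.im → ∀ p : ℝ × ℝ, Real.sin (Real.pi * p.2) ≠ 0 →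
    HasSum (fun k : ℤ => -(4 * Real.pi) / Complex.sin (2 * Real.pi * (zt τ p + k * τ)))
      (phi τ (zt τ p)))

include hlam hphi in
theorem bounds_core : ∃ C : ℝ, 0 < C ∧ ∀ τ : ℂ, |τ.re| ≤ 1 → 1 / 2 ≤ τ.im → τ.im ≤ 2 →
    ∀ p : ℝ × ℝ, Real.sin (2 * Real.pi * p.1) ≠ 0 → Real.sin (Real.pi * p.2) ≠ 0 →
    ‖phi τ (zt τ p)‖ ≤ C * hh p ∧ ‖lam τ (zt τ p)‖ ≤ C * hh p := by
  have hM := M_pos
  have hK := K_pos
  have hpi := Real.pi_gt_three
  refine ⟨4 * Real.pi * (M * 3) * K, by positivity, fun τ h1 h2 h3 p hu hv => ?_⟩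
  have hh1 := hh_ge_one hu hv
  have hS := fun k => hh_bound h1 h2 hu hv k
  have hS0 := fun k => sin_pos_of h2 p.1 hv k
  constructor
  · have h4 := norm_le_of p.2 (4 * Real.pi * (M * (3 * hh p))) (by positivity)
      (hphi τ (by linarith) p hv) (fun k => by
        have := term_sin h2 (u := p.1) (b := p.2 + k) (H := 3 * hh p) (by linarith) (hS0 k) (hS k)
        rw [arg_eq]
        calc _ ≤ _ := this
          _ = _ := by ring)
    calc _ ≤ _ := h4
      _ = _ := by ring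
  · have h4 := norm_le_of p.2 (M * (3 * hh p)) (by positivity)
      (hlam τ (by linarith) p hv) (fun k => by
        have := term_cot h2 h3 (u := p.1) (b := p.2 + k) (H := 3 * hh p) (by linarith) (hS0 k)
          (hS k)
        rw [arg_eq]
        exact this)
    unfold lam
    rw [Complex.norm_real]
    calc _ ≤ _ := h4
      _ = 1 * (M * (3 * hh p) * K) := by ring
      _ ≤ 4 * Real.pi * (M * (3 * hh p) * K) := by
          apply mul_le_mul_of_nonneg_right _ (by positivity)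
          linarith
      _ = _ := by ring

theorem eventually_I {t : ℕ → ℂ} (ht : Tendsto t atTop (𝓝 I)) :
    ∀ᶠ n in atTop, 1 / 2 ≤ (t n).im ∧ (t n).im ≤ 2 := by
  have h1 : Tendsto (fun n => (t n).im) atTop (𝓝 1) := by
    have := (Complex.continuous_im.tendsto I).comp ht
    rw [Complex.I_im] at this
    exact this
  filter_upwards [h1.eventually (lt_mem_nhds (show (1 / 2 : ℝ) < 1 by norm_num)),
    h1.eventually (gt_mem_nhds (show (1 : ℝ) < 2 by norm_num))] with n h2 h3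
  exact ⟨h2.le, h3.le⟩

theorem one_le_H (v : ℝ) (hv : Real.sin (Real.pi * v) ≠ 0) : 1 ≤ 1 / |Real.sin (Real.pi * v)| := by
  rw [le_div_iff₀ (abs_pos.mpr hv), one_mul]
  exact Real.abs_sin_le_one _

theorem H_bound {τ : ℂ} (h2 : 1 / 2 ≤ τ.im) {p : ℝ × ℝ} (hv : Real.sin (Real.pi * p.2) ≠ 0)
    (k : ℤ) : 1 ≤ 1 / |Real.sin (Real.pi * p.2)| *
      ‖Complex.sin (2 * Real.pi * (p.1 + ((p.2 + k : ℝ) : ℂ) * τ))‖ := by
  have h3 := sin_v_le h2 p.1 p.2 k
  have h4 := abs_pos.mpr hv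
  rw [one_div, inv_mul_eq_div, le_div_iff₀ h4, one_mul]
  exact h3

include hphi in
theorem phi_tendsto_core {t : ℕ → ℂ} (ht : Tendsto t atTop (𝓝 I)) (p : ℝ × ℝ)
    (hp : Real.sin (Real.pi * p.2) ≠ 0) :
    Tendsto (fun n => phi (t n) (zt (t n) p)) atTop (𝓝 (phi I (zt I p))) := by
  have hI : (1 / 2 : ℝ) ≤ (I : ℂ).im := by simp; norm_num
  have h1 : phi I (zt I p) =
      ∑' k : ℤ, -(4 * Real.pi) / Complex.sin (2 * Real.pi * (zt I p + k * I)) :=
    ((hphi I (by simp) p hp).tsum_eq).symm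
  rw [h1]
  have h2 : (fun n => phi (t n) (zt (t n) p)) =ᶠ[atTop] fun n =>
      ∑' k : ℤ, -(4 * Real.pi) / Complex.sin (2 * Real.pi * (zt (t n) p + k * (t n))) := by
    filter_upwards [eventually_I ht] with n hn
    exact ((hphi (t n) (by linarith) p hp).tsum_eq).symm
  refine Tendsto.congr' h2.symm ?_
  refine tendsto_tsum_of_dominated_convergence
    (bound := fun k : ℤ => 4 * Real.pi * (M * (1 / |Real.sin (Real.pi * p.2)|)) *
      Real.exp (-|p.2 + k|)) ((summable_shift p.2).mul_left _) ?_ ?_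
  · intro k
    have h3 : Complex.sin (2 * Real.pi * (zt I p + k * I)) ≠ 0 := by
      rw [arg_eq]; exact sin_pos_of hI p.1 hp k
    have hc : ContinuousAt (fun τ : ℂ => -(4 * Real.pi) / Complex.sin (2 * Real.pi * (zt τ p + k * τ)))
        I := by
      refine ContinuousAt.div (f := fun _ : ℂ => -(4 * Real.pi : ℂ))
        (g := fun τ : ℂ => Complex.sin (2 * Real.pi * (zt τ p + k * τ))) continuousAt_const ?_ h3
      unfold zt
      fun_prop
    exact hc.tendsto.comp ht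
  · filter_upwards [eventually_I ht] with n hn k
    have := term_sin hn.1 (u := p.1) (b := p.2 + k) (one_le_H p.2 hp) (sin_pos_of hn.1 p.1 hp k)
      (H_bound hn.1 hp k)
    rw [arg_eq]
    calc _ ≤ _ := this
      _ = _ := by ring

include hlam in
theorem lam_tendsto_core {t : ℕ → ℂ} (ht : Tendsto t atTop (𝓝 I)) (p : ℝ × ℝ)
    (hp : Real.sin (Real.pi * p.2) ≠ 0) :
    Tendsto (fun n => lam (t n) (zt (t n) p)) atTop (𝓝 (lam I (zt I p))) := by
  have hI : (1 / 2 : ℝ) ≤ (I : ℂ).im := by simp; norm_num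
  unfold lam
  refine (Complex.continuous_ofReal.tendsto _).comp ?_
  have h1 : Real.log ‖ff I (zt I p)‖ =
      ∑' k : ℤ, 2 * Real.log ‖Complex.cot (Real.pi * (zt I p + k * I))‖ :=
    ((hlam I (by simp) p hp).tsum_eq).symm
  rw [h1]
  have h2 : (fun n => Real.log ‖ff (t n) (zt (t n) p)‖) =ᶠ[atTop] fun n =>
      ∑' k : ℤ, 2 * Real.log ‖Complex.cot (Real.pi * (zt (t n) p + k * (t n)))‖ := by
    filter_upwards [eventually_I ht] with n hn
    exact ((hlam (t n) (by linarith) p hp).tsum_eq).symm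
  refine Tendsto.congr' h2.symm ?_
  refine tendsto_tsum_of_dominated_convergence
    (bound := fun k : ℤ => M * (1 / |Real.sin (Real.pi * p.2)|) *
      Real.exp (-|p.2 + k|)) ((summable_shift p.2).mul_left _) ?_ ?_
  · intro k
    have h3 : Complex.sin (2 * Real.pi * (zt I p + k * I)) ≠ 0 := by
      rw [arg_eq]; exact sin_pos_of hI p.1 hp k
    have e : (2 * Real.pi * (zt I p + k * I) : ℂ) = 2 * (Real.pi * (zt I p + k * I)) := by ring
    rw [e, Complex.sin_two_mul] at h3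
    have hs : Complex.sin (Real.pi * (zt I p + k * I)) ≠ 0 := by
      intro h; rw [h] at h3; simp at h3
    have hc : Complex.cos (Real.pi * (zt I p + k * I)) ≠ 0 := by
      intro h; rw [h] at h3; simp at h3
    have hcont : ContinuousAt (fun τ : ℂ => 2 * Real.log
        ‖Complex.cot (Real.pi * (zt τ p + k * τ))‖) I := by
      apply ContinuousAt.mul continuousAt_const
      apply ContinuousAt.log
      · apply ContinuousAt.norm
        unfold Complex.cot
        refine ContinuousAt.div (f := fun τ : ℂ => Complex.cos (Real.pi * (zt τ p + k * τ)))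
          (g := fun τ : ℂ => Complex.sin (Real.pi * (zt τ p + k * τ))) ?_ ?_ hs
        · unfold zt; fun_prop
        · unfold zt; fun_prop
      · rw [Complex.cot, norm_ne_zero_iff]
        exact div_ne_zero hc hs
    exact hcont.tendsto.comp ht
  · filter_upwards [eventually_I ht] with n hn k
    have := term_cot hn.1 hn.2 (u := p.1) (b := p.2 + k) (one_le_H p.2 hp)
      (sin_pos_of hn.1 p.1 hp k) (H_bound hn.1 hp k)
    rw [arg_eq]
    exact this

end Bnd

end Pool.Agent.Helper76.K3
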