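import Pool.Agent.Helper76.K3.Basic

/-! The regulator image is a rational subspace, its closure a real subspace. -/

noncomputable section

namespace Pool.Agent.Helper76.K3

open Complex MeasureTheory Set Filter Topology
open Pool.Agent.Helper21.Reg (IsElliptic ordAt intE)

def Sym.smul (k : ℤ) (T : Sym) : Sym := ⟨k * T.n, T.F, T.G, T.H⟩

def Pt.smul (k : ℤ) (t : Pt) : Pt := ⟨k * t.n, t.j, t.u⟩

def Chain.add (ξ η : Chain) : Chain := ⟨ξ.sym ++ η.sym, ξ.pt ++ η.pt⟩

def Chain.smul (k : ℤ) (ξ : Chain) : Chain := ⟨ξ.sym.map (Sym.smul k), ξ.pt.map (Pt.smul k)⟩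

theorem IsK3.add {L : PeriodPair} {ξ η : Chain} (h1 : IsK3 L ξ) (h2 : IsK3 L η) :
    IsK3 L (ξ.add η) where
  elliptic T hT := by
    rcases List.mem_append.mp hT with h | h
    · exact h1.elliptic T h
    · exact h2.elliptic T h
  unramified B hB j c := by
    simp only [Chain.add, List.map_append, List.sum_append]
    rw [h1.unramified B hB j c, h2.unramified B hB j c, add_zero]
  ne t ht := by
    rcases List.mem_append.mp ht with h | h
    · exact h1.ne t h
    · exact h2.ne t h
  bloch B hB j := by
    simp only [Chain.add, List.filter_append, List.map_append, List.sum_append]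
    rw [h1.bloch B hB j, h2.bloch B hB j, add_zero]

theorem sum_map_mul {α : Type} (k : ℚ) (l : List α) (f : α → ℚ) :
    (l.map fun t => k * f t).sum = k * (l.map f).sum := by
  induction l with
  | nil => simp
  | cons a l ih => simp only [List.map_cons, List.sum_cons, ih]; ring

theorem IsK3.smul {L : PeriodPair} {ξ : Chain} (h1 : IsK3 L ξ) (k : ℤ) : IsK3 L (ξ.smul k) where
  elliptic T hT := by
    simp only [Chain.smul, List.mem_map] at hT
    obtain ⟨S, hS, rfl⟩ := hT
    exact h1.elliptic S hS
  unramified B hB j c := by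
    have h := h1.unramified B hB j c
    have e : ((fun T : Sym => T.resid B j c) ∘ Sym.smul k) = fun T => (k : ℚ) * T.resid B j c := by
      funext T
      simp only [Function.comp, Sym.resid, Sym.smul]
      push_cast
      ring
    simp only [Chain.smul, List.map_map, e]
    rw [sum_map_mul, h, mul_zero]
  ne t ht := by
    simp only [Chain.smul, List.mem_map] at ht
    obtain ⟨s, hs, rfl⟩ := ht
    exact h1.ne s hs
  bloch B hB j := by
    have h := h1.bloch B hB j
    simp only [Chain.smul, List.filter_map, List.map_map]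
    have e : ((fun t : Pt => (t.n : ℚ) * B (1 - t.u) t.u) ∘ Pt.smul k) =
        fun t => (k : ℚ) * (t.n * B (1 - t.u) t.u) := by
      funext t
      simp only [Function.comp, Pt.smul]
      push_cast
      ring
    have e2 : ((fun t : Pt => decide (t.j = j)) ∘ Pt.smul k) = fun t => decide (t.j = j) := by
      funext t
      simp [Pt.smul]
    rw [e, e2, sum_map_mul, h, mul_zero]

theorem reg_add (L : PeriodPair) (ξ η : Chain) : (ξ.add η).reg L = ξ.reg L + η.reg L := by
  simp only [Chain.reg, Chain.add, List.map_append, List.sum_append]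
  abel

theorem sum_map_smul' {α V : Type} [AddCommGroup V] [Module ℝ V] (k : ℝ) (l : List α) (f : α → V) :
    (l.map fun t => k • f t).sum = k • (l.map f).sum := by
  induction l with
  | nil => simp
  | cons a l ih => simp only [List.map_cons, List.sum_cons, ih, smul_add]

theorem reg_smul (L : PeriodPair) (k : ℤ) (ξ : Chain) : (ξ.smul k).reg L = (k : ℝ) • ξ.reg L := by
  have e1 : ((fun T : Sym => T.reg L) ∘ Sym.smul k) = fun T => (k : ℝ) • T.reg L := by
    funext T
    simp only [Function.comp, Sym.reg, Sym.smul, smul_smul]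
    push_cast
    rfl
  have e2 : ((fun t : Pt => t.reg L) ∘ Pt.smul k) = fun t => (k : ℝ) • t.reg L := by
    funext t
    simp only [Function.comp, Pt.reg, Pt.smul, smul_smul]
    congr 1
    push_cast
    ring
  simp only [Chain.reg, Chain.smul, List.map_map, e1, e2, sum_map_smul', smul_add]

theorem isK3_zero (L : PeriodPair) : IsK3 L ⟨[], []⟩ := ⟨by simp, by simp, by simp, by simp⟩

/-- the image of `K₃(X)^{(3)} ⊗ ℚ` under the real regulator -/
def image (L : PeriodPair) : Submodule ℚ (ℂ × ℝ × ℝ × ℂ) where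
  carrier := {v | ∃ (ξ : Chain) (m : ℕ), IsK3 L ξ ∧ 0 < m ∧ v = (m : ℝ)⁻¹ • ξ.reg L}
  zero_mem' := ⟨⟨[], []⟩, 1, isK3_zero L, one_pos, by simp [Chain.reg]⟩
  add_mem' := by
    rintro v v' ⟨ξ, m, hξ, hm, rfl⟩ ⟨ξ', m', hξ', hm', rfl⟩
    refine ⟨(ξ.smul m').add (ξ'.smul m), m * m', (hξ.smul _).add (hξ'.smul _),
      Nat.mul_pos hm hm', ?_⟩
    rw [reg_add, reg_smul, reg_smul, smul_add, smul_smul, smul_smul]
    have h1 : (m : ℝ) ≠ 0 := by positivity
    have h2 : (m' : ℝ) ≠ 0 := by positivity
    congr 2
    · push_cast; field_simp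
    · push_cast; field_simp
  smul_mem' := by
    rintro q v ⟨ξ, m, hξ, hm, rfl⟩
    refine ⟨ξ.smul q.num, q.den * m, hξ.smul _, Nat.mul_pos q.den_pos hm, ?_⟩
    rw [reg_smul, smul_smul, ← Rat.cast_smul_eq_qsmul ℝ q, smul_smul]
    congr 1
    have h1 : (m : ℝ) ≠ 0 := by positivity
    have h2 : (q.den : ℝ) ≠ 0 := by exact_mod_cast q.den_ne_zero
    rw [Rat.cast_def]
    push_cast
    field_simp

/-- The closure of a rational subspace is a real subspace. -/
theorem real_smul_mem {V : Type*} [NormedAddCommGroup V] [NormedSpace ℝ V] [Module ℚ V]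
    [ContinuousConstSMul ℚ V] [IsScalarTower ℚ ℝ V] (W : Submodule ℚ V) (r : ℝ) {v : V}
    (hv : v ∈ W.topologicalClosure) : r • v ∈ W.topologicalClosure := by
  have hcl : IsClosed (W.topologicalClosure : Set V) := W.isClosed_topologicalClosure
  have hpre : IsClosed ((fun r : ℝ => r • v) ⁻¹' (W.topologicalClosure : Set V)) :=
    hcl.preimage (by fun_prop)
  have hsub : Set.range ((↑) : ℚ → ℝ) ⊆ (fun r : ℝ => r • v) ⁻¹' (W.topologicalClosure : Set V) := by
    rintro _ ⟨q, rfl⟩
    simp only [mem_preimage, SetLike.mem_coe]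
    rw [Rat.cast_smul_eq_qsmul]
    exact W.topologicalClosure.smul_mem q hv
  have := closure_minimal hsub hpre
  rw [Rat.isDenseEmbedding_coe_real.dense.closure_range] at this
  exact this (mem_univ r)

/-- the closure of the image, a real subspace -/
def WW (L : PeriodPair) : Submodule ℝ (ℂ × ℝ × ℝ × ℂ) where
  carrier := (image L).topologicalClosure
  add_mem' := fun ha hb => (image L).topologicalClosure.add_mem ha hb
  zero_mem' := (image L).topologicalClosure.zero_mem
  smul_mem' := fun r _ hv => real_smul_mem (image L) r hv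

theorem WW_closed (L : PeriodPair) : IsClosed (WW L : Set (ℂ × ℝ × ℝ × ℂ)) :=
  (image L).isClosed_topologicalClosure

theorem mem_WW {L : PeriodPair} {ξ : Chain} (h : IsK3 L ξ) : ξ.reg L ∈ WW L :=
  (image L).le_topologicalClosure ⟨ξ, 1, h, one_pos, by simp⟩

end Pool.Agent.Helper76.K3
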