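import Pool.Agent.Helper76.K3.Basic

/-! A triple convolution on the circle. -/

noncomputable section

namespace Pool.Agent.Helper76.K3

open Complex MeasureTheory Set Filter Topology
open Pool.Agent.Helper21.Reg (ee)

private lemma circ_norm_ee (m : ℤ) (u : ℝ) : ‖ee (m * u)‖ = 1 := by
  have : (2 * Real.pi * I * ((m : ℂ) * u)) = ((2 * Real.pi * (m * u) : ℝ) : ℂ) * I := by
    push_cast; ring
  rw [ee, this, norm_exp_ofReal_mul_I]

private lemma circ_cont_ee (m : ℤ) : Continuous fun u : ℝ => ee (m * u) := by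
  unfold ee; fun_prop

private lemma circ_ee_add (m n : ℤ) (u : ℝ) : ee (m * u) * ee (n * u) = ee ((m + n : ℤ) * u) := by
  rw [ee, ee, ee, ← Complex.exp_add]
  congr 1
  push_cast
  ring

private lemma circ_cont {S : ℝ → ℂ} {f : ℤ → ℂ} (hf : Summable f)
    (hS : ∀ u : ℝ, HasSum (fun m : ℤ => f m * ee (m * u)) (S u)) : Continuous S := by
  have h : S = fun u : ℝ => ∑' m : ℤ, f m * ee (m * u) := by
    funext u
    exact (hS u).tsum_eq.symm
  rw [h]
  refine continuous_tsum (fun m => continuous_const.mul (circ_cont_ee m)) hf.norm ?_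
  intro m u
  rw [norm_mul, circ_norm_ee, mul_one]

private lemma circ_int_ee (m : ℤ) : ∫ u in Icc (0 : ℝ) 1, ee (m * u) = if m = 0 then 1 else 0 := by
  rw [integral_Icc_eq_integral_Ioc, ← intervalIntegral.integral_of_le zero_le_one]
  split_ifs with h
  · subst h
    simp [ee]
  · have hc : (2 * Real.pi * I * (m : ℂ)) ≠ 0 := by
      have : (m : ℂ) ≠ 0 := by exact_mod_cast h
      have hpi : (Real.pi : ℂ) ≠ 0 := by exact_mod_cast Real.pi_ne_zero
      simp [this, hpi]
    have e : ∀ u : ℝ, ee (m * u) = Complex.exp ((2 * Real.pi * I * (m : ℂ)) * u) := by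
      intro u
      rw [ee]
      congr 1
      ring
    simp only [e]
    rw [integral_exp_mul_complex hc]
    have e2 : Complex.exp ((2 * Real.pi * I * (m : ℂ)) * (1 : ℝ)) = 1 := by
      rw [Complex.exp_eq_one_iff]
      exact ⟨m, by push_cast; ring⟩
    rw [e2]
    simp

private lemma circ_L1 {S F : ℝ → ℂ} {f : ℤ → ℂ} (hF : Continuous F) (hf : Summable f)
    (hS : ∀ u : ℝ, HasSum (fun m : ℤ => f m * ee (m * u)) (S u)) :
    HasSum (fun m : ℤ => f m * ∫ u in Icc (0 : ℝ) 1, ee (m * u) * F u)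
      (∫ u in Icc (0 : ℝ) 1, S u * F u) := by
  have hFi : IntegrableOn (fun u => ‖F u‖) (Icc (0 : ℝ) 1) :=
    hF.norm.continuousOn.integrableOn_compact isCompact_Icc
  have h := hasSum_integral_of_summable_integral_norm
    (μ := volume.restrict (Icc (0 : ℝ) 1)) (F := fun (m : ℤ) (u : ℝ) => f m * (ee (m * u) * F u))
    (fun m => by
      refine Integrable.const_mul ?_ _
      exact ((circ_cont_ee m).mul hF).continuousOn.integrableOn_compact isCompact_Icc)
    (by
      have e : (fun m : ℤ => ∫ u in Icc (0 : ℝ) 1, ‖f m * (ee (m * u) * F u)‖) =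
          fun m : ℤ => ‖f m‖ * ∫ u in Icc (0 : ℝ) 1, ‖F u‖ := by
        funext m
        rw [← integral_const_mul]
        congr 1
        funext u
        rw [norm_mul, norm_mul, circ_norm_ee, one_mul]
      rw [e]
      exact hf.norm.mul_right _)
  have e1 : (fun m : ℤ => ∫ u in Icc (0 : ℝ) 1, f m * (ee (m * u) * F u)) =
      fun m : ℤ => f m * ∫ u in Icc (0 : ℝ) 1, ee (m * u) * F u := by
    funext m
    rw [integral_const_mul]
  have e2 : (fun u : ℝ => ∑' m : ℤ, f m * (ee (m * u) * F u)) = fun u : ℝ => S u * F u := by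
    funext u
    rw [← (hS u).tsum_eq, ← tsum_mul_right]
    congr 1
    funext m
    ring
  rw [e1, e2] at h
  exact h

private lemma circ_L2 {S : ℝ → ℂ} {f : ℤ → ℂ} (hf : Summable f)
    (hS : ∀ u : ℝ, HasSum (fun m : ℤ => f m * ee (m * u)) (S u)) (n : ℤ) :
    ∫ u in Icc (0 : ℝ) 1, ee (n * u) * S u = f (-n) := by
  have h := circ_L1 (F := fun u : ℝ => ee (n * u)) (circ_cont_ee n) hf hS
  have e : (fun m : ℤ => f m * ∫ u in Icc (0 : ℝ) 1, ee (m * u) * ee (n * u)) =
      fun m : ℤ => if m = -n then f (-n) else 0 := by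
    funext m
    simp only [circ_ee_add]
    rw [circ_int_ee]
    by_cases hm : m = -n
    · subst hm; simp
    · have : ¬ (m + n = 0) := fun h0 => hm (by omega)
      rw [if_neg this, if_neg hm, mul_zero]
  rw [e] at h
  have h2 := h.unique (hasSum_ite_eq (-n) (f (-n)))
  rw [← h2]
  congr 1
  funext u
  ring

theorem circ (A B C : ℝ → ℂ) (a b c : ℤ → ℂ) (ha : Summable a) (hb : Summable b)
    (hc : Summable c) (hA : ∀ u : ℝ, HasSum (fun m : ℤ => a m * ee (m * u)) (A u))
    (hB : ∀ u : ℝ, HasSum (fun m : ℤ => b m * ee (m * u)) (B u))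
    (hC : ∀ u : ℝ, HasSum (fun m : ℤ => c m * ee (m * u)) (C u)) :
    HasSum (fun m : ℤ => a m * b m * c (-m))
      (∫ u in Icc (0 : ℝ) 1, ∫ w in Icc (0 : ℝ) 1, A u * B w * C (u + w)) := by
  -- the inner integral
  set D : ℝ → ℂ := fun u => ∫ w in Icc (0 : ℝ) 1, B w * C (u + w) with hD
  have hCc : Continuous C := circ_cont hc hC
  have hinner : ∀ u : ℝ, HasSum (fun n : ℤ => (b n * c (-n)) * ee ((-n : ℤ) * u)) (D u) := by
    intro u
    have h1 := circ_L1 (F := fun w : ℝ => C (u + w)) (by fun_prop) hb hB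
    have h2 : ∀ n : ℤ, ∫ w in Icc (0 : ℝ) 1, ee (n * w) * C (u + w) =
        c (-n) * ee ((-n : ℤ) * u) := by
      intro n
      have hf : Summable fun k : ℤ => c k * ee (k * u) := (hC u).summable
      refine circ_L2 (S := fun w : ℝ => C (u + w)) (f := fun k : ℤ => c k * ee (k * u)) hf ?_ n
      intro w
      have h3 := hC (u + w)
      convert h3 using 1
      funext k
      rw [mul_assoc]
      congr 1
      rw [ee, ee, ee, ← Complex.exp_add]
      congr 1
      push_cast
      ring
    simp only [h2] at h1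
    convert h1 using 1
    funext n
    ring
  have hsum : Summable fun n : ℤ => b (-n) * c n := by
    have hK : ∀ n : ℤ, ‖c n‖ ≤ ∑' k : ℤ, ‖c k‖ := fun n =>
      hc.norm.le_tsum n (fun k _ => norm_nonneg _)
    have hb' : Summable fun n : ℤ => ‖b (-n)‖ * ∑' k : ℤ, ‖c k‖ :=
      (((Equiv.neg ℤ).summable_iff.mpr hb.norm)).mul_right _
    refine Summable.of_norm_bounded hb' ?_
    intro n
    rw [norm_mul]
    exact mul_le_mul_of_nonneg_left (hK n) (norm_nonneg _)
  have hD' : ∀ u : ℝ, HasSum (fun n : ℤ => (b (-n) * c n) * ee (n * u)) (D u) := by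
    intro u
    have h := (Equiv.neg ℤ).hasSum_iff.mpr (hinner u)
    convert h using 1
    funext n
    simp
  have hDc : Continuous D := circ_cont hsum hD'
  have h := circ_L1 hDc ha hA
  have h2 : ∀ m : ℤ, ∫ u in Icc (0 : ℝ) 1, ee (m * u) * D u = b m * c (-m) := by
    intro m
    have := circ_L2 hsum hD' m
    rw [this, neg_neg]
  simp only [h2] at h
  have e1 : (fun m : ℤ => a m * b m * c (-m)) = fun m : ℤ => a m * (b m * c (-m)) := by
    funext m; ring
  have e2 : (fun u : ℝ => ∫ w in Icc (0 : ℝ) 1, A u * B w * C (u + w)) =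
      fun u : ℝ => A u * D u := by
    funext u
    rw [hD, ← integral_const_mul]
    congr 1
    funext w
    ring
  rw [e1, e2]
  exact h

end Pool.Agent.Helper76.K3
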