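import Pool.Agent.Helper76.K3.Basic

/-!
# Module FF: the function `ff`
-/

noncomputable section

namespace Pool.Agent.Helper76.K3

open Complex MeasureTheory Set Filter Topology
open Pool.Agent.Helper21.Reg (IsElliptic ordAt intE Th ee Lat)
open Pool.Agent.Helper24.K1 (sq scale)
open scoped ComplexConjugate

private theorem ff_ee_half (z : ℂ) : ee (z + 1 / 2) = -ee z := by
  rw [Pool.Agent.Helper21.Reg.ee_add]
  have : ee (1 / 2) = -1 := by
    unfold ee
    rw [show 2 * (Real.pi : ℂ) * I * (1 / 2) = Real.pi * I by ring, Complex.exp_pi_mul_I]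
  rw [this]; ring

section
variable {τ : ℂ} (hτ : 0 < τ.im)
include hτ

theorem ff_add_one (z : ℂ) : ff τ (z + 1) = ff τ z := by
  unfold ff
  rw [show z + 1 + 1 / 2 = (z + 1 / 2) + 1 by ring, Pool.Agent.Helper21.Reg.Th_add_one,
    Pool.Agent.Helper21.Reg.Th_add_one]

theorem ff_add_tau (z : ℂ) : ff τ (z + τ) = ff τ z := by
  unfold ff
  rw [show z + τ + 1 / 2 = (z + 1 / 2) + τ by ring, Pool.Agent.Helper21.Reg.Th_add_tau hτ,
    Pool.Agent.Helper21.Reg.Th_add_tau hτ, ff_ee_half]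
  have h := Pool.Agent.Helper21.Reg.ee_ne_zero z
  by_cases h0 : Th τ z = 0
  · rw [h0]; simp
  · field_simp

theorem ff_neg (z : ℂ) : ff τ (-z) = ff τ z := by
  unfold ff
  have e1 : Th τ (-z + 1 / 2) = (ee z)⁻¹ * Th τ (z + 1 / 2) := by
    have h1 : Th τ (-z + 1 / 2) = Th τ (-(z + 1 / 2)) := by
      rw [show -z + 1 / 2 = -(z + 1 / 2) + 1 by ring, Pool.Agent.Helper21.Reg.Th_add_one]
    rw [h1, Pool.Agent.Helper21.Reg.Th_neg hτ, ff_ee_half]
    rw [inv_neg, neg_neg]
  rw [e1, Pool.Agent.Helper21.Reg.Th_neg hτ]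
  have h := Pool.Agent.Helper21.Reg.ee_ne_zero z
  by_cases h0 : Th τ z = 0
  · rw [h0]; simp
  · field_simp

/-- also at the zeros and poles, because of `x / 0 = 0` -/
theorem ff_half (z : ℂ) : ff τ (z + 1 / 2) = (ff τ z)⁻¹ := by
  unfold ff
  rw [show z + 1 / 2 + 1 / 2 = z + 1 by ring, Pool.Agent.Helper21.Reg.Th_add_one, inv_neg,
    ← inv_pow, inv_div]

private theorem ff_Th_half_an (z : ℂ) : AnalyticAt ℂ (fun z => Th τ (z + 1 / 2)) z := by
  have : Differentiable ℂ (fun z => Th τ (z + 1 / 2)) :=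
    (Pool.Agent.Helper21.Reg.Th_differentiable hτ).comp (differentiable_id.add_const _)
  exact this.analyticAt z

theorem ff_mero (z : ℂ) : MeromorphicAt (ff τ) z := by
  have h1 := (ff_Th_half_an hτ z).meromorphicAt
  have h2 := (Pool.Agent.Helper21.Reg.Th_analyticAt hτ z).meromorphicAt
  exact ((h1.div h2).pow 2).neg

open Classical in
private theorem ff_order (z : ℂ) : meromorphicOrderAt (ff τ) z =
    (2 : ℤ) * ((if Lat τ (z + 1 / 2) then (1 : ℤ) else 0) - (if Lat τ z then (1 : ℤ) else 0)) := by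
  have e0 : ff τ = -(((fun z => Th τ (z + 1 / 2)) / Th τ) ^ 2) := by
    funext z
    simp [ff]
  have h1 : meromorphicOrderAt (fun z => Th τ (z + 1 / 2)) z =
      ((if Lat τ (z + 1 / 2) then (1 : ℤ) else 0 : ℤ) : WithTop ℤ) := by
    have := Pool.Agent.Helper21.Reg.Th_sub_order hτ (-(1 / 2)) z
    simp only [sub_neg_eq_add] at this
    rw [this]
    split_ifs <;> rfl
  have h2 : meromorphicOrderAt (Th τ) z = ((if Lat τ z then (1 : ℤ) else 0 : ℤ) : WithTop ℤ) := by
    rw [Pool.Agent.Helper21.Reg.Th_order hτ]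
    split_ifs <;> rfl
  have m1 := (ff_Th_half_an hτ z).meromorphicAt
  have m2 := (Pool.Agent.Helper21.Reg.Th_analyticAt hτ z).meromorphicAt
  rw [e0, ← meromorphicOrderAt_neg, meromorphicOrderAt_pow (m1.div m2), meromorphicOrderAt_div m1 m2,
    h1, h2]
  rfl

theorem ff_order_ne_top (z : ℂ) : meromorphicOrderAt (ff τ) z ≠ ⊤ := by
  classical
  rw [ff_order hτ]
  exact WithTop.coe_ne_top

theorem ff_ordAt {c : ℂ} (h : ordAt (ff τ) c ≠ 0) : Lat τ c ∨ Lat τ (c + 1 / 2) := by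
  classical
  by_contra hcon
  push Not at hcon
  apply h
  unfold ordAt
  rw [ff_order hτ, if_neg hcon.1, if_neg hcon.2]
  rfl

theorem ff_ne_zero {z : ℂ} (h1 : ¬ Lat τ z) (h2 : ¬ Lat τ (z + 1 / 2)) : ff τ z ≠ 0 := by
  rw [← Pool.Agent.Helper21.Reg.Th_eq_zero_iff hτ] at h1 h2
  unfold ff
  exact neg_ne_zero.2 (pow_ne_zero _ (div_ne_zero h2 h1))

theorem ff_analyticAt {z : ℂ} (h1 : ¬ Lat τ z) : AnalyticAt ℂ (ff τ) z := by
  rw [← Pool.Agent.Helper21.Reg.Th_eq_zero_iff hτ] at h1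
  exact (((ff_Th_half_an hτ z).div (Pool.Agent.Helper21.Reg.Th_analyticAt hτ z) h1).pow 2).neg

theorem ff_measurable : Measurable (ff τ) := by
  have h := (Pool.Agent.Helper21.Reg.Th_differentiable hτ).continuous
  have h1 : Measurable (Th τ) := h.measurable
  have h2 : Measurable (fun z => Th τ (z + 1 / 2)) :=
    (h.comp (continuous_id.add continuous_const)).measurable
  exact ((h2.div h1).pow_const 2).neg

theorem phi_measurable : Measurable (phi τ) :=
  (measurable_deriv (ff τ)).div (ff_measurable hτ)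

theorem lam_measurable : Measurable (lam τ) :=
  Complex.measurable_ofReal.comp (Real.measurable_log.comp (ff_measurable hτ).norm)

end

end Pool.Agent.Helper76.K3
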