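import Pool.Agent.Helper76.K3.Basic

/-!
# MAJ: the majorant is integrable
-/

noncomputable section

namespace Pool.Agent.Helper76.K3

open Complex MeasureTheory Set Filter Topology
open Pool.Agent.Helper24.K1 (sq)

/-- `|sin π t| ^ (-3/4)` is integrable on `[0,1]` -/
private lemma maj_one : IntervalIntegrable
    (fun t : ℝ => |Real.sin (Real.pi * t)| ^ (-(3 / 4) : ℝ)) volume 0 1 := by
  have h1 : IntervalIntegrable (fun t : ℝ => t ^ (-(3 / 4) : ℝ)) volume 0 1 :=
    intervalIntegral.intervalIntegrable_rpow' (by norm_num)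
  have h2 : IntervalIntegrable (fun t : ℝ => (1 - t) ^ (-(3 / 4) : ℝ)) volume 0 1 := by
    have := h1.comp_sub_left 1
    simpa using this.symm
  have h3 := h1.add h2
  refine h3.mono_fun' ?_ ?_
  · exact (by fun_prop : Measurable
      (fun t : ℝ => |Real.sin (Real.pi * t)| ^ (-(3 / 4) : ℝ))).aestronglyMeasurable
  · rw [uIoc_of_le zero_le_one]
    refine (ae_restrict_iff' measurableSet_Ioc).2 ?_
    have hne : ∀ᵐ t : ℝ, t ≠ 1 := by
      simp [ae_iff]
    filter_upwards [hne] with t ht1 ht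
    obtain ⟨h4, h5⟩ := ht
    have h6 : t < 1 := lt_of_le_of_ne h5 ht1
    rw [Real.norm_of_nonneg (by positivity)]
    show |Real.sin (Real.pi * t)| ^ (-(3 / 4) : ℝ) ≤ t ^ (-(3 / 4) : ℝ) + (1 - t) ^ (-(3 / 4) : ℝ)
    have hpi := Real.pi_pos
    have k1 : 0 ≤ t ^ (-(3 / 4) : ℝ) := by positivity
    have k2 : 0 ≤ (1 - t) ^ (-(3 / 4) : ℝ) := Real.rpow_nonneg (by linarith) _
    rcases le_total t (1 / 2) with h | h
    · have h7 : t ≤ |Real.sin (Real.pi * t)| := by
        refine le_trans ?_ (le_abs_self _)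
        have := Real.mul_le_sin (x := Real.pi * t) (by positivity) (by nlinarith)
        have e : 2 / Real.pi * (Real.pi * t) = 2 * t := by field_simp
        rw [e] at this
        linarith
      have := Real.rpow_le_rpow_of_nonpos h4 h7 (show (-(3 / 4) : ℝ) ≤ 0 by norm_num)
      linarith
    · have h7 : 1 - t ≤ |Real.sin (Real.pi * t)| := by
        refine le_trans ?_ (le_abs_self _)
        have e0 : Real.sin (Real.pi * t) = Real.sin (Real.pi * (1 - t)) := by
          rw [mul_sub, mul_one, Real.sin_pi_sub]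
        rw [e0]
        have := Real.mul_le_sin (x := Real.pi * (1 - t)) (by nlinarith) (by nlinarith)
        have e : 2 / Real.pi * (Real.pi * (1 - t)) = 2 * (1 - t) := by field_simp
        rw [e] at this
        linarith
      have := Real.rpow_le_rpow_of_nonpos (show (0 : ℝ) < 1 - t by linarith) h7
        (show (-(3 / 4) : ℝ) ≤ 0 by norm_num)
      linarith

private lemma maj_periodic (a : ℕ) (c : ℝ) :
    Function.Periodic (fun t : ℝ => |Real.sin (a * Real.pi * t)| ^ c) 1 := by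
  intro t
  have h : Real.sin (a * Real.pi * (t + 1)) = (-1) ^ a * Real.sin (a * Real.pi * t) := by
    rw [mul_add, mul_one, Real.sin_add_nat_mul_pi]
  simp only [h, abs_mul, abs_pow, abs_neg, abs_one, one_pow, one_mul]

private lemma maj_int (a : ℕ) (ha : a = 1 ∨ a = 2) (s t : ℝ) : IntervalIntegrable
    (fun t : ℝ => |Real.sin (a * Real.pi * t)| ^ (-(3 / 4) : ℝ)) volume s t := by
  have h1 : ∀ s t : ℝ, IntervalIntegrable
      (fun t : ℝ => |Real.sin (Real.pi * t)| ^ (-(3 / 4) : ℝ)) volume s t := by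
    intro s t
    have := maj_periodic 1 (-(3 / 4))
    simp only [Nat.cast_one, one_mul] at this
    exact this.intervalIntegrable₀ one_ne_zero maj_one s t
  rcases ha with rfl | rfl
  · simpa using h1 s t
  · have h2 := (h1 (2 * s) (2 * t)).comp_mul_left (c := 2)
    have e1 : 2 * s / 2 = s := by ring
    have e2 : 2 * t / 2 = t := by ring
    rw [e1, e2] at h2
    refine h2.congr ?_
    intro x _
    show |Real.sin (Real.pi * (2 * x))| ^ (-(3 / 4) : ℝ)
      = |Real.sin (((2 : ℕ) : ℝ) * Real.pi * x)| ^ (-(3 / 4) : ℝ)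
    congr 3
    push_cast
    ring

/-- the one dimensional factor -/
private def ms (a : ℕ) (t : ℝ) : ℝ := |Real.sin (a * Real.pi * t)| ^ (-(1 / 2) : ℝ)
private def mg (a : ℕ) (t : ℝ) : ℝ := |Real.sin (a * Real.pi * t)| ^ (-(3 / 4) : ℝ)

private lemma ms_meas (a : ℕ) : Measurable (ms a) := by unfold ms; fun_prop
private lemma mg_meas (a : ℕ) : Measurable (mg a) := by unfold mg; fun_prop
private lemma ms_nonneg (a : ℕ) (t : ℝ) : 0 ≤ ms a t := by unfold ms; positivity
private lemma mg_nonneg (a : ℕ) (t : ℝ) : 0 ≤ mg a t := by unfold mg; positivity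

private lemma cube_ineq {A B C : ℝ} (hA : 0 ≤ A) (hB : 0 ≤ B) (hC : 0 ≤ C) :
    A ^ 2 * B ^ 2 * C ^ 2 ≤ A ^ 3 * B ^ 3 + B ^ 3 * C ^ 3 + A ^ 3 * C ^ 3 := by
  have hAB : 0 ≤ A * B := mul_nonneg hA hB
  have hBC : 0 ≤ B * C := mul_nonneg hB hC
  have hAC : 0 ≤ A * C := mul_nonneg hA hC
  have p1 : 0 ≤ A ^ 3 * B ^ 3 := by positivity
  have p2 : 0 ≤ B ^ 3 * C ^ 3 := by positivity
  have p3 : 0 ≤ A ^ 3 * C ^ 3 := by positivity
  have key : ∀ x y z : ℝ, 0 ≤ x → 0 ≤ y → 0 ≤ z → z ≤ x → z ≤ y →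
      x ^ 2 * y ^ 2 * z ^ 2 ≤ x ^ 3 * y ^ 3 := by
    intro x y z hx hy hz h1 h2
    have h3 : z ^ 2 ≤ x * y := by nlinarith
    have h4 : 0 ≤ x ^ 2 * y ^ 2 := by positivity
    nlinarith [mul_le_mul_of_nonneg_left h3 h4]
  rcases le_total A B with h1 | h1
  · rcases le_total A C with h2 | h2
    · have := key B C A hB hC hA h1 h2
      nlinarith
    · have := key A B C hA hB hC h2 (h2.trans h1)
      nlinarith
  · rcases le_total B C with h2 | h2
    · have := key A C B hA hC hB h1 h2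
      nlinarith
    · have := key A B C hA hB hC (h2.trans h1) h2
      nlinarith

private lemma three_ineq (a : ℕ) (u v w : ℝ) :
    ms a u * ms a v * ms a w ≤ mg a u * mg a v + mg a v * mg a w + mg a u * mg a w := by
  have e1 : ∀ t, ms a t = (|Real.sin (a * Real.pi * t)| ^ (-(1 / 4) : ℝ)) ^ 2 := by
    intro t
    unfold ms
    rw [← Real.rpow_natCast, ← Real.rpow_mul (abs_nonneg _)]
    norm_num
  have e2 : ∀ t, mg a t = (|Real.sin (a * Real.pi * t)| ^ (-(1 / 4) : ℝ)) ^ 3 := by
    intro t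
    unfold mg
    rw [← Real.rpow_natCast, ← Real.rpow_mul (abs_nonneg _)]
    norm_num
  rw [e1, e1, e1, e2, e2, e2]
  exact cube_ineq (by positivity) (by positivity) (by positivity)

private abbrev m01 : Measure ℝ := volume.restrict (Icc (0 : ℝ) 1)

private lemma mg_int (a : ℕ) (ha : a = 1 ∨ a = 2) (u : ℝ) :
    Integrable (fun v => mg a (u + v)) m01 := by
  have h1 := (maj_int a ha (0 + u) (1 + u)).comp_add_right u
  have h2 := (intervalIntegrable_iff_integrableOn_Icc_of_le zero_le_one).1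
    (show IntervalIntegrable (fun v => mg a (u + v)) volume 0 1 by
      have e1 : (0 + u) - u = 0 := by ring
      have e2 : (1 + u) - u = 1 := by ring
      rw [e1, e2] at h1
      refine h1.congr ?_
      intro x _
      show |Real.sin (a * Real.pi * (x + u))| ^ (-(3 / 4) : ℝ) = mg a (u + x)
      rw [mg, add_comm])
  exact h2

private lemma mg_integral (a : ℕ) (u : ℝ) :
    ∫ v, mg a (u + v) ∂m01 = ∫ v, mg a v ∂m01 := by
  rw [integral_Icc_eq_integral_Ioc, integral_Icc_eq_integral_Ioc,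
    ← intervalIntegral.integral_of_le zero_le_one, ← intervalIntegral.integral_of_le zero_le_one]
  rw [intervalIntegral.integral_comp_add_left (fun t => mg a t) u]
  have h := (maj_periodic a (-(3 / 4))).intervalIntegral_add_eq u 0
  rw [zero_add] at h
  rw [add_zero]
  exact h

private lemma mg_int0 (a : ℕ) (ha : a = 1 ∨ a = 2) : Integrable (fun v => mg a v) m01 := by
  have := mg_int a ha 0
  simpa using this

private lemma prod_int (a : ℕ) (ha : a = 1 ∨ a = 2) :
    Integrable (fun x : ℝ × ℝ => mg a x.1 * mg a (x.1 + x.2)) (m01.prod m01) := by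
  have hm : Measurable (fun x : ℝ × ℝ => mg a x.1 * mg a (x.1 + x.2)) :=
    ((mg_meas a).comp measurable_fst).mul ((mg_meas a).comp (measurable_fst.add measurable_snd))
  rw [integrable_prod_iff hm.aestronglyMeasurable]
  refine ⟨Eventually.of_forall (fun u => (mg_int a ha u).const_mul (mg a u)), ?_⟩
  have : (fun u => ∫ v, ‖mg a u * mg a (u + v)‖ ∂m01)
      = fun u => mg a u * ∫ v, mg a v ∂m01 := by
    funext u
    rw [← mg_integral a u, ← integral_const_mul]
    congr 1
    funext v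
    rw [Real.norm_of_nonneg (mul_nonneg (mg_nonneg _ _) (mg_nonneg _ _))]
  show Integrable (fun u => ∫ v, ‖mg a u * mg a (u + v)‖ ∂m01) m01
  rw [this]
  exact (mg_int0 a ha).mul_const _

private lemma tri_int (a : ℕ) (ha : a = 1 ∨ a = 2) :
    Integrable (fun x : ℝ × ℝ => ms a x.1 * ms a x.2 * ms a (x.1 + x.2)) (m01.prod m01) := by
  have hm : Measurable (fun x : ℝ × ℝ => ms a x.1 * ms a x.2 * ms a (x.1 + x.2)) :=
    (((ms_meas a).comp measurable_fst).mul ((ms_meas a).comp measurable_snd)).mul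
      ((ms_meas a).comp (measurable_fst.add measurable_snd))
  have h1 : Integrable (fun x : ℝ × ℝ => mg a x.1 * mg a x.2) (m01.prod m01) :=
    (mg_int0 a ha).mul_prod (mg_int0 a ha)
  have h2 := prod_int a ha
  have h3 : Integrable (fun x : ℝ × ℝ => mg a x.2 * mg a (x.1 + x.2)) (m01.prod m01) := by
    have := h2.swap
    refine this.congr (Eventually.of_forall (fun x => ?_))
    show mg a x.2 * mg a (x.2 + x.1) = mg a x.2 * mg a (x.1 + x.2)
    rw [add_comm]
  refine ((h1.add h3).add h2).mono' hm.aestronglyMeasurable (Eventually.of_forall (fun x => ?_))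
  rw [Real.norm_of_nonneg (mul_nonneg (mul_nonneg (ms_nonneg _ _) (ms_nonneg _ _))
    (ms_nonneg _ _))]
  exact three_ineq a x.1 x.2 (x.1 + x.2)

private lemma restrict_eq : (volume : Measure ((ℝ × ℝ) × (ℝ × ℝ))).restrict (sq ×ˢ sq)
    = (m01.prod m01).prod (m01.prod m01) := by
  rw [Measure.volume_eq_prod, Measure.volume_eq_prod, ← Measure.prod_restrict]
  simp only [Pool.Agent.Helper24.K1.sq]
  rw [← Measure.prod_restrict]

private lemma hh_eq (p : ℝ × ℝ) : hh p = ms 2 p.1 * ms 1 p.2 := by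
  unfold hh ms
  norm_num

theorem maj_integrable : IntegrableOn
    (fun x : (ℝ × ℝ) × (ℝ × ℝ) => hh x.1 * hh x.2 * hh (x.1 + x.2)) (sq ×ˢ sq) := by
  rw [IntegrableOn, restrict_eq]
  have hms : ∀ a, Measurable (ms a) := ms_meas
  have hm : Measurable (fun x : (ℝ × ℝ) × (ℝ × ℝ) => hh x.1 * hh x.2 * hh (x.1 + x.2)) := by
    have hhm : Measurable hh := by
      have : hh = fun p : ℝ × ℝ => ms 2 p.1 * ms 1 p.2 := funext hh_eq
      rw [this]
      exact ((hms 2).comp measurable_fst).mul ((hms 1).comp measurable_snd)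
    exact ((hhm.comp measurable_fst).mul (hhm.comp measurable_snd)).mul
      (hhm.comp (measurable_fst.add measurable_snd))
  rw [integrable_prod_iff hm.aestronglyMeasurable]
  have hmt : ∀ a, Measurable (fun x : ℝ × ℝ => ms a x.1 * ms a x.2 * ms a (x.1 + x.2)) :=
    fun a => (((ms_meas a).comp measurable_fst).mul ((ms_meas a).comp measurable_snd)).mul
      ((ms_meas a).comp (measurable_fst.add measurable_snd))
  have t1 := (integrable_prod_iff (hmt 1).aestronglyMeasurable).1 (tri_int 1 (Or.inl rfl))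
  have t2 := (integrable_prod_iff (hmt 2).aestronglyMeasurable).1 (tri_int 2 (Or.inr rfl))
  have hform : ∀ x y : ℝ × ℝ, hh x * hh y * hh (x + y)
      = (ms 2 x.1 * ms 2 y.1 * ms 2 (x.1 + y.1)) * (ms 1 x.2 * ms 1 y.2 * ms 1 (x.2 + y.2)) := by
    intro x y
    rw [hh_eq, hh_eq, hh_eq, Prod.fst_add, Prod.snd_add]
    ring
  constructor
  · have a1 : ∀ᵐ x : ℝ × ℝ ∂(m01.prod m01),
        Integrable (fun y => ms 2 x.1 * ms 2 y * ms 2 (x.1 + y)) m01 :=
      Measure.quasiMeasurePreserving_fst.ae t2.1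
    have a2 : ∀ᵐ x : ℝ × ℝ ∂(m01.prod m01),
        Integrable (fun y => ms 1 x.2 * ms 1 y * ms 1 (x.2 + y)) m01 :=
      Measure.quasiMeasurePreserving_snd.ae t1.1
    filter_upwards [a1, a2] with x h1 h2
    have := h1.mul_prod h2
    refine this.congr (Eventually.of_forall (fun y => ?_))
    exact (hform x y).symm
  · have := t2.2.mul_prod t1.2
    refine this.congr (Eventually.of_forall (fun x => ?_))
    show (∫ y, ‖ms 2 x.1 * ms 2 y * ms 2 (x.1 + y)‖ ∂m01)
      * (∫ y, ‖ms 1 x.2 * ms 1 y * ms 1 (x.2 + y)‖ ∂m01)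
      = ∫ y, ‖hh x * hh y * hh (x + y)‖ ∂(m01.prod m01)
    rw [← integral_prod_mul]
    congr 1
    funext y
    rw [hform, ← norm_mul]

end Pool.Agent.Helper76.K3
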