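import Pool.Agent.Helper76.K3.Basic
import Pool.Agent.Helper76.K3.FF
import Pool.Agent.Helper76.K3.Bnd
import Pool.Agent.Helper76.K3.Maj

/-! Continuity of the averages at `τ = i`. -/

noncomputable section

namespace Pool.Agent.Helper76.K3

open Complex MeasureTheory Set Filter Topology
open Pool.Agent.Helper21.Reg (IsElliptic ordAt intE Th ee Lat)
open Pool.Agent.Helper24.K1 (sq scale)
open scoped ComplexConjugate

/-- the domain of integration -/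
private abbrev cS : Set ((ℝ × ℝ) × (ℝ × ℝ)) := sq ×ˢ sq

/-- points where the sines do not vanish -/
private def ContGood (p : ℝ × ℝ) : Prop :=
  Real.sin (2 * Real.pi * p.1) ≠ 0 ∧ Real.sin (Real.pi * p.2) ≠ 0

private lemma cont_null {c : ℝ} (hc : c ≠ 0) : ∀ᵐ t : ℝ, Real.sin (c * t) ≠ 0 := by
  have h : {t : ℝ | ¬ Real.sin (c * t) ≠ 0} ⊆ Set.range fun n : ℤ => (n : ℝ) * Real.pi / c := by
    intro t ht
    simp only [ne_eq, not_not, mem_ofPred_eq] at ht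
    obtain ⟨n, hn⟩ := Real.sin_eq_zero_iff.1 ht
    refine ⟨n, ?_⟩
    show (n : ℝ) * Real.pi / c = t
    rw [hn]; field_simp
  exact ((Set.countable_range _).mono h).measure_zero _

private lemma cont_good : ∀ᵐ p : ℝ × ℝ, ContGood p := by
  have h1 : ∀ᵐ p : ℝ × ℝ, Real.sin (2 * Real.pi * p.1) ≠ 0 :=
    Measure.quasiMeasurePreserving_fst.ae (cont_null (by positivity))
  have h2 : ∀ᵐ p : ℝ × ℝ, Real.sin (Real.pi * p.2) ≠ 0 :=
    Measure.quasiMeasurePreserving_snd.ae (cont_null (by positivity))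
  filter_upwards [h1, h2] with p a b using ⟨a, b⟩

private lemma cont_good3 : ∀ᵐ x : (ℝ × ℝ) × (ℝ × ℝ),
    ContGood x.1 ∧ ContGood x.2 ∧ ContGood (x.1 + x.2) := by
  have h1 : ∀ᵐ x : (ℝ × ℝ) × (ℝ × ℝ), ContGood x.1 :=
    Measure.quasiMeasurePreserving_fst.ae cont_good
  have h2 : ∀ᵐ x : (ℝ × ℝ) × (ℝ × ℝ), ContGood x.2 :=
    Measure.quasiMeasurePreserving_snd.ae cont_good
  have h3 : Measure.QuasiMeasurePreserving (fun x : (ℝ × ℝ) × (ℝ × ℝ) => x.1 + x.2) volume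
      volume :=
    Measure.quasiMeasurePreserving_snd.comp
      (measurePreserving_prod_add (volume : Measure (ℝ × ℝ)) volume).quasiMeasurePreserving
  have h4 : ∀ᵐ x : (ℝ × ℝ) × (ℝ × ℝ), ContGood (x.1 + x.2) := h3.ae cont_good
  filter_upwards [h1, h2, h4] with x a b c using ⟨a, b, c⟩

private lemma cont_zt_add (τ : ℂ) (p q : ℝ × ℝ) : zt τ p + zt τ q = zt τ (p + q) := by
  simp only [zt, Prod.fst_add, Prod.snd_add, ofReal_add]; ring

private lemma cont_zt_meas (τ : ℂ) : Measurable (zt τ) := by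
  unfold zt; fun_prop

private def ContAdm (A : ℂ → ℂ → ℂ) : Prop := A = phi ∨ A = phc ∨ A = lam

private lemma cont_meas {A : ℂ → ℂ → ℂ} (hA : ContAdm A) {τ : ℂ} (hτ : 0 < τ.im) :
    Measurable (A τ) := by
  rcases hA with rfl | rfl | rfl
  · exact phi_measurable hτ
  · exact continuous_conj.measurable.comp (phi_measurable hτ)
  · exact lam_measurable hτ

private lemma cont_bound {A : ℂ → ℂ → ℂ} (hA : ContAdm A) {τ : ℂ} {C : ℝ}
    {p : ℝ × ℝ} (h : ‖phi τ (zt τ p)‖ ≤ C * hh p ∧ ‖lam τ (zt τ p)‖ ≤ C * hh p) :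
    ‖A τ (zt τ p)‖ ≤ C * hh p := by
  rcases hA with rfl | rfl | rfl
  · exact h.1
  · rw [phc, RCLike.norm_conj]; exact h.1
  · exact h.2

private lemma cont_lim {A : ℂ → ℂ → ℂ} (hA : ContAdm A) {t : ℕ → ℂ}
    (ht : Tendsto t atTop (𝓝 I)) (p : ℝ × ℝ) (hp : Real.sin (Real.pi * p.2) ≠ 0) :
    Tendsto (fun n => A (t n) (zt (t n) p)) atTop (𝓝 (A I (zt I p))) := by
  rcases hA with rfl | rfl | rfl
  · exact phi_tendsto ht p hp
  · exact (continuous_conj.tendsto _).comp (phi_tendsto ht p hp)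
  · exact lam_tendsto ht p hp

private lemma cont_aemeas {A B C : ℂ → ℂ → ℂ} (hA : ContAdm A) (hB : ContAdm B) (hC : ContAdm C)
    {τ : ℂ} (hτ : 0 < τ.im) : Measurable (fun x : (ℝ × ℝ) × (ℝ × ℝ) =>
      A τ (zt τ x.1) * B τ (zt τ x.2) * C τ (zt τ x.1 + zt τ x.2)) := by
  have h1 : Measurable fun x : (ℝ × ℝ) × (ℝ × ℝ) => zt τ x.1 :=
    (cont_zt_meas τ).comp measurable_fst
  have h2 : Measurable fun x : (ℝ × ℝ) × (ℝ × ℝ) => zt τ x.2 :=
    (cont_zt_meas τ).comp measurable_snd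
  exact (((cont_meas hA hτ).comp h1).mul ((cont_meas hB hτ).comp h2)).mul
    ((cont_meas hC hτ).comp (h1.add h2))

private lemma cont_hh (p : ℝ × ℝ) : 0 ≤ hh p := by unfold hh; positivity

private lemma cont_le {A B C : ℂ → ℂ → ℂ} (hA : ContAdm A) (hB : ContAdm B) (hC : ContAdm C)
    {K : ℝ} (hK : 0 < K) (hb : ∀ τ : ℂ, |τ.re| ≤ 1 → 1 / 2 ≤ τ.im → τ.im ≤ 2 → ∀ p : ℝ × ℝ,
      Real.sin (2 * Real.pi * p.1) ≠ 0 → Real.sin (Real.pi * p.2) ≠ 0 →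
      ‖phi τ (zt τ p)‖ ≤ K * hh p ∧ ‖lam τ (zt τ p)‖ ≤ K * hh p)
    {τ : ℂ} (h1 : |τ.re| ≤ 1) (h2 : 1 / 2 ≤ τ.im) (h3 : τ.im ≤ 2) (x : (ℝ × ℝ) × (ℝ × ℝ))
    (hx : ContGood x.1 ∧ ContGood x.2 ∧ ContGood (x.1 + x.2)) :
    ‖A τ (zt τ x.1) * B τ (zt τ x.2) * C τ (zt τ x.1 + zt τ x.2)‖
      ≤ K ^ 3 * (hh x.1 * hh x.2 * hh (x.1 + x.2)) := by
  obtain ⟨ha, hb', hc⟩ := hx
  have e1 := cont_bound hA (hb τ h1 h2 h3 x.1 ha.1 ha.2)
  have e2 := cont_bound hB (hb τ h1 h2 h3 x.2 hb'.1 hb'.2)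
  have e3 := cont_bound hC (hb τ h1 h2 h3 (x.1 + x.2) hc.1 hc.2)
  rw [cont_zt_add, norm_mul, norm_mul]
  have p1 := cont_hh x.1
  have p2 := cont_hh x.2
  have p3 := cont_hh (x.1 + x.2)
  calc ‖A τ (zt τ x.1)‖ * ‖B τ (zt τ x.2)‖ * ‖C τ (zt τ (x.1 + x.2))‖
      ≤ (K * hh x.1) * (K * hh x.2) * (K * hh (x.1 + x.2)) :=
        mul_le_mul (mul_le_mul e1 e2 (norm_nonneg _) (by positivity)) e3 (norm_nonneg _)
          (by positivity)
    _ = K ^ 3 * (hh x.1 * hh x.2 * hh (x.1 + x.2)) := by ring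

private lemma cont_int {A B C : ℂ → ℂ → ℂ} (hA : ContAdm A) (hB : ContAdm B) (hC : ContAdm C)
    {τ : ℂ} (h1 : |τ.re| ≤ 1) (h2 : 1 / 2 ≤ τ.im) (h3 : τ.im ≤ 2) :
    IntegrableOn (fun x : (ℝ × ℝ) × (ℝ × ℝ) =>
      A τ (zt τ x.1) * B τ (zt τ x.2) * C τ (zt τ x.1 + zt τ x.2)) (sq ×ˢ sq) := by
  obtain ⟨K, hK, hb⟩ := bounds
  have hτ : 0 < τ.im := by linarith
  refine Integrable.mono' (maj_integrable.const_mul (K ^ 3))
    (cont_aemeas hA hB hC hτ).aestronglyMeasurable ?_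
  refine ae_restrict_of_ae ?_
  filter_upwards [cont_good3] with x hx using cont_le hA hB hC hK hb h1 h2 h3 x hx

private lemma cont_ev {t : ℕ → ℂ} (ht : Tendsto t atTop (𝓝 I)) :
    ∀ᶠ n in atTop, |(t n).re| ≤ 1 ∧ 1 / 2 ≤ (t n).im ∧ (t n).im ≤ 2 := by
  have h1 : Tendsto (fun n => |(t n).re|) atTop (𝓝 |I.re|) :=
    ((continuous_re.tendsto _).comp ht).abs
  have h2 : Tendsto (fun n => (t n).im) atTop (𝓝 I.im) := (continuous_im.tendsto _).comp ht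
  rw [I_re, abs_zero] at h1
  rw [I_im] at h2
  filter_upwards [h1.eventually (eventually_le_nhds (show (0 : ℝ) < 1 by norm_num)),
    h2.eventually (eventually_ge_nhds (show (1 / 2 : ℝ) < 1 by norm_num)),
    h2.eventually (eventually_le_nhds (show (1 : ℝ) < 2 by norm_num))] with n a b c
  exact ⟨a, b, c⟩

private lemma cont_tri {A B C : ℂ → ℂ → ℂ} (hA : ContAdm A) (hB : ContAdm B) (hC : ContAdm C)
    {t : ℕ → ℂ} (ht : Tendsto t atTop (𝓝 I)) :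
    Tendsto (fun n => ∫ x in cS, A (t n) (zt (t n) x.1) * B (t n) (zt (t n) x.2) *
      C (t n) (zt (t n) x.1 + zt (t n) x.2)) atTop
      (𝓝 (∫ x in cS, A I (zt I x.1) * B I (zt I x.2) * C I (zt I x.1 + zt I x.2))) := by
  obtain ⟨K, hK, hb⟩ := bounds
  refine tendsto_integral_filter_of_dominated_convergence
    (fun x : (ℝ × ℝ) × (ℝ × ℝ) => K ^ 3 * (hh x.1 * hh x.2 * hh (x.1 + x.2))) ?_ ?_
    (maj_integrable.const_mul (K ^ 3)) ?_
  · filter_upwards [cont_ev ht] with n hn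
    exact (cont_aemeas hA hB hC (by linarith [hn.2.1])).aestronglyMeasurable
  · filter_upwards [cont_ev ht] with n hn
    refine ae_restrict_of_ae ?_
    filter_upwards [cont_good3] with x hx using
      cont_le hA hB hC hK hb hn.1 hn.2.1 hn.2.2 x hx
  · refine ae_restrict_of_ae ?_
    filter_upwards [cont_good3] with x hx
    have e3 : ∀ τ, zt τ x.1 + zt τ x.2 = zt τ (x.1 + x.2) := fun τ => cont_zt_add τ _ _
    simp only [e3]
    exact ((cont_lim hA ht x.1 hx.1.2).mul (cont_lim hB ht x.2 hx.2.1.2)).mul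
      (cont_lim hC ht (x.1 + x.2) hx.2.2.2)

/-- integrability of the trilinear expressions -/
theorem tri_integrable {τ : ℂ} (h1 : |τ.re| ≤ 1) (h2 : 1 / 2 ≤ τ.im) (h3 : τ.im ≤ 2)
    (A B C : ℂ → ℂ)
    (hA : A = phi τ ∨ A = phc τ ∨ A = lam τ) (hB : B = phi τ ∨ B = phc τ ∨ B = lam τ)
    (hC : C = phi τ ∨ C = phc τ ∨ C = lam τ) :
    IntegrableOn (fun x : (ℝ × ℝ) × (ℝ × ℝ) =>
      A (zt τ x.1) * B (zt τ x.2) * C (zt τ x.1 + zt τ x.2)) (sq ×ˢ sq) := by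
  have key : ∀ {A : ℂ → ℂ}, (A = phi τ ∨ A = phc τ ∨ A = lam τ) →
      ∃ A' : ℂ → ℂ → ℂ, ContAdm A' ∧ A = A' τ := by
    rintro A (h | h | h)
    exacts [⟨phi, Or.inl rfl, h⟩, ⟨phc, Or.inr (Or.inl rfl), h⟩, ⟨lam, Or.inr (Or.inr rfl), h⟩]
  obtain ⟨A', hA', rfl⟩ := key hA
  obtain ⟨B', hB', rfl⟩ := key hB
  obtain ⟨C', hC', rfl⟩ := key hC
  exact cont_int hA' hB' hC' h1 h2 h3

private lemma adm_phi : ContAdm phi := Or.inl rfl
private lemma adm_phc : ContAdm phc := Or.inr (Or.inl rfl)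
private lemma adm_lam : ContAdm lam := Or.inr (Or.inr rfl)

private lemma cont_sub3 {X : Type*} [MeasurableSpace X] {m : Measure X} (c : ℂ) {f g h : X → ℂ}
    (hf : Integrable f m) (hg : Integrable g m) (hh : Integrable h m) :
    ∫ x, c * (f x - g x - h x) ∂m = c * (∫ x, f x ∂m - ∫ x, g x ∂m - ∫ x, h x ∂m) := by
  have h1 : ∫ x, (f x - g x - h x) ∂m = ∫ x, (f x - g x) ∂m - ∫ x, h x ∂m :=
    integral_sub (hf.sub hg) hh
  rw [integral_const_mul, h1, integral_sub hf hg]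

private def CT (A B C : ℂ → ℂ → ℂ) (τ : ℂ) : ℂ :=
  ∫ x in cS, A τ (zt τ x.1) * B τ (zt τ x.2) * C τ (zt τ x.1 + zt τ x.2)

private lemma cont_PP {τ : ℂ} (h1 : |τ.re| ≤ 1) (h2 : 1 / 2 ≤ τ.im) (h3 : τ.im ≤ 2) :
    PP τ = 1 / 3 * (CT phi phi lam τ - CT lam phi phi τ - CT phi lam phi τ) := by
  have i1 := cont_int adm_phi adm_phi adm_lam h1 h2 h3
  have i2 := cont_int adm_lam adm_phi adm_phi h1 h2 h3
  have i3 := cont_int adm_phi adm_lam adm_phi h1 h2 h3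
  have hint : IntegrableOn (fun x : (ℝ × ℝ) × (ℝ × ℝ) => ip τ (zt τ x.1) (zt τ x.2))
      (sq ×ˢ sq) (volume.prod volume) := ((i1.sub i2).sub i3).const_mul (1 / 3)
  have e1 : PP τ = ∫ x in cS, ip τ (zt τ x.1) (zt τ x.2) := by
    rw [PP]
    exact (setIntegral_prod _ hint).symm
  rw [e1]
  exact cont_sub3 (1 / 3) i1 i2 i3

private lemma cont_QQ {τ : ℂ} (h1 : |τ.re| ≤ 1) (h2 : 1 / 2 ≤ τ.im) (h3 : τ.im ≤ 2) :
    QQ τ = -(1 / 6) * (CT phi phc lam τ - CT lam phc phi τ - CT phi lam phc τ) := by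
  have i1 := cont_int adm_phi adm_phc adm_lam h1 h2 h3
  have i2 := cont_int adm_lam adm_phc adm_phi h1 h2 h3
  have i3 := cont_int adm_phi adm_lam adm_phc h1 h2 h3
  have hint : IntegrableOn (fun x : (ℝ × ℝ) × (ℝ × ℝ) => iq τ (zt τ x.1) (zt τ x.2))
      (sq ×ˢ sq) (volume.prod volume) := ((i1.sub i2).sub i3).const_mul (-(1 / 6))
  have e1 : QQ τ = ∫ x in cS, iq τ (zt τ x.1) (zt τ x.2) := by
    rw [QQ]
    exact (setIntegral_prod _ hint).symm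
  rw [e1]
  exact cont_sub3 (-(1 / 6)) i1 i2 i3

theorem PP_tendsto {t : ℕ → ℂ} (ht : Tendsto t atTop (𝓝 I)) :
    Tendsto (fun n => PP (t n)) atTop (𝓝 (PP I)) := by
  have hI : |I.re| ≤ 1 ∧ 1 / 2 ≤ I.im ∧ I.im ≤ 2 := by
    rw [I_re, I_im]; norm_num
  rw [cont_PP hI.1 hI.2.1 hI.2.2]
  have h := (((cont_tri adm_phi adm_phi adm_lam ht).sub (cont_tri adm_lam adm_phi adm_phi ht)).sub
    (cont_tri adm_phi adm_lam adm_phi ht)).const_mul (1 / 3 : ℂ)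
  refine h.congr' ?_
  filter_upwards [cont_ev ht] with n hn
  exact (cont_PP hn.1 hn.2.1 hn.2.2).symm

theorem QQ_tendsto {t : ℕ → ℂ} (ht : Tendsto t atTop (𝓝 I)) :
    Tendsto (fun n => QQ (t n)) atTop (𝓝 (QQ I)) := by
  have hI : |I.re| ≤ 1 ∧ 1 / 2 ≤ I.im ∧ I.im ≤ 2 := by
    rw [I_re, I_im]; norm_num
  rw [cont_QQ hI.1 hI.2.1 hI.2.2]
  have h := (((cont_tri adm_phi adm_phc adm_lam ht).sub (cont_tri adm_lam adm_phc adm_phi ht)).sub
    (cont_tri adm_phi adm_lam adm_phc ht)).const_mul (-(1 / 6) : ℂ)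
  refine h.congr' ?_
  filter_upwards [cont_ev ht] with n hn
  exact (cont_QQ hn.1 hn.2.1 hn.2.2).symm

end Pool.Agent.Helper76.K3
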