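import Pool.Agent.Helper21.Reg.Defs

/-!
# `K₃` of the square of an elliptic curve and its real regulator: definitions

`L : PeriodPair` is a pair of `ℝ`-linearly independent periods, `E = ℂ / L.lattice` the corresponding
elliptic curve and `X = E × E` with coordinates `x, y`.  `IsElliptic L f` (from the earlier file) says
that `f` is (the pull back to `ℂ` of) a nonzero rational function on `E`, and `ordAt f c` is its order
at `c`.

The three homomorphisms `p₀ = x`, `p₁ = y`, `p₂ = x + y : X → E` give functions `f ∘ p_j` on `X`; the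
divisor of such a function is supported on the curves `D_{j,c} = {p_j = c}`, all isomorphic to `E`.

An element of `H³_M(X, ℚ(3)) = K₃(X)^{(3)} ⊗ ℚ` is given by
* a combination `∑ n {F, G, H}` of symbols of such functions, all of whose residues (tame symbols)
  along the curves `D_{j,c}` vanish in `Λ²(ℂ(D_{j,c})ˣ) ⊗ ℚ`, and
* a combination `∑ n [D_{j,0}] ⊗ {u}`, `u ∈ ℂ ∖ {0, 1}`, whose coefficient of every curve is in the
  Bloch group of `ℂ`, that is `∑ n (1 - u) ∧ u = 0` in `Λ²(ℂˣ) ⊗ ℚ`.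
-/

noncomputable section

namespace Pool.Agent.Helper76.K3

open Complex MeasureTheory Set Filter Topology
open Pool.Agent.Helper21.Reg (IsElliptic ordAt intE)
open scoped ComplexConjugate

/-- The homomorphisms `p₀ = x`, `p₁ = y`, `p₂ = x + y`. -/
def pr (j : Fin 3) (x y : ℂ) : ℂ := if j = 0 then x else if j = 1 then y else x + y

/-- The isomorphism `E → D_{j,c}`: `z ↦ (c, z)`, `z ↦ (z, c)`, `z ↦ (z, c - z)`. -/
def crv (j : Fin 3) (c z : ℂ) : ℂ × ℂ :=
  if j = 0 then (c, z) else if j = 1 then (z, c) else (z, c - z)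

/-- The function `f ∘ p_j` on `X`. -/
structure Fn where
  j : Fin 3
  f : ℂ → ℂ

/-- The order of `F` along `D_{j,c}`. -/
def Fn.ord (F : Fn) (j : Fin 3) (c : ℂ) : ℤ := if F.j = j then ordAt F.f c else 0

/-- The restriction to `D_{j,c} ≅ E` of `F / (p_j - c) ^ ord F`: the leading coefficient of `F` along
`D_{j,c}`. -/
def Fn.res (F : Fn) (j : Fin 3) (c : ℂ) : ℂ → ℂ :=
  if F.j = j then fun _ => meromorphicTrailingCoeffAt F.f c
  else fun z => F.f (pr F.j (crv j c z).1 (crv j c z).2)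

/-- A symbol `n {F, G, H}`. -/
structure Sym where
  n : ℤ
  F : Fn
  G : Fn
  H : Fn

/-- `B` is an alternating bimultiplicative pairing `ℂ(E)ˣ × ℂ(E)ˣ → ℚ`, that is a linear form on
`Λ²(ℂ(E)ˣ) ⊗ ℚ`. -/
structure AltPairing (L : PeriodPair) (B : (ℂ → ℂ) → (ℂ → ℂ) → ℚ) : Prop where
  congr : ∀ f f' g, IsElliptic L f → IsElliptic L f' → IsElliptic L g →
    f =ᶠ[codiscrete ℂ] f' → B f g = B f' g
  mul : ∀ f f' g, IsElliptic L f → IsElliptic L f' → IsElliptic L g →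
    B (fun z => f z * f' z) g = B f g + B f' g
  skew : ∀ f g, IsElliptic L f → IsElliptic L g → B g f = -B f g

/-- The value of the linear form `B` on the residue of `n {F, G, H}` along `D_{j,c}`, which is
`n (ord F · G ∧ H - ord G · F ∧ H + ord H · F ∧ G)` for the leading coefficients `F, G, H`. -/
def Sym.resid (T : Sym) (B : (ℂ → ℂ) → (ℂ → ℂ) → ℚ) (j : Fin 3) (c : ℂ) : ℚ :=
  T.n * (T.F.ord j c * B (T.G.res j c) (T.H.res j c) -
    T.G.ord j c * B (T.F.res j c) (T.H.res j c) + T.H.ord j c * B (T.F.res j c) (T.G.res j c))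

/-- A term `n [D_{j,0}] ⊗ {u}`. -/
structure Pt where
  n : ℤ
  j : Fin 3
  u : ℂ

/-- `B` is an alternating bimultiplicative pairing `ℂˣ × ℂˣ → ℚ`. -/
structure AltConst (B : ℂ → ℂ → ℚ) : Prop where
  mul : ∀ a a' b, a ≠ 0 → a' ≠ 0 → b ≠ 0 → B (a * a') b = B a b + B a' b
  skew : ∀ a b, a ≠ 0 → b ≠ 0 → B b a = -B a b

/-- A combination of symbols and a combination of terms `[D_{j,0}] ⊗ {u}`. -/
structure Chain where
  sym : List Sym
  pt : List Pt

/-- `ξ` is an element of `K₃(X)^{(3)}`. -/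
structure IsK3 (L : PeriodPair) (ξ : Chain) : Prop where
  elliptic : ∀ T ∈ ξ.sym, IsElliptic L T.F.f ∧ IsElliptic L T.G.f ∧ IsElliptic L T.H.f
  unramified : ∀ B, AltPairing L B → ∀ j c, (ξ.sym.map fun T => T.resid B j c).sum = 0
  ne : ∀ t ∈ ξ.pt, t.u ≠ 0 ∧ t.u ≠ 1
  bloch : ∀ B, AltConst B → ∀ j,
    ((ξ.pt.filter fun t => t.j = j).map fun t => t.n * B (1 - t.u) t.u).sum = 0

/-! ### The real regulator -/

/-- `log|F|` -/
def Fn.l (F : Fn) (x y : ℂ) : ℂ := (Real.log ‖F.f (pr F.j x y)‖ : ℂ)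

/-- the coefficient of `dx` in `dlog F` -/
def Fn.a (F : Fn) (x y : ℂ) : ℂ := if F.j = 1 then 0 else logDeriv F.f (pr F.j x y)

/-- the coefficient of `dy` in `dlog F` -/
def Fn.b (F : Fn) (x y : ℂ) : ℂ := if F.j = 0 then 0 else logDeriv F.f (pr F.j x y)

/-- cyclic sum -/
def cyc (W : Fn → Fn → Fn → ℂ) (F G H : Fn) : ℂ := W F G H + W G H F + W H F G

/-- the coefficient of `dx ∧ dy` in the real 2-form
`r₃(F, G, H) = ∑_σ sgn σ (1/6 log|F| dlog|G| ∧ dlog|H| - 1/2 log|F| darg G ∧ darg H)`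
(sum over the permutations of `F, G, H`) -/
def rxy (F G H : Fn) (x y : ℂ) : ℂ :=
  1 / 3 * cyc (fun F G H => F.l x y * (G.a x y * H.b x y - G.b x y * H.a x y)) F G H

/-- the coefficient of `dx ∧ dx̄` in `r₃(F, G, H)` -/
def rxx (F G H : Fn) (x y : ℂ) : ℂ :=
  -(1 / 6) * cyc (fun F G H =>
    F.l x y * (G.a x y * conj (H.a x y) - conj (G.a x y) * H.a x y)) F G H

/-- the coefficient of `dy ∧ dȳ` in `r₃(F, G, H)` -/
def ryy (F G H : Fn) (x y : ℂ) : ℂ :=
  -(1 / 6) * cyc (fun F G H =>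
    F.l x y * (G.b x y * conj (H.b x y) - conj (G.b x y) * H.b x y)) F G H

/-- the coefficient of `dx ∧ dȳ` in `r₃(F, G, H)` -/
def rxy' (F G H : Fn) (x y : ℂ) : ℂ :=
  -(1 / 6) * cyc (fun F G H =>
    F.l x y * (G.a x y * conj (H.b x y) - conj (G.b x y) * H.a x y)) F G H

/-- the integral over `X = E × E` with respect to Lebesgue measure -/
def intX (L : PeriodPair) (Φ : ℂ → ℂ → ℂ) : ℂ := intE L fun x => intE L fun y => Φ x y

/-- the area of `E` -/
def area (L : PeriodPair) : ℝ := |(conj L.ω₁ * L.ω₂).im|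

/-- The class of `r₃(F, G, H)`: a real class in `H²(X, ℝ)` is given by the integrals over `X` of its
coefficients at `dx ∧ dy`, `i dx ∧ dx̄`, `i dy ∧ dȳ` and `dx ∧ dȳ`, a vector in `ℂ × ℝ × ℝ × ℂ`. -/
def Sym.reg (L : PeriodPair) (T : Sym) : ℂ × ℝ × ℝ × ℂ :=
  (T.n : ℝ) • (intX L (rxy T.F T.G T.H), (intX L (rxx T.F T.G T.H)).im,
    (intX L (ryy T.F T.G T.H)).im, intX L (rxy' T.F T.G T.H))

/-- The Bloch-Wigner function `D(u) = Im Li₂(u) + arg(1 - u) log|u|`. -/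
def blochWigner (u : ℂ) : ℝ :=
  (∫ t in (0 : ℝ)..1, -(arg (1 - t * u) / t)) + arg (1 - u) * Real.log ‖u‖

/-- The class of the curve `D_{j,0}`, divided by `area(E) / 2`. -/
def cls (j : Fin 3) : ℂ × ℝ × ℝ × ℂ :=
  if j = 0 then (0, 1, 0, 0) else if j = 1 then (0, 0, 1, 0) else (0, 1, 1, I)

/-- The class of the current `2π D(u) δ_{D_{j,0}}`. -/
def Pt.reg (L : PeriodPair) (t : Pt) : ℂ × ℝ × ℝ × ℂ :=
  (t.n * (Real.pi * area L * blochWigner t.u)) • cls t.j

/-- The real regulator of `ξ` in `H²(X, ℝ(2)) ≅ ℂ × ℝ × ℝ × ℂ`. -/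
def Chain.reg (L : PeriodPair) (ξ : Chain) : ℂ × ℝ × ℝ × ℂ :=
  (ξ.sym.map fun T => T.reg L).sum + (ξ.pt.map fun t => t.reg L).sum

end Pool.Agent.Helper76.K3
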