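import Pool.Agent.Helper76.K3.Ser

/-!
# LINE: Fourier series on horizontal lines, `τ = i`
-/

noncomputable section

namespace Pool.Agent.Helper76.K3

open Complex MeasureTheory Set Filter Topology
open Pool.Agent.Helper21.Reg (IsElliptic ordAt intE Th ee Lat)
open Pool.Agent.Helper24.K1 (sq scale)
open scoped ComplexConjugate

/-- exchange of the two summations -/
private theorem line_of {f : ℤ → ℤ → ℝ} (hs : Summable fun x : ℤ × ℤ => f x.1 x.2)
    (hnn : ∀ k m, 0 ≤ f k m) (c : ℤ → ℂ) (hc : ∀ m, ‖c m‖ ≤ 1) (val : ℤ → ℂ)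
    (hval : ∀ k, HasSum (fun m => c m * f k m) (val k)) {S : ℂ} (hS : HasSum val S) :
    HasSum (fun m => c m * ((∑' k, f k m : ℝ) : ℂ)) S := by
  have hF : Summable fun x : ℤ × ℤ => c x.2 * (f x.1 x.2 : ℂ) := by
    refine Summable.of_norm_bounded hs (fun x => ?_)
    rw [norm_mul, Complex.norm_real, Real.norm_eq_abs, abs_of_nonneg (hnn _ _)]
    exact mul_le_of_le_one_left (hnn _ _) (hc _)
  have h1 : HasSum val (∑' x : ℤ × ℤ, c x.2 * (f x.1 x.2 : ℂ)) :=
    hF.hasSum.prod_fiberwise hval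
  have h2 : (∑' x : ℤ × ℤ, c x.2 * (f x.1 x.2 : ℂ)) = S := h1.unique hS
  have h3 : HasSum (fun x : ℤ × ℤ => c x.2 * (f x.1 x.2 : ℂ)) S := h2 ▸ hF.hasSum
  have h4 : HasSum (fun x : ℤ × ℤ => c x.1 * (f x.2 x.1 : ℂ)) S :=
    (Equiv.prodComm ℤ ℤ).hasSum_iff.2 h3
  have hs' : Summable fun x : ℤ × ℤ => f x.2 x.1 := (Equiv.prodComm ℤ ℤ).summable_iff.2 hs
  refine h4.prod_fiberwise (fun m => ?_)
  have h5 : Summable fun k => f k m := hs'.prod_factor m
  have h6 := (Complex.hasSum_ofReal.2 h5.hasSum).mul_left (c m)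
  exact h6

private theorem dist_pos {v : ℝ} (hv : Real.sin (Real.pi * v) ≠ 0) :
    ∃ δ : ℝ, 0 < δ ∧ ∀ k : ℤ, δ ≤ |v + k| := by
  refine ⟨|v - round v|, abs_pos.2 ?_, fun k => ?_⟩
  · intro h
    apply hv
    have h1 : v = (round v : ℤ) := by linarith
    rw [h1, mul_comm]
    exact Real.sin_int_mul_pi _
  · have := round_le v (-k)
    push_cast at this
    rw [sub_neg_eq_add] at this
    exact this

private theorem summable_exp_abs {a : ℝ} (ha : 0 < a) :
    Summable fun m : ℤ => Real.exp (-(a * |(m : ℝ)|)) := by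
  have h1 : Summable fun n : ℕ => Real.exp (-(a * n)) := by
    have h2 : ∀ n : ℕ, Real.exp (-(a * n)) = (Real.exp (-a)) ^ n := by
      intro n
      rw [← Real.exp_nat_mul]; ring_nf
    simp only [h2]
    exact summable_geometric_of_lt_one (Real.exp_pos _).le (Real.exp_lt_one_iff.2 (by linarith))
  refine Summable.of_nat_of_neg ?_ ?_
  · simpa using h1
  · simpa using h1

/-- the basic double series is summable -/
private theorem summable_q {v : ℝ} (hv : Real.sin (Real.pi * v) ≠ 0) :
    Summable fun x : ℤ × ℤ =>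
      if Odd x.2 then Real.exp (-(2 * Real.pi * |(x.2 : ℝ)| * |v + x.1|)) else 0 := by
  obtain ⟨δ, hδ, hδ'⟩ := dist_pos hv
  have hpi := Real.pi_pos
  have h1 : Summable fun k : ℤ => Real.exp (-(Real.pi * |v + k|)) := by
    refine Summable.of_nonneg_of_le (fun k => (Real.exp_pos _).le) (fun k => ?_)
      ((summable_exp_abs hpi).mul_left (Real.exp (Real.pi * |v|)))
    rw [← Real.exp_add]
    apply Real.exp_le_exp.2
    have h2 : |(k : ℝ)| ≤ |v + k| + |v| := by
      calc |(k : ℝ)| = |(v + k) - v| := by ring_nf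
        _ ≤ |v + k| + |v| := abs_sub _ _
    nlinarith
  have h2 : Summable fun m : ℤ => Real.exp (-(Real.pi * δ * |(m : ℝ)|)) :=
    summable_exp_abs (by positivity)
  have h3 : Summable fun x : ℤ × ℤ => Real.exp (-(Real.pi * |v + x.1|)) *
      Real.exp (-(Real.pi * δ * |(x.2 : ℝ)|)) :=
    h1.mul_of_nonneg h2 (fun k => (Real.exp_pos _).le) (fun m => (Real.exp_pos _).le)
  refine Summable.of_nonneg_of_le (fun x => ?_) (fun x => ?_) h3
  · split_ifs
    · exact (Real.exp_pos _).le
    · exact le_refl _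
  · split_ifs with hx
    · rw [← Real.exp_add]
      apply Real.exp_le_exp.2
      have h4 : (1 : ℝ) ≤ |(x.2 : ℝ)| := by
        have h5 : x.2 ≠ 0 := by
          rintro h6
          rw [h6] at hx
          simp at hx
        have := Int.one_le_abs h5
        exact_mod_cast this
      have h5 := hδ' x.1
      have h6 : |(x.2 : ℝ)| * δ ≤ |(x.2 : ℝ)| * |v + x.1| := by gcongr
      have h7 : |v + x.1| ≤ |(x.2 : ℝ)| * |v + x.1| := le_mul_of_one_le_left (abs_nonneg _) h4
      nlinarith
    · positivity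

/-- the sum over odd exponents of the geometric series -/
private theorem hasSum_odd_pow {z : ℂ} (hz : ‖z‖ < 1) :
    HasSum (fun n : ℕ => if Odd n then z ^ n else 0) (z * (1 - z ^ 2)⁻¹) := by
  have hinj : Function.Injective (fun j : ℕ => 2 * j + 1) := by
    intro a b h
    simp only at h
    omega
  rw [← hinj.hasSum_iff]
  · have h1 : ‖z ^ 2‖ < 1 := by
      rw [norm_pow]
      exact pow_lt_one₀ (norm_nonneg _) hz (by norm_num)
    have h2 := (hasSum_geometric_of_norm_lt_one h1).mul_left z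
    have h3 : ((fun n : ℕ => if Odd n then z ^ n else 0) ∘ fun j : ℕ => 2 * j + 1) =
        fun j : ℕ => z * (z ^ 2) ^ j := by
      ext j
      simp only [Function.comp]
      rw [if_pos ⟨j, rfl⟩]
      ring
    rw [h3]
    exact h2
  · intro m hm
    rw [if_neg]
    rintro ⟨j, hj⟩
    exact hm ⟨j, hj.symm⟩

/-- the logarithm as a sum over odd exponents -/
private theorem hasSum_odd_log {z : ℂ} (hz : ‖z‖ < 1) :
    HasSum (fun n : ℕ => if Odd n then 2 / (n : ℂ) * z ^ n else 0)
      (Complex.log (1 + z) - Complex.log (1 - z)) := by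
  have h1 := (Complex.hasSum_taylorSeries_log hz).add (Complex.hasSum_taylorSeries_neg_log hz)
  have h2 : (fun n : ℕ => if Odd n then 2 / (n : ℂ) * z ^ n else 0) =
      fun n : ℕ => (-1) ^ (n + 1) * z ^ n / n + z ^ n / n := by
    ext n
    split_ifs with h
    · have h3 : (-1 : ℂ) ^ (n + 1) = 1 := (h.add_one).neg_one_pow
      rw [h3]; ring
    · have h3 : (-1 : ℂ) ^ (n + 1) = -1 := (Nat.not_odd_iff_even.1 h).add_one.neg_one_pow
      rw [h3]; ring
  rw [h2, sub_eq_add_neg]
  exact h1

/-- the value of `ee` at `u + |b| i` -/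
private theorem ee_pow (u b : ℝ) (n : ℕ) :
    ee ((u : ℂ) + b * I) ^ n = ee (n * u) * (Real.exp (-(2 * Real.pi * n * b)) : ℂ) := by
  unfold ee
  rw [← Complex.exp_nat_mul, Complex.ofReal_exp, ← Complex.exp_add]
  congr 1
  push_cast
  ring_nf
  rw [Complex.I_sq]
  ring

private theorem conj_ee (u b : ℝ) : conj (ee ((u : ℂ) + b * I)) = ee (-(u : ℂ) + b * I) := by
  unfold ee
  rw [← Complex.exp_conj]
  congr 1
  simp only [map_mul, map_add, Complex.conj_ofReal, Complex.conj_I, map_ofNat]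
  ring

private theorem norm_ee_lt {u b : ℝ} (hb : 0 < b) : ‖ee ((u : ℂ) + b * I)‖ < 1 := by
  rw [Pool.Agent.Helper21.Reg.norm_ee]
  apply Real.exp_lt_one_iff.2
  have := Real.pi_pos
  simp
  positivity

private theorem int_sum {g : ℤ → ℂ} {α β : ℂ} {A B : ℕ → ℂ} (hA : HasSum A α) (hB : HasSum B β)
    (h1 : ∀ n : ℕ, g n = A n) (h2 : ∀ n : ℕ, g (-n) = B n) (h0 : g 0 = 0) :
    HasSum g (α + β) := by
  have e1 : (fun n : ℕ => g n) = A := funext h1
  have e2 : (fun n : ℕ => g (-n)) = B := funext h2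
  have h3 := HasSum.of_nat_of_neg (f := g) (e1 ▸ hA) (e2 ▸ hB)
  rwa [h0, sub_zero] at h3

private theorem inv_sin {w : ℂ} (h1 : ‖ee w‖ < 1) :
    -(4 * Real.pi) / Complex.sin (2 * Real.pi * w) =
      8 * Real.pi * I * (ee w * (1 - ee w ^ 2)⁻¹) := by
  have h0 : ee w ≠ 0 := Pool.Agent.Helper21.Reg.ee_ne_zero _
  have h2 : Complex.sin (2 * Real.pi * w) = ((ee w)⁻¹ - ee w) * I / 2 := by
    rw [Complex.sin]
    unfold ee
    rw [← Complex.exp_neg]
    ring_nf
  have h3 : 1 - ee w ^ 2 ≠ 0 := by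
    intro h
    have h4 : ee w ^ 2 = 1 := by linear_combination -h
    have h5 : ‖ee w‖ ^ 2 = 1 := by rw [← norm_pow, h4, norm_one]
    have h6 := pow_lt_one₀ (norm_nonneg (ee w)) h1 (n := 2) (by norm_num)
    linarith
  have h4 : (ee w)⁻¹ - ee w = (1 - ee w ^ 2) / ee w := by field_simp
  rw [h2, h4]
  field_simp
  rw [Complex.I_sq]
  ring

/-- the term of the series of `phi` -/
private theorem phi_term {b : ℝ} (hb : b ≠ 0) (u : ℝ) :
    HasSum (fun m : ℤ => I * (SignType.sign m : ℤ) * ee (m * u) *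
      ((if Odd m ∧ 0 < m * b then 8 * Real.pi * Real.exp (-(2 * Real.pi * |(m : ℝ)| * |b|)) else 0 :
        ℝ) : ℂ))
      (-(4 * Real.pi) / Complex.sin (2 * Real.pi * ((u : ℂ) + b * I))) := by
  have hpi := Real.pi_pos
  rcases lt_or_gt_of_ne hb with hb' | hb'
  · -- `b < 0`
    have hE := norm_ee_lt (u := -u) (b := -b) (by linarith)
    have e1 : (((-u : ℝ) : ℂ) + ((-b : ℝ) : ℂ) * I) = -((u : ℂ) + b * I) := by push_cast; ring
    have h1 := inv_sin hE
    have h2 : -(4 * Real.pi) / Complex.sin (2 * Real.pi * ((u : ℂ) + b * I)) =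
        0 + -(8 * Real.pi * I) * (ee (((-u : ℝ) : ℂ) + ((-b : ℝ) : ℂ) * I) *
          (1 - ee (((-u : ℝ) : ℂ) + ((-b : ℝ) : ℂ) * I) ^ 2)⁻¹) := by
      rw [neg_mul, ← h1, e1, mul_neg, Complex.sin_neg, zero_add, div_neg, neg_neg]
    rw [h2]
    refine int_sum (hasSum_zero : HasSum (fun _ : ℕ => (0 : ℂ)) 0)
      ((hasSum_odd_pow hE).mul_left (-(8 * Real.pi * I))) ?_ ?_ ?_
    · intro n
      have h3 : ¬ (0 < (((n : ℤ) : ℝ)) * b) := by
        have : (0 : ℝ) ≤ ((n : ℤ) : ℝ) := by positivity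
        nlinarith
      rw [if_neg (fun h => h3 h.2)]
      simp
    · intro n
      by_cases hn : Odd n
      · have hn0 : 0 < n := hn.pos
        have h3 : Odd (-(n : ℤ)) := by
          rw [odd_neg]
          exact_mod_cast hn
        have h4 : (0 : ℝ) < ((-(n : ℤ) : ℤ) : ℝ) * b := by
          have : (0 : ℝ) < (n : ℝ) := by exact_mod_cast hn0
          push_cast
          nlinarith
        have h5 : SignType.sign (-(n : ℤ)) = -1 := by
          rw [sign_eq_neg_one_iff]
          omega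
        rw [if_pos ⟨h3, h4⟩, if_pos hn, ee_pow, h5, abs_of_neg hb']
        have h6 : |((-(n : ℤ) : ℤ) : ℝ)| = n := by
          push_cast
          rw [abs_neg]
          exact abs_of_nonneg (by positivity)
        rw [h6]
        push_cast
        have h7 : ((1 : SignType) : ℂ) = 1 := by simp
        rw [h7]
        ring_nf
      · rw [if_neg hn, if_neg, mul_zero]
        · simp
        · rintro ⟨h3, _⟩
          rw [odd_neg] at h3
          exact hn (by exact_mod_cast h3)
    · simp
  · -- `0 < b`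
    have hE := norm_ee_lt (u := u) (b := b) hb'
    have h2 : -(4 * Real.pi) / Complex.sin (2 * Real.pi * ((u : ℂ) + b * I)) =
        8 * Real.pi * I * (ee ((u : ℂ) + b * I) * (1 - ee ((u : ℂ) + b * I) ^ 2)⁻¹) + 0 := by
      rw [inv_sin hE, add_zero]
    rw [h2]
    refine int_sum ((hasSum_odd_pow hE).mul_left (8 * Real.pi * I))
      (hasSum_zero : HasSum (fun _ : ℕ => (0 : ℂ)) 0) ?_ ?_ ?_
    · intro n
      by_cases hn : Odd n
      · have hn0 : 0 < n := hn.pos
        have h3 : Odd ((n : ℤ)) := by exact_mod_cast hn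
        have h4 : (0 : ℝ) < (((n : ℤ) : ℤ) : ℝ) * b := by
          have : (0 : ℝ) < (n : ℝ) := by exact_mod_cast hn0
          push_cast
          positivity
        have h5 : SignType.sign ((n : ℤ)) = 1 := by
          rw [sign_eq_one_iff]
          omega
        rw [if_pos ⟨h3, h4⟩, if_pos hn, ee_pow, h5, abs_of_pos hb']
        have h6 : |(((n : ℤ) : ℤ) : ℝ)| = n := by
          push_cast
          exact abs_of_nonneg (by positivity)
        rw [h6]
        push_cast
        have h7 : ((1 : SignType) : ℂ) = 1 := by simp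
        rw [h7]
        ring_nf
      · rw [if_neg hn, if_neg, mul_zero]
        · simp
        · rintro ⟨h3, _⟩
          exact hn (by exact_mod_cast h3)
    · intro n
      have h3 : ¬ (0 < (((-(n : ℤ) : ℤ) : ℝ)) * b) := by
        have : (0 : ℝ) ≤ (n : ℝ) := by positivity
        push_cast
        nlinarith
      rw [if_neg (fun h => h3 h.2)]
      simp
    · simp

/-- the norm of the cotangent -/
private theorem norm_cot {w : ℂ} (h1 : ‖ee w‖ < 1) :
    ‖Complex.cot (Real.pi * w)‖ = ‖1 + ee w‖ / ‖1 - ee w‖ := by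
  set a := Complex.exp (Real.pi * w * I) with ha
  have ha0 : a ≠ 0 := Complex.exp_ne_zero _
  have hE : ee w = a ^ 2 := by
    rw [ha, ← Complex.exp_nat_mul]
    unfold ee
    congr 1
    push_cast
    ring
  have hcos : Complex.cos (Real.pi * w) = (a + a⁻¹) / 2 := by
    rw [Complex.cos, ha, ← Complex.exp_neg]
    ring_nf
  have hsin : Complex.sin (Real.pi * w) = (a⁻¹ - a) * I / 2 := by
    rw [Complex.sin, ha, ← Complex.exp_neg]
    ring_nf
  have h3 : 1 - ee w ≠ 0 := by
    intro h
    have h4 : ee w = 1 := by linear_combination -h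
    rw [h4, norm_one] at h1
    exact lt_irrefl _ h1
  have h4 : 1 - a ^ 2 ≠ 0 := by rwa [hE] at h3
  have h5 : Complex.cot (Real.pi * w) = -I * ((1 + ee w) / (1 - ee w)) := by
    rw [Complex.cot, hcos, hsin, hE]
    have h6 : a⁻¹ - a = (1 - a ^ 2) / a := by field_simp
    have h7 : a + a⁻¹ = (1 + a ^ 2) / a := by field_simp; ring
    rw [h6, h7]
    field_simp
    rw [Complex.I_sq]
    ring
  rw [h5, norm_mul, norm_neg, Complex.norm_I, one_mul, norm_div]

/-- the term of the series of `lam` -/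
private theorem lam_term {b : ℝ} (hb : b ≠ 0) (u : ℝ) :
    HasSum (fun m : ℤ => ee (m * u) *
      ((if Odd m then 2 / |(m : ℝ)| * Real.exp (-(2 * Real.pi * |(m : ℝ)| * |b|)) else 0 : ℝ) : ℂ))
      ((2 * Real.log ‖Complex.cot (Real.pi * ((u : ℂ) + b * I))‖ : ℝ) : ℂ) := by
  have hpi := Real.pi_pos
  have hb' : 0 < |b| := abs_pos.2 hb
  have hE := norm_ee_lt (u := u) (b := |b|) hb'
  set E := ee ((u : ℂ) + ((|b| : ℝ) : ℂ) * I) with hEd
  have hE' : conj E = ee (((-u : ℝ) : ℂ) + ((|b| : ℝ) : ℂ) * I) := by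
    rw [hEd, conj_ee]
    push_cast
    rfl
  have hcot : ‖Complex.cot (Real.pi * ((u : ℂ) + b * I))‖ = ‖1 + E‖ / ‖1 - E‖ := by
    rcases lt_or_gt_of_ne hb with hb'' | hb''
    · have e1 : (((-u : ℝ) : ℂ) + ((|b| : ℝ) : ℂ) * I) = -((u : ℂ) + b * I) := by
        rw [abs_of_neg hb'']
        push_cast
        ring
      have hE2 : ‖conj E‖ < 1 := by rwa [Complex.norm_conj]
      have h1 := norm_cot (w := ((-u : ℝ) : ℂ) + ((|b| : ℝ) : ℂ) * I) (hE' ▸ hE2)
      rw [← hE'] at h1
      have h2 : ‖1 + conj E‖ = ‖1 + E‖ := by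
        rw [← Complex.norm_conj (1 + E), map_add, map_one]
      have h3 : ‖1 - conj E‖ = ‖1 - E‖ := by
        rw [← Complex.norm_conj (1 - E), map_sub, map_one]
      rw [h2, h3, e1] at h1
      rw [← h1, mul_neg, Complex.cot, Complex.cot, Complex.cos_neg, Complex.sin_neg, div_neg,
        norm_neg]
    · have e1 : ((u : ℂ) + ((|b| : ℝ) : ℂ) * I) = ((u : ℂ) + b * I) := by
        rw [abs_of_pos hb'']
      rw [hEd, e1]
      exact norm_cot (by rw [← e1]; exact hE)
  have hne1 : 1 + E ≠ 0 := by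
    intro h
    have h4 : E = -1 := by linear_combination h
    rw [h4, norm_neg, norm_one] at hE
    exact lt_irrefl _ hE
  have hne2 : 1 - E ≠ 0 := by
    intro h
    have h4 : E = 1 := by linear_combination -h
    rw [h4, norm_one] at hE
    exact lt_irrefl _ hE
  have hA := hasSum_odd_log hE
  have hB : HasSum (fun n : ℕ => if Odd n then 2 / (n : ℂ) * (conj E) ^ n else 0)
      (conj (Complex.log (1 + E) - Complex.log (1 - E))) := by
    have h1 := hA.map (starRingEnd ℂ) Complex.continuous_conj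
    have h2 : (starRingEnd ℂ) ∘ (fun n : ℕ => if Odd n then 2 / (n : ℂ) * E ^ n else 0) =
        fun n : ℕ => if Odd n then 2 / (n : ℂ) * (conj E) ^ n else 0 := by
      ext n
      simp only [Function.comp]
      split_ifs
      · rw [map_mul, map_div₀, map_pow, Complex.conj_natCast, Complex.conj_ofNat]
      · simp
    rwa [h2] at h1
  have hval : ((2 * Real.log ‖Complex.cot (Real.pi * ((u : ℂ) + b * I))‖ : ℝ) : ℂ) =
      (Complex.log (1 + E) - Complex.log (1 - E)) +
        conj (Complex.log (1 + E) - Complex.log (1 - E)) := by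
    rw [Complex.add_conj, hcot, Real.log_div (norm_ne_zero_iff.2 hne1) (norm_ne_zero_iff.2 hne2),
      Complex.sub_re, Complex.log_re, Complex.log_re]
  rw [hval]
  refine int_sum hA hB ?_ ?_ (by simp)
  · intro n
    by_cases hn : Odd n
    · have h3 : Odd ((n : ℤ)) := by exact_mod_cast hn
      have h6 : |(((n : ℤ) : ℤ) : ℝ)| = n := by
        push_cast
        exact abs_of_nonneg (by positivity)
      rw [if_pos h3, if_pos hn, hEd, ee_pow, h6]
      push_cast
      ring_nf
    · rw [if_neg hn, if_neg]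
      · simp
      · intro h3
        exact hn (by exact_mod_cast h3)
  · intro n
    by_cases hn : Odd n
    · have h3 : Odd (-(n : ℤ)) := by
        rw [odd_neg]
        exact_mod_cast hn
      have h6 : |((-(n : ℤ) : ℤ) : ℝ)| = n := by
        push_cast
        rw [abs_neg]
        exact abs_of_nonneg (by positivity)
      rw [if_pos h3, if_pos hn, hE', ee_pow, h6]
      push_cast
      ring_nf
    · rw [if_neg hn, if_neg]
      · simp
      · intro h3
        rw [odd_neg] at h3
        exact hn (by exact_mod_cast h3)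

theorem phi_line (v : ℝ) (hv : Real.sin (Real.pi * v) ≠ 0) :
    ∃ p : ℤ → ℝ, Summable p ∧ (∀ m, 0 ≤ p m) ∧ 0 < p 1 ∧ 0 < p (-1) ∧
      ∀ u : ℝ, HasSum (fun m : ℤ => I * (SignType.sign m : ℤ) * p m * ee (m * u))
        (phi I (zt I (u, v))) := by
  have hpi := Real.pi_pos
  obtain ⟨δ, hδ, hδ'⟩ := dist_pos hv
  set f : ℤ → ℤ → ℝ := fun k m => if Odd m ∧ 0 < m * (v + k) then
    8 * Real.pi * Real.exp (-(2 * Real.pi * |(m : ℝ)| * |v + k|)) else 0 with hf
  have hnn : ∀ k m, 0 ≤ f k m := by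
    intro k m
    simp only [hf]
    split_ifs
    · positivity
    · exact le_refl _
  have hs : Summable fun x : ℤ × ℤ => f x.1 x.2 := by
    refine Summable.of_nonneg_of_le (fun x => hnn _ _) (fun x => ?_)
      ((summable_q hv).mul_left (8 * Real.pi))
    simp only [hf]
    split_ifs with h1 h2 h2
    · exact le_refl _
    · exact absurd h1.1 h2
    · positivity
    · simp
  have hs' : Summable fun x : ℤ × ℤ => f x.2 x.1 := (Equiv.prodComm ℤ ℤ).summable_iff.2 hs
  have hsm : ∀ m, Summable fun k => f k m := fun m => hs'.prod_factor m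
  refine ⟨fun m => ∑' k, f k m, hs'.prod, fun m => tsum_nonneg (fun k => hnn k m), ?_, ?_, ?_⟩
  · obtain ⟨k, hk⟩ := exists_nat_gt (-v)
    refine (hsm 1).tsum_pos (fun k => hnn k 1) (k : ℤ) ?_
    simp only [hf]
    rw [if_pos]
    · positivity
    · refine ⟨odd_one, ?_⟩
      push_cast
      linarith
  · obtain ⟨k, hk⟩ := exists_nat_gt v
    refine (hsm (-1)).tsum_pos (fun k => hnn k (-1)) (-(k : ℤ)) ?_
    simp only [hf]
    rw [if_pos]
    · positivity
    · refine ⟨by decide, ?_⟩
      push_cast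
      linarith
  · intro u
    have h1 := phi_series (τ := I) (by simp) (u, v) hv
    have h2 : ∀ k : ℤ, HasSum (fun m : ℤ => I * (SignType.sign m : ℤ) * ee (m * u) * (f k m : ℂ))
        (-(4 * Real.pi) / Complex.sin (2 * Real.pi * (zt I (u, v) + k * I))) := by
      intro k
      have h3 : v + (k : ℝ) ≠ 0 := by
        intro h
        have := hδ' k
        rw [h, abs_zero] at this
        linarith
      have h4 := phi_term h3 u
      have h5 : zt I (u, v) + k * I = (u : ℂ) + ((v + (k : ℝ) : ℝ) : ℂ) * I := by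
        unfold zt
        push_cast
        ring
      rw [h5]
      exact h4
    have h6 := line_of hs hnn (fun m : ℤ => I * (SignType.sign m : ℤ) * ee (m * u)) (fun m => by
      have h7 : ‖ee ((m : ℂ) * u)‖ = 1 := by
        rw [Pool.Agent.Helper21.Reg.norm_ee]
        simp
      rw [norm_mul, norm_mul, h7, Complex.norm_I, one_mul, mul_one]
      rcases lt_trichotomy m 0 with h | h | h
      · rw [sign_neg h]; simp
      · rw [h]; simp
      · rw [sign_pos h]; simp) _ h2 h1
    have h8 : (fun m : ℤ => I * (SignType.sign m : ℤ) * ((∑' k, f k m : ℝ) : ℂ) * ee (m * u)) =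
        fun m : ℤ => I * (SignType.sign m : ℤ) * ee (m * u) * ((∑' k, f k m : ℝ) : ℂ) := by
      ext m
      ring
    rw [h8]
    exact h6

theorem lam_line (v : ℝ) (hv : Real.sin (Real.pi * v) ≠ 0) :
    ∃ l : ℤ → ℝ, Summable l ∧ (∀ m, 0 ≤ l m) ∧ 0 < l 1 ∧ 0 < l (-1) ∧
      ∀ u : ℝ, HasSum (fun m : ℤ => (l m : ℂ) * ee (m * u)) (lam I (zt I (u, v))) := by
  have hpi := Real.pi_pos
  obtain ⟨δ, hδ, hδ'⟩ := dist_pos hv
  set f : ℤ → ℤ → ℝ := fun k m => if Odd m then
    2 / |(m : ℝ)| * Real.exp (-(2 * Real.pi * |(m : ℝ)| * |v + k|)) else 0 with hf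
  have hnn : ∀ k m, 0 ≤ f k m := by
    intro k m
    simp only [hf]
    split_ifs
    · positivity
    · exact le_refl _
  have hs : Summable fun x : ℤ × ℤ => f x.1 x.2 := by
    refine Summable.of_nonneg_of_le (fun x => hnn _ _) (fun x => ?_)
      ((summable_q hv).mul_left 2)
    simp only [hf]
    split_ifs with h1
    · refine mul_le_mul_of_nonneg_right ?_ (Real.exp_pos _).le
      have h4 : (1 : ℝ) ≤ |(x.2 : ℝ)| := by
        have h5 : x.2 ≠ 0 := by
          rintro h6
          rw [h6] at h1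
          simp at h1
        have := Int.one_le_abs h5
        exact_mod_cast this
      rw [div_le_iff₀ (by linarith)]
      linarith
    · simp
  have hs' : Summable fun x : ℤ × ℤ => f x.2 x.1 := (Equiv.prodComm ℤ ℤ).summable_iff.2 hs
  have hsm : ∀ m, Summable fun k => f k m := fun m => hs'.prod_factor m
  refine ⟨fun m => ∑' k, f k m, hs'.prod, fun m => tsum_nonneg (fun k => hnn k m), ?_, ?_, ?_⟩
  · refine (hsm 1).tsum_pos (fun k => hnn k 1) 0 ?_
    simp only [hf]
    rw [if_pos odd_one]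
    positivity
  · refine (hsm (-1)).tsum_pos (fun k => hnn k (-1)) 0 ?_
    simp only [hf]
    rw [if_pos (by decide)]
    simp
    positivity
  · intro u
    have h1 := lam_series (τ := I) (by simp) (u, v) hv
    have h1' := Complex.hasSum_ofReal.2 h1
    have h2 : ∀ k : ℤ, HasSum (fun m : ℤ => ee (m * u) * (f k m : ℂ))
        ((2 * Real.log ‖Complex.cot (Real.pi * (zt I (u, v) + k * I))‖ : ℝ) : ℂ) := by
      intro k
      have h3 : v + (k : ℝ) ≠ 0 := by
        intro h
        have := hδ' k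
        rw [h, abs_zero] at this
        linarith
      have h4 := lam_term h3 u
      have h5 : zt I (u, v) + k * I = (u : ℂ) + ((v + (k : ℝ) : ℝ) : ℂ) * I := by
        unfold zt
        push_cast
        ring
      rw [h5]
      exact h4
    have h6 := line_of hs hnn (fun m : ℤ => ee (m * u)) (fun m => by
      have h7 : ‖ee ((m : ℂ) * u)‖ = 1 := by
        rw [Pool.Agent.Helper21.Reg.norm_ee]
        simp
      exact h7.le) _ h2 h1'
    have h8 : (fun m : ℤ => ((∑' k, f k m : ℝ) : ℂ) * ee (m * u)) =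
        fun m : ℤ => ee (m * u) * ((∑' k, f k m : ℝ) : ℂ) := by
      ext m
      ring
    rw [h8]
    exact h6

end Pool.Agent.Helper76.K3
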