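import Pool.Agent.Helper76.K3.Cont
import Pool.Agent.Helper76.K3.Line
import Pool.Agent.Helper76.K3.Circ

/-! Signs at `τ = i`. -/

noncomputable section

namespace Pool.Agent.Helper76.K3

open Complex MeasureTheory Set Filter Topology
open Pool.Agent.Helper21.Reg (IsElliptic ordAt intE Th ee Lat)
open Pool.Agent.Helper24.K1 (sq scale)
open scoped ComplexConjugate

/-! ### rearrangement of a fourfold product -/

/-- Lebesgue measure on the unit interval -/
private abbrev mu : Measure ℝ := volume.restrict (Icc (0 : ℝ) 1)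

/-- `((v, w), (u, u')) ↦ ((u, v), (u', w))` -/
private def negE : ((ℝ × ℝ) × (ℝ × ℝ)) ≃ᵐ ((ℝ × ℝ) × (ℝ × ℝ)) where
  toFun x := ((x.2.1, x.1.1), (x.2.2, x.1.2))
  invFun x := ((x.1.2, x.2.2), (x.1.1, x.2.1))
  left_inv x := rfl
  right_inv x := rfl
  measurable_toFun := by
    simp only [Equiv.coe_fn_mk]
    fun_prop
  measurable_invFun := by
    simp only [Equiv.coe_fn_symm_mk]
    fun_prop

private lemma mp_negE : MeasurePreserving negE ((mu.prod mu).prod (mu.prod mu))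
    ((mu.prod mu).prod (mu.prod mu)) := by
  have s1 : MeasurePreserving (Prod.swap : (ℝ × ℝ) × (ℝ × ℝ) → (ℝ × ℝ) × (ℝ × ℝ))
      ((mu.prod mu).prod (mu.prod mu)) ((mu.prod mu).prod (mu.prod mu)) :=
    Measure.measurePreserving_swap
  have s2 := measurePreserving_prodAssoc mu mu (mu.prod mu)
  have s3a := (measurePreserving_prodAssoc mu mu mu)
  have s3b : MeasurePreserving (Prod.map (Prod.swap : ℝ × ℝ → ℝ × ℝ) (id : ℝ → ℝ))
      ((mu.prod mu).prod mu) ((mu.prod mu).prod mu) :=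
    MeasurePreserving.prod Measure.measurePreserving_swap (MeasurePreserving.id _)
  have s3 := s3a.comp (s3b.comp s3a.symm)
  have s4 := MeasurePreserving.prod (MeasurePreserving.id mu) s3
  have s5 := s2.symm.comp (s4.comp (s2.comp s1))
  exact s5

private lemma restrict_sq : (volume.restrict sq : Measure (ℝ × ℝ)) = mu.prod mu := by
  rw [Measure.prod_restrict]
  rfl

private lemma restrict_sq2 : (volume.restrict (sq ×ˢ sq) : Measure ((ℝ × ℝ) × (ℝ × ℝ))) =
    (mu.prod mu).prod (mu.prod mu) := by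
  rw [Measure.prod_restrict, Measure.prod_restrict]
  rfl

private lemma cnt_sin : {v : ℝ | Real.sin (Real.pi * v) = 0}.Countable := by
  refine (countable_range (fun n : ℤ => (n : ℝ))).mono ?_
  intro v hv
  obtain ⟨n, hn⟩ := Real.sin_eq_zero_iff.1 hv
  refine ⟨n, ?_⟩
  have : (n : ℝ) * Real.pi = v * Real.pi := by rw [hn]; ring
  exact mul_right_cancel₀ Real.pi_ne_zero this

private lemma null_sin : mu {v : ℝ | Real.sin (Real.pi * v) = 0} = 0 := cnt_sin.measure_zero _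

private lemma ae_sin : ∀ᵐ x ∂(mu.prod mu), Real.sin (Real.pi * x.1) ≠ 0 ∧
    Real.sin (Real.pi * x.2) ≠ 0 ∧ Real.sin (Real.pi * (x.1 + x.2)) ≠ 0 := by
  have h0 : ∀ᵐ v ∂mu, Real.sin (Real.pi * v) ≠ 0 := by
    rw [ae_iff]; simpa using null_sin
  have h1 : ∀ᵐ x ∂(mu.prod mu), Real.sin (Real.pi * x.1) ≠ 0 :=
    Measure.quasiMeasurePreserving_fst.ae h0
  have h2 : ∀ᵐ x ∂(mu.prod mu), Real.sin (Real.pi * x.2) ≠ 0 :=
    Measure.quasiMeasurePreserving_snd.ae h0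
  have h3 : ∀ᵐ x ∂(mu.prod mu), Real.sin (Real.pi * (x.1 + x.2)) ≠ 0 := by
    rw [ae_iff]
    have hm : MeasurableSet {x : ℝ × ℝ | ¬ Real.sin (Real.pi * (x.1 + x.2)) ≠ 0} := by
      have : {x : ℝ × ℝ | ¬ Real.sin (Real.pi * (x.1 + x.2)) ≠ 0} =
          (fun x : ℝ × ℝ => Real.sin (Real.pi * (x.1 + x.2))) ⁻¹' {0} := by
        ext x; simp
      rw [this]
      exact (Continuous.measurable (by fun_prop)) (measurableSet_singleton 0)
    rw [Measure.measure_prod_null hm]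
    refine Filter.Eventually.of_forall fun v => ?_
    have : (Prod.mk v ⁻¹' {x : ℝ × ℝ | ¬ Real.sin (Real.pi * (x.1 + x.2)) ≠ 0}) ⊆
        (fun w => v + w) ⁻¹' {v : ℝ | Real.sin (Real.pi * v) = 0} := by
      intro w hw
      simpa using hw
    refine (((cnt_sin.preimage (add_right_injective v)).mono this)).measure_zero _
  filter_upwards [h1, h2, h3] with x a b c using ⟨a, b, c⟩

/-- the integrand of `tri` -/
private def Fi (A B C : ℂ → ℂ) (x : (ℝ × ℝ) × (ℝ × ℝ)) : ℂ :=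
  A (zt I x.1) * B (zt I x.2) * C (zt I x.1 + zt I x.2)

private lemma tri_eq (A B C : ℂ → ℂ)
    (hint : IntegrableOn (fun x : (ℝ × ℝ) × (ℝ × ℝ) =>
      A (zt I x.1) * B (zt I x.2) * C (zt I x.1 + zt I x.2)) (sq ×ˢ sq)) :
    tri I A B C = ∫ x in (Helper24.K1.sq ×ˢ Helper24.K1.sq : Set ((ℝ × ℝ) × (ℝ × ℝ))), Fi A B C x := by
  have h := hint
  rw [IntegrableOn, restrict_sq2] at h
  unfold tri
  rw [restrict_sq2, restrict_sq]
  exact (integral_prod (Fi A B C) h).symm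

theorem tri_neg_of (A B C : ℂ → ℂ)
    (hint : IntegrableOn (fun x : (ℝ × ℝ) × (ℝ × ℝ) =>
      A (zt I x.1) * B (zt I x.2) * C (zt I x.1 + zt I x.2)) (sq ×ˢ sq))
    (h : ∀ v w : ℝ, Real.sin (Real.pi * v) ≠ 0 → Real.sin (Real.pi * w) ≠ 0 →
      Real.sin (Real.pi * (v + w)) ≠ 0 → ∃ r : ℝ, r < 0 ∧
      ∫ u in Icc (0 : ℝ) 1, ∫ u' in Icc (0 : ℝ) 1,
        A (zt I (u, v)) * B (zt I (u', w)) * C (zt I (u, v) + zt I (u', w)) = (r : ℂ)) :
    ∃ r : ℝ, r < 0 ∧ tri I A B C = (r : ℂ) := by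
  rw [tri_eq A B C hint, restrict_sq2]
  have h0 : Integrable (Fi A B C) ((mu.prod mu).prod (mu.prod mu)) := by
    have h := hint
    rw [IntegrableOn, restrict_sq2] at h
    exact h
  have h1 : ∫ x, Fi A B C x ∂((mu.prod mu).prod (mu.prod mu)) =
      ∫ x, Fi A B C (negE x) ∂((mu.prod mu).prod (mu.prod mu)) :=
    (mp_negE.integral_comp' (Fi A B C)).symm
  have h2 : Integrable (fun x => Fi A B C (negE x)) ((mu.prod mu).prod (mu.prod mu)) :=
    (mp_negE.integrable_comp_emb negE.measurableEmbedding).2 h0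
  set g : ℝ × ℝ → ℂ := fun y => ∫ z, Fi A B C (negE (y, z)) ∂(mu.prod mu) with hg
  have hgi : Integrable g (mu.prod mu) := h2.integral_prod_left
  have hgr : ∀ᵐ y ∂(mu.prod mu), (g y).re < 0 ∧ (g y).im = 0 := by
    filter_upwards [ae_sin, h2.prod_right_ae] with y hy hy2
    obtain ⟨r, hr, e⟩ := h y.1 y.2 hy.1 hy.2.1 hy.2.2
    have : g y = (r : ℂ) := by
      rw [hg]
      simp only
      rw [integral_prod _ hy2, ← e]
      rfl
    rw [this]
    simpa using hr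
  refine ⟨∫ y, (g y).re ∂(mu.prod mu), ?_, ?_⟩
  · have hpos : 0 < ∫ y, -(g y).re ∂(mu.prod mu) := by
      rw [integral_pos_iff_support_of_nonneg_ae]
      · have : (mu.prod mu) (Function.support fun y => -(g y).re)ᶜ = 0 := by
          rw [← compl_mem_ae_iff, compl_compl]
          filter_upwards [hgr] with y hy
          simp only [Function.mem_support, ne_eq, neg_eq_zero]
          exact hy.1.ne
        have h3 : (mu.prod mu) (Function.support fun y => -(g y).re) = (mu.prod mu) univ :=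
          measure_congr (by
            rw [eventuallyEq_univ]
            rwa [← compl_mem_ae_iff, compl_compl] at this)
        rw [h3]
        simp [mu, Measure.prod_apply]
      · filter_upwards [hgr] with y hy
        simpa using hy.1.le
      · exact hgi.re.neg
    rw [integral_neg] at hpos
    linarith
  · rw [h1, integral_prod _ h2]
    have : (fun y => ∫ z, Fi A B C (negE (y, z)) ∂(mu.prod mu)) =ᵐ[mu.prod mu]
        fun y => (((g y).re : ℝ) : ℂ) := by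
      filter_upwards [hgr] with y hy
      apply Complex.ext
      · simp [hg]
      · simpa [hg] using hy.2
    rw [integral_congr_ae this]
    exact integral_ofReal

/-! ### signs on a pair of lines -/

private lemma line_neg {A B C : ℂ → ℂ} {v w : ℝ} {a b c : ℤ → ℂ} {d : ℤ → ℝ} (ha : Summable a)
    (hb : Summable b) (hc : Summable c)
    (hA : ∀ u : ℝ, HasSum (fun m : ℤ => a m * ee (m * u)) (A (zt I (u, v))))
    (hB : ∀ u : ℝ, HasSum (fun m : ℤ => b m * ee (m * u)) (B (zt I (u, w))))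
    (hC : ∀ u : ℝ, HasSum (fun m : ℤ => c m * ee (m * u)) (C (zt I (u, v + w))))
    (hd : ∀ m, a m * b m * c (-m) = (d m : ℂ)) (hd0 : ∀ m, d m ≤ 0) (hd1 : d 1 < 0) :
    ∃ r : ℝ, r < 0 ∧ ∫ u in Icc (0 : ℝ) 1, ∫ u' in Icc (0 : ℝ) 1,
        A (zt I (u, v)) * B (zt I (u', w)) * C (zt I (u, v) + zt I (u', w)) = (r : ℂ) := by
  have h := circ (fun u => A (zt I (u, v))) (fun u => B (zt I (u, w)))
    (fun u => C (zt I (u, v + w))) a b c ha hb hc hA hB hC
  have hz : ∀ u u' : ℝ, zt I (u, v) + zt I (u', w) = zt I (u + u', v + w) := by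
    intro u u'
    simp only [zt]
    push_cast
    ring
  simp only [hz]
  set J := ∫ u in Icc (0 : ℝ) 1, ∫ u' in Icc (0 : ℝ) 1,
        A (zt I (u, v)) * B (zt I (u', w)) * C (zt I (u + u', v + w)) with hJ
  have h1 : HasSum (fun m : ℤ => (d m : ℂ)) J := by
    simpa only [hd] using h
  rw [Complex.hasSum_iff] at h1
  simp only [ofReal_re, ofReal_im] at h1
  refine ⟨J.re, ?_, ?_⟩
  · exact hasSum_lt (i := (1 : ℤ)) hd0 hd1 h1.1 hasSum_zero
  · apply Complex.ext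
    · simp
    · simpa using h1.2.unique hasSum_zero

private def Lty (A : ℂ → ℂ) (v : ℝ) : Prop :=
  ∃ l : ℤ → ℝ, Summable l ∧ (∀ m, 0 ≤ l m) ∧ 0 < l 1 ∧ 0 < l (-1) ∧
      ∀ u : ℝ, HasSum (fun m : ℤ => (l m : ℂ) * ee (m * u)) (A (zt I (u, v)))

private def Pty (A : ℂ → ℂ) (v : ℝ) : Prop :=
  ∃ p : ℤ → ℝ, Summable p ∧ (∀ m, 0 ≤ p m) ∧ 0 < p 1 ∧ 0 < p (-1) ∧
      ∀ u : ℝ, HasSum (fun m : ℤ => I * (SignType.sign m : ℤ) * p m * ee (m * u))
        (A (zt I (u, v)))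

private lemma conj_ee (m : ℤ) (u : ℝ) : conj (ee (m * u)) = ee (((-m : ℤ) : ℂ) * u) := by
  unfold ee
  rw [← Complex.exp_conj]
  congr 1
  simp only [map_mul, conj_I, map_ofNat, conj_ofReal]
  have : (conj (m : ℂ)) = (m : ℂ) := by
    rw [← Complex.ofReal_intCast, conj_ofReal]
  rw [this]
  push_cast
  ring

private lemma pty_conj {A : ℂ → ℂ} {v : ℝ} (h : Pty A v) : Pty (fun z => conj (A z)) v := by
  obtain ⟨p, hp, h0, h1, h2, h3⟩ := h
  refine ⟨fun m => p (-m), ?_, fun m => h0 _, h2, by simpa using h1, fun u => ?_⟩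
  · exact (Equiv.neg ℤ).summable_iff.2 hp
  · have e := (h3 u).map (starRingEnd ℂ) Complex.continuous_conj
    have e2 := (Equiv.neg ℤ).hasSum_iff.2 e
    have key : ∀ m : ℤ, ((fun z => (starRingEnd ℂ) z) ∘ fun m : ℤ =>
        I * ((SignType.sign m : ℤ) : ℂ) * p m * ee (m * u)) ((Equiv.neg ℤ) m) =
        I * ((SignType.sign m : ℤ) : ℂ) * ((p (-m) : ℝ) : ℂ) * ee (m * u) := by
      intro m
      simp only [Function.comp_apply, Equiv.neg_apply, map_mul, conj_I, conj_ofReal]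
      rw [conj_ee, neg_neg]
      have h4 : ((SignType.sign (-m) : ℤ) : ℂ) = -((SignType.sign m : ℤ) : ℂ) := by
        rw [Left.sign_neg]
        push_cast
        simp
      rw [show (conj ((SignType.sign (-m) : ℤ) : ℂ)) = ((SignType.sign (-m) : ℤ) : ℂ) by
        rw [← Complex.ofReal_intCast, conj_ofReal], h4]
      ring
    have e3 := funext key
    change HasSum (((fun z => (starRingEnd ℂ) z) ∘ fun m : ℤ =>
        I * ((SignType.sign m : ℤ) : ℂ) * p m * ee (m * u)) ∘ (Equiv.neg ℤ)) _ at e2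
    change HasSum (fun m : ℤ => I * ((SignType.sign m : ℤ) : ℂ) * ((p (-m) : ℝ) : ℂ) * ee (m * u)) _
    rw [← e3]
    exact e2

private lemma sum_sgn {p : ℤ → ℝ} (hp : Summable p) :
    Summable (fun m : ℤ => I * ((SignType.sign m : ℤ) : ℂ) * p m) := by
  refine Summable.of_norm_bounded (g := fun m => |p m|) hp.abs fun m => ?_
  rw [norm_mul, norm_mul, norm_I, one_mul, Complex.norm_real, Real.norm_eq_abs]
  refine mul_le_of_le_one_left (abs_nonneg _) ?_
  rcases lt_trichotomy m 0 with h | h | h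
  · simp [sign_neg h]
  · simp [h]
  · simp [sign_pos h]

private lemma sum_cast {p : ℤ → ℝ} (hp : Summable p) : Summable (fun m : ℤ => (p m : ℂ)) :=
  Complex.summable_ofReal.2 hp

private lemma sgn_neg (m : ℤ) : ((SignType.sign (-m) : ℤ) : ℂ) = -((SignType.sign m : ℤ) : ℂ) := by
  rw [Left.sign_neg]
  push_cast
  simp

private lemma neg_ppl {A B C : ℂ → ℂ} {v w : ℝ} (hA : Pty A v) (hB : Pty B w)
    (hC : Lty C (v + w)) :
    ∃ r : ℝ, r < 0 ∧ ∫ u in Icc (0 : ℝ) 1, ∫ u' in Icc (0 : ℝ) 1,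
        A (zt I (u, v)) * B (zt I (u', w)) * C (zt I (u, v) + zt I (u', w)) = (r : ℂ) := by
  obtain ⟨a, ha, a0, a1, a2, a3⟩ := hA
  obtain ⟨b, hb, b0, b1, b2, b3⟩ := hB
  obtain ⟨c, hc, c0, c1, c2, c3⟩ := hC
  refine line_neg (d := fun m => -((SignType.sign m : ℤ) : ℝ) ^ 2 * (a m * b m * c (-m)))
    (sum_sgn ha) (sum_sgn hb) (sum_cast hc) a3 b3 c3 ?_ ?_ ?_
  · intro m
    simp only [ofReal_mul, ofReal_neg, ofReal_pow, ofReal_intCast]
    linear_combination (((SignType.sign m : ℤ) : ℂ) ^ 2 * a m * b m * c (-m)) * I_sq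
  · intro m
    have : 0 ≤ a m * b m * c (-m) := mul_nonneg (mul_nonneg (a0 _) (b0 _)) (c0 _)
    nlinarith [sq_nonneg ((SignType.sign m : ℤ) : ℝ), mul_nonneg
      (sq_nonneg ((SignType.sign m : ℤ) : ℝ)) this]
  · have : 0 < a 1 * b 1 * c (-1) := mul_pos (mul_pos a1 b1) c2
    simpa using this

private lemma neg_lpp {A B C : ℂ → ℂ} {v w : ℝ} (hA : Lty A v) (hB : Pty B w)
    (hC : Pty C (v + w)) :
    ∃ r : ℝ, r < 0 ∧ ∫ u in Icc (0 : ℝ) 1, ∫ u' in Icc (0 : ℝ) 1,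
        -A (zt I (u, v)) * B (zt I (u', w)) * C (zt I (u, v) + zt I (u', w)) = (r : ℂ) := by
  obtain ⟨a, ha, a0, a1, a2, a3⟩ := hA
  obtain ⟨b, hb, b0, b1, b2, b3⟩ := hB
  obtain ⟨c, hc, c0, c1, c2, c3⟩ := hC
  refine line_neg (A := fun z => -A z) (a := fun m => -(a m : ℂ))
    (d := fun m => -((SignType.sign m : ℤ) : ℝ) ^ 2 * (a m * b m * c (-m)))
    (sum_cast ha).neg (sum_sgn hb) (sum_sgn hc) ?_ b3 c3 ?_ ?_ ?_
  · intro u
    simpa using (a3 u).neg
  · intro m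
    rw [sgn_neg]
    simp only [ofReal_mul, ofReal_neg, ofReal_pow, ofReal_intCast]
    linear_combination (((SignType.sign m : ℤ) : ℂ) ^ 2 * a m * b m * c (-m)) * I_sq
  · intro m
    have : 0 ≤ a m * b m * c (-m) := mul_nonneg (mul_nonneg (a0 _) (b0 _)) (c0 _)
    nlinarith [sq_nonneg ((SignType.sign m : ℤ) : ℝ), mul_nonneg
      (sq_nonneg ((SignType.sign m : ℤ) : ℝ)) this]
  · have : 0 < a 1 * b 1 * c (-1) := mul_pos (mul_pos a1 b1) c2
    simpa using this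

private lemma neg_plp {A B C : ℂ → ℂ} {v w : ℝ} (hA : Pty A v) (hB : Lty B w)
    (hC : Pty C (v + w)) :
    ∃ r : ℝ, r < 0 ∧ ∫ u in Icc (0 : ℝ) 1, ∫ u' in Icc (0 : ℝ) 1,
        -A (zt I (u, v)) * B (zt I (u', w)) * C (zt I (u, v) + zt I (u', w)) = (r : ℂ) := by
  obtain ⟨a, ha, a0, a1, a2, a3⟩ := hA
  obtain ⟨b, hb, b0, b1, b2, b3⟩ := hB
  obtain ⟨c, hc, c0, c1, c2, c3⟩ := hC
  refine line_neg (A := fun z => -A z) (a := fun m => -(I * ((SignType.sign m : ℤ) : ℂ) * a m))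
    (d := fun m => -((SignType.sign m : ℤ) : ℝ) ^ 2 * (a m * b m * c (-m)))
    (sum_sgn ha).neg (sum_cast hb) (sum_sgn hc) ?_ b3 c3 ?_ ?_ ?_
  · intro u
    simpa using (a3 u).neg
  · intro m
    rw [sgn_neg]
    simp only [ofReal_mul, ofReal_neg, ofReal_pow, ofReal_intCast]
    linear_combination (((SignType.sign m : ℤ) : ℂ) ^ 2 * a m * b m * c (-m)) * I_sq
  · intro m
    have : 0 ≤ a m * b m * c (-m) := mul_nonneg (mul_nonneg (a0 _) (b0 _)) (c0 _)
    nlinarith [sq_nonneg ((SignType.sign m : ℤ) : ℝ), mul_nonneg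
      (sq_nonneg ((SignType.sign m : ℤ) : ℝ)) this]
  · have : 0 < a 1 * b 1 * c (-1) := mul_pos (mul_pos a1 b1) c2
    simpa using this

private lemma pty_phi {v : ℝ} (hv : Real.sin (Real.pi * v) ≠ 0) : Pty (phi I) v := phi_line v hv

private lemma pty_phc {v : ℝ} (hv : Real.sin (Real.pi * v) ≠ 0) : Pty (phc I) v :=
  pty_conj (pty_phi hv)

private lemma lty_lam {v : ℝ} (hv : Real.sin (Real.pi * v) ≠ 0) : Lty (lam I) v := lam_line v hv

private lemma tri_int (A B C : ℂ → ℂ)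
    (hA : A = phi I ∨ A = phc I ∨ A = lam I) (hB : B = phi I ∨ B = phc I ∨ B = lam I)
    (hC : C = phi I ∨ C = phc I ∨ C = lam I) :
    IntegrableOn (fun x : (ℝ × ℝ) × (ℝ × ℝ) =>
      A (zt I x.1) * B (zt I x.2) * C (zt I x.1 + zt I x.2)) (sq ×ˢ sq) :=
  tri_integrable (by simp) (by norm_num [I_im]) (by norm_num [I_im]) A B C hA hB hC

private lemma tri_neg_A (A B C : ℂ → ℂ) : tri I (fun z => -A z) B C = -tri I A B C := by
  unfold tri
  simp only [neg_mul]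
  rw [← integral_neg]
  congr 1
  ext p
  rw [integral_neg]

private lemma int_neg_A (A B C : ℂ → ℂ) (h : IntegrableOn (fun x : (ℝ × ℝ) × (ℝ × ℝ) =>
      A (zt I x.1) * B (zt I x.2) * C (zt I x.1 + zt I x.2)) (sq ×ˢ sq)) :
    IntegrableOn (fun x : (ℝ × ℝ) × (ℝ × ℝ) =>
      (fun z => -A z) (zt I x.1) * B (zt I x.2) * C (zt I x.1 + zt I x.2)) (sq ×ˢ sq) := by
  have := h.neg
  refine this.congr_fun (fun x _ => ?_) (by measurability)
  simp


private lemma fi_lin (A B C A' B' C' A'' B'' C'' : ℂ → ℂ) (k : ℂ)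
    (i1 : IntegrableOn (fun x : (ℝ × ℝ) × (ℝ × ℝ) =>
      A (zt I x.1) * B (zt I x.2) * C (zt I x.1 + zt I x.2)) (sq ×ˢ sq))
    (i2 : IntegrableOn (fun x : (ℝ × ℝ) × (ℝ × ℝ) =>
      A' (zt I x.1) * B' (zt I x.2) * C' (zt I x.1 + zt I x.2)) (sq ×ˢ sq))
    (i3 : IntegrableOn (fun x : (ℝ × ℝ) × (ℝ × ℝ) =>
      A'' (zt I x.1) * B'' (zt I x.2) * C'' (zt I x.1 + zt I x.2)) (sq ×ˢ sq))
    (G : ℂ → ℂ → ℂ) (hG : ∀ x y, G x y = k * (A x * B y * C (x + y) - A' x * B' y * C' (x + y) -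
      A'' x * B'' y * C'' (x + y))) :
    ∫ p in Helper24.K1.sq, ∫ q in Helper24.K1.sq, G (zt I p) (zt I q) =
      k * (tri I A B C - tri I A' B' C' - tri I A'' B'' C'') := by
  rw [tri_eq _ _ _ i1, tri_eq _ _ _ i2, tri_eq _ _ _ i3]
  change Integrable (Fi A B C) _ at i1
  change Integrable (Fi A' B' C') _ at i2
  change Integrable (Fi A'' B'' C'') _ at i3
  rw [← integral_sub i1 i2]
  have i12 : Integrable (fun x => Fi A B C x - Fi A' B' C' x)
      (volume.restrict (Helper24.K1.sq ×ˢ Helper24.K1.sq)) := i1.sub i2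
  rw [← integral_sub i12 i3, ← integral_const_mul]
  have i4 : Integrable (fun x => k * (Fi A B C x - Fi A' B' C' x - Fi A'' B'' C'' x))
      (volume.restrict (Helper24.K1.sq ×ˢ Helper24.K1.sq)) := (i12.sub i3).const_mul k
  rw [restrict_sq2] at i4 ⊢
  rw [restrict_sq, integral_prod _ i4]
  simp only [hG, Fi]

theorem PP_neg : ∃ r : ℝ, r < 0 ∧ PP I = (r : ℂ) := by
  have i1 := tri_int (phi I) (phi I) (lam I) (by tauto) (by tauto) (by tauto)
  have i2 := tri_int (lam I) (phi I) (phi I) (by tauto) (by tauto) (by tauto)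
  have i3 := tri_int (phi I) (lam I) (phi I) (by tauto) (by tauto) (by tauto)
  obtain ⟨r1, hr1, e1⟩ := tri_neg_of (phi I) (phi I) (lam I) i1 fun v w hv hw hvw =>
    neg_ppl (pty_phi hv) (pty_phi hw) (lty_lam hvw)
  obtain ⟨r2, hr2, e2⟩ := tri_neg_of (fun z => -lam I z) (phi I) (phi I)
    (int_neg_A _ _ _ i2) fun v w hv hw hvw =>
      neg_lpp (lty_lam hv) (pty_phi hw) (pty_phi hvw)
  obtain ⟨r3, hr3, e3⟩ := tri_neg_of (fun z => -phi I z) (lam I) (phi I)
    (int_neg_A _ _ _ i3) fun v w hv hw hvw =>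
      neg_plp (pty_phi hv) (lty_lam hw) (pty_phi hvw)
  rw [tri_neg_A] at e2 e3
  refine ⟨1 / 3 * (r1 + r2 + r3), by linarith, ?_⟩
  unfold PP
  rw [fi_lin (phi I) (phi I) (lam I) (lam I) (phi I) (phi I) (phi I) (lam I) (phi I) (1 / 3)
    i1 i2 i3 (ip I) (fun x y => rfl), e1]
  push_cast
  linear_combination (1 / 3 : ℂ) * e2 + (1 / 3 : ℂ) * e3

theorem QQ_pos : ∃ r : ℝ, 0 < r ∧ QQ I = (r : ℂ) := by
  have i1 := tri_int (phi I) (phc I) (lam I) (by tauto) (by tauto) (by tauto)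
  have i2 := tri_int (lam I) (phc I) (phi I) (by tauto) (by tauto) (by tauto)
  have i3 := tri_int (phi I) (lam I) (phc I) (by tauto) (by tauto) (by tauto)
  obtain ⟨r1, hr1, e1⟩ := tri_neg_of (phi I) (phc I) (lam I) i1 fun v w hv hw hvw =>
    neg_ppl (pty_phi hv) (pty_phc hw) (lty_lam hvw)
  obtain ⟨r2, hr2, e2⟩ := tri_neg_of (fun z => -lam I z) (phc I) (phi I)
    (int_neg_A _ _ _ i2) fun v w hv hw hvw =>
      neg_lpp (lty_lam hv) (pty_phc hw) (pty_phi hvw)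
  obtain ⟨r3, hr3, e3⟩ := tri_neg_of (fun z => -phi I z) (lam I) (phc I)
    (int_neg_A _ _ _ i3) fun v w hv hw hvw =>
      neg_plp (pty_phi hv) (lty_lam hw) (pty_phc hvw)
  rw [tri_neg_A] at e2 e3
  refine ⟨-(1 / 6) * (r1 + r2 + r3), by linarith, ?_⟩
  unfold QQ
  rw [fi_lin (phi I) (phc I) (lam I) (lam I) (phc I) (phi I) (phi I) (lam I) (phc I) (-(1 / 6))
    i1 i2 i3 (iq I) (fun x y => rfl), e1]
  push_cast
  linear_combination (-(1 / 6) : ℂ) * e2 + (-(1 / 6) : ℂ) * e3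

end Pool.Agent.Helper76.K3
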