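import Pool.Agent.Helper76.K3.FF
import Pool.Agent.Helper24.K1.Tor

/-! The regulator of the main symbol. -/

noncomputable section

namespace Pool.Agent.Helper76.K3

open Complex MeasureTheory Set Filter Topology
open Pool.Agent.Helper21.Reg (IsElliptic ordAt intE Th ee Lat)
open Pool.Agent.Helper24.K1 (sq scale avg avg_eq_avg)
open scoped ComplexConjugate

/-- periodicity with respect to `ℤ + ℤ τ` -/
def RegmPer (τ : ℂ) (G : ℂ → ℂ) : Prop := (∀ z, G (z + 1) = G z) ∧ ∀ z, G (z + τ) = G z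

lemma RegmPer.int {τ : ℂ} {G : ℂ → ℂ} (h : RegmPer τ G) (z : ℂ) (m n : ℤ) :
    G (z + (m + n * τ)) = G z := by
  have h1 : Function.Periodic G 1 := h.1
  have h2 : Function.Periodic G τ := h.2
  have h3 := (h1.int_mul m).add_period (h2.int_mul n)
  have h4 := h3 z
  rwa [mul_one] at h4

lemma regm_omega_ne (L : PeriodPair) : L.ω₁ ≠ 0 := by
  intro h
  have hli := LinearIndependent.pair_iff.mp L.indep 1 0 (by simp [h])
  exact one_ne_zero hli.1

lemma regm_intE {L₁ L : PeriodPair} (hL : L₁.lattice ≤ L.lattice) {G : ℂ → ℂ}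
    (hG : Measurable G) (hp : RegmPer (L.ω₂ / L.ω₁) G) :
    intE L₁ (fun z => G (z / L.ω₁)) = area L₁ * ∫ p in sq, G (zt (L.ω₂ / L.ω₁) p) := by
  have h0 := regm_omega_ne L
  have h1 : intE L₁ (fun z => G (z / L.ω₁)) = area L₁ * avg L₁ (fun z => G (z / L.ω₁)) := rfl
  have hper : ∀ l ∈ L.lattice, ∀ z, G ((z + l) / L.ω₁) = G (z / L.ω₁) := by
    intro l hl z
    obtain ⟨m, n, rfl⟩ := PeriodPair.mem_lattice.1 hl
    rw [← hp.int (z / L.ω₁) m n]
    congr 1
    field_simp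
  have hm : Measurable fun z => G (z / L.ω₁) := hG.comp (measurable_id.div_const _)
  rw [h1, avg_eq_avg hL hm hper, avg]
  congr 2
  ext p
  congr 1
  rw [zt]
  field_simp

lemma regm_intX {L₁ L : PeriodPair} (hL : L₁.lattice ≤ L.lattice) {Φ : ℂ → ℂ → ℂ}
    (hG : Measurable fun p : ℂ × ℂ => Φ p.1 p.2)
    (hp1 : ∀ y, RegmPer (L.ω₂ / L.ω₁) fun x => Φ x y)
    (hp2 : ∀ x, RegmPer (L.ω₂ / L.ω₁) (Φ x)) :
    intX L₁ (fun x y => Φ (x / L.ω₁) (y / L.ω₁)) =
      (area L₁) ^ 2 * ∫ p in sq, ∫ q in sq, Φ (zt (L.ω₂ / L.ω₁) p) (zt (L.ω₂ / L.ω₁) q) := by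
  have h1 : ∀ x : ℂ, (intE L₁ fun y => Φ (x / L.ω₁) (y / L.ω₁)) =
      (fun u => area L₁ * ∫ q in sq, Φ u (zt (L.ω₂ / L.ω₁) q)) (x / L.ω₁) := by
    intro x
    exact regm_intE hL (hG.comp (measurable_const.prodMk measurable_id)) (hp2 _)
  have hz : Measurable (zt (L.ω₂ / L.ω₁)) := by
    unfold zt
    exact (Complex.measurable_ofReal.comp measurable_fst).add
      ((Complex.measurable_ofReal.comp measurable_snd).mul_const _)
  have hm : Measurable fun u => (area L₁ : ℂ) * ∫ q in sq, Φ u (zt (L.ω₂ / L.ω₁) q) := by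
    apply Measurable.const_mul
    have : StronglyMeasurable fun p : ℂ × (ℝ × ℝ) => Φ p.1 (zt (L.ω₂ / L.ω₁) p.2) :=
      (hG.comp (measurable_fst.prodMk (hz.comp measurable_snd))).stronglyMeasurable
    exact (this.integral_prod_right' (ν := (volume : Measure (ℝ × ℝ)).restrict sq)).measurable
  unfold intX
  simp_rw [h1]
  rw [regm_intE hL hm]
  · rw [integral_const_mul]
    ring
  · constructor
    · intro z
      simp only [(hp1 _).1]
    · intro z
      simp only [(hp1 _).2]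

section
variable {τ : ℂ} (hτ : 0 < τ.im)
include hτ

lemma regm_ff_per : RegmPer τ (ff τ) := ⟨ff_add_one hτ, ff_add_tau hτ⟩

lemma regm_lam_per : RegmPer τ (lam τ) := by
  constructor
  · intro z; simp only [lam, ff_add_one hτ]
  · intro z; simp only [lam, ff_add_tau hτ]

lemma regm_phi_per : RegmPer τ (phi τ) := by
  constructor
  · intro z
    simp only [phi, logDeriv_apply, ff_add_one hτ]
    rw [← deriv_comp_add_const (ff τ) 1 z]
    simp only [ff_add_one hτ]
  · intro z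
    simp only [phi, logDeriv_apply, ff_add_tau hτ]
    rw [← deriv_comp_add_const (ff τ) τ z]
    simp only [ff_add_tau hτ]

lemma regm_phc_per : RegmPer τ (phc τ) := by
  constructor
  · intro z; simp only [phc, (regm_phi_per hτ).1]
  · intro z; simp only [phc, (regm_phi_per hτ).2]

lemma regm_phc_measurable : Measurable (phc τ) :=
  Complex.continuous_conj.measurable.comp (phi_measurable hτ)

end

lemma RegmPer.add_left {τ : ℂ} {G : ℂ → ℂ} (h : RegmPer τ G) (y : ℂ) :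
    RegmPer τ fun x => G (x + y) := by
  constructor
  · intro z
    change G (z + 1 + y) = G (z + y)
    rw [show z + 1 + y = (z + y) + 1 by ring, h.1]
  · intro z
    change G (z + τ + y) = G (z + y)
    rw [show z + τ + y = (z + y) + τ by ring, h.2]

lemma RegmPer.add_right {τ : ℂ} {G : ℂ → ℂ} (h : RegmPer τ G) (x : ℂ) :
    RegmPer τ fun y => G (x + y) := by
  constructor
  · intro z
    change G (x + (z + 1)) = G (x + z)
    rw [← add_assoc, h.1]
  · intro z
    change G (x + (z + τ)) = G (x + z)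
    rw [← add_assoc, h.2]

lemma regm_logDeriv (L : PeriodPair) (z : ℂ) :
    logDeriv (fL L) z = L.ω₁⁻¹ * phi (L.ω₂ / L.ω₁) (z / L.ω₁) := by
  have h : deriv (fL L) z = L.ω₁⁻¹ * deriv (ff (L.ω₂ / L.ω₁)) (z / L.ω₁) := by
    have h1 : fL L = fun w => ff (L.ω₂ / L.ω₁) (L.ω₁⁻¹ * w) := by
      ext w; rw [fL, div_eq_inv_mul w]
    rw [h1, deriv_comp_mul_left, smul_eq_mul, div_eq_inv_mul z]
  rw [logDeriv_apply, h, phi, logDeriv_apply, fL]
  ring

theorem reg_main {L₁ L : PeriodPair} (hL : L₁.lattice ≤ L.lattice)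
    (him : 0 < (L.ω₂ / L.ω₁).im) :
    ((mainSym L).reg L₁).1 = (area L₁) ^ 2 * (L.ω₁ ^ 2)⁻¹ * PP (L.ω₂ / L.ω₁) ∧
    ((mainSym L).reg L₁).2.2.2 = (area L₁) ^ 2 * (L.ω₁ * conj L.ω₁)⁻¹ * QQ (L.ω₂ / L.ω₁) := by
  have h0 := regm_omega_ne L
  have h0' : conj L.ω₁ ≠ 0 := (map_ne_zero _).2 h0
  set τ := L.ω₂ / L.ω₁ with hτ
  have mphi := phi_measurable him
  have mlam := lam_measurable him
  have mphc := regm_phc_measurable him
  have pphi := regm_phi_per him
  have plam := regm_lam_per him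
  have pphc := regm_phc_per him
  have l10 : ∀ x y : ℂ, Fn.l ⟨0, fL L⟩ x y = lam τ (x / L.ω₁) := fun x y => by
    simp [Fn.l, pr, lam, fL, hτ]
  have l11 : ∀ x y : ℂ, Fn.l ⟨1, fL L⟩ x y = lam τ (y / L.ω₁) := fun x y => by
    simp [Fn.l, pr, lam, fL, hτ]
  have l12 : ∀ x y : ℂ, Fn.l ⟨2, fL L⟩ x y = lam τ (x / L.ω₁ + y / L.ω₁) := fun x y => by
    simp [Fn.l, pr, lam, fL, hτ, add_div]
  have a0 : ∀ x y : ℂ, Fn.a ⟨0, fL L⟩ x y = L.ω₁⁻¹ * phi τ (x / L.ω₁) := fun x y => by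
    simp [Fn.a, pr, regm_logDeriv, hτ]
  have a1 : ∀ x y : ℂ, Fn.a ⟨1, fL L⟩ x y = 0 := fun x y => by simp [Fn.a]
  have a2 : ∀ x y : ℂ, Fn.a ⟨2, fL L⟩ x y = L.ω₁⁻¹ * phi τ (x / L.ω₁ + y / L.ω₁) :=
    fun x y => by simp [Fn.a, pr, regm_logDeriv, hτ, add_div]
  have b0 : ∀ x y : ℂ, Fn.b ⟨0, fL L⟩ x y = 0 := fun x y => by simp [Fn.b]
  have b1 : ∀ x y : ℂ, Fn.b ⟨1, fL L⟩ x y = L.ω₁⁻¹ * phi τ (y / L.ω₁) := fun x y => by
    simp [Fn.b, pr, regm_logDeriv, hτ]
  have b2 : ∀ x y : ℂ, Fn.b ⟨2, fL L⟩ x y = L.ω₁⁻¹ * phi τ (x / L.ω₁ + y / L.ω₁) :=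
    fun x y => by simp [Fn.b, pr, regm_logDeriv, hτ, add_div]
  constructor
  · have e : (fun x y => rxy ⟨0, fL L⟩ ⟨1, fL L⟩ ⟨2, fL L⟩ x y) = fun x y =>
        (fun u v => (L.ω₁ ^ 2)⁻¹ * ip τ u v) (x / L.ω₁) (y / L.ω₁) := by
      ext x y
      simp only [rxy, cyc, l10, l11, l12, a0, a1, a2, b0, b1, b2, ip]
      field_simp
      ring
    have h1 : ((mainSym L).reg L₁).1 =
        intX L₁ (fun x y => rxy ⟨0, fL L⟩ ⟨1, fL L⟩ ⟨2, fL L⟩ x y) := by
      simp [Sym.reg, mainSym]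
    rw [h1, e, regm_intX hL (Φ := fun u v => (L.ω₁ ^ 2)⁻¹ * ip τ u v)]
    · simp only [integral_const_mul]
      rw [PP]; ring
    · apply Measurable.const_mul
      unfold ip
      fun_prop
    · intro y
      rw [← hτ]
      constructor
      · intro z
        simp only [ip, pphi.1, plam.1, (pphi.add_left y).1, (plam.add_left y).1]
      · intro z
        simp only [ip, pphi.2, plam.2, (pphi.add_left y).2, (plam.add_left y).2]
    · intro x
      rw [← hτ]
      constructor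
      · intro z
        simp only [ip, pphi.1, plam.1, (pphi.add_right x).1, (plam.add_right x).1]
      · intro z
        simp only [ip, pphi.2, plam.2, (pphi.add_right x).2, (plam.add_right x).2]
  · have e : (fun x y => rxy' ⟨0, fL L⟩ ⟨1, fL L⟩ ⟨2, fL L⟩ x y) = fun x y =>
        (fun u v => (L.ω₁ * conj L.ω₁)⁻¹ * iq τ u v) (x / L.ω₁) (y / L.ω₁) := by
      ext x y
      simp only [rxy', cyc, l10, l11, l12, a0, a1, a2, b0, b1, b2, iq, map_mul, map_inv₀,
        map_zero, phc]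
      field_simp
      ring
    have h1 : ((mainSym L).reg L₁).2.2.2 =
        intX L₁ (fun x y => rxy' ⟨0, fL L⟩ ⟨1, fL L⟩ ⟨2, fL L⟩ x y) := by
      simp [Sym.reg, mainSym]
    rw [h1, e, regm_intX hL (Φ := fun u v => (L.ω₁ * conj L.ω₁)⁻¹ * iq τ u v)]
    · simp only [integral_const_mul]
      rw [QQ]; ring
    · apply Measurable.const_mul
      unfold iq
      fun_prop
    · intro y
      rw [← hτ]
      constructor
      · intro z
        simp only [iq, pphi.1, plam.1, (pphi.add_left y).1, (plam.add_left y).1,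
          (pphc.add_left y).1]
      · intro z
        simp only [iq, pphi.2, plam.2, (pphi.add_left y).2, (plam.add_left y).2,
          (pphc.add_left y).2]
    · intro x
      rw [← hτ]
      constructor
      · intro z
        simp only [iq, pphc.1, plam.1, (pphi.add_right x).1, (plam.add_right x).1,
          (pphc.add_right x).1]
      · intro z
        simp only [iq, pphc.2, plam.2, (pphi.add_right x).2, (plam.add_right x).2,
          (pphc.add_right x).2]

end Pool.Agent.Helper76.K3
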