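import Pool.Agent.Helper76.K3.Unram
import Pool.Agent.Helper76.K3.Neg
import Pool.Agent.Helper76.K3.RegM
import Pool.Agent.Helper76.K3.BW
import Pool.Agent.Helper76.K3.ChainAlg
import Pool.Agent.Helper24.K1.Seq

/-! Assembly: the closure of the regulator image is everything. -/

noncomputable section

namespace Pool.Agent.Helper76.K3

open Complex MeasureTheory Set Filter Topology
open Pool.Agent.Helper21.Reg (IsElliptic ordAt intE Th ee Lat)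
open Pool.Agent.Helper24.K1 (sq scale exists_seq)
open scoped ComplexConjugate

theorem area_pos (L : PeriodPair) : 0 < area L := by
  unfold area
  rw [abs_pos]
  intro h
  have hind := L.indep
  rw [LinearIndependent.pair_iff] at hind
  have h1 : L.ω₁ ≠ 0 := by
    intro h0
    have := (hind 1 0 (by simp [h0])).1
    norm_num at this
  have h2 : (conj L.ω₁ * L.ω₂) = ((conj L.ω₁ * L.ω₂).re : ℂ) := by
    apply Complex.ext
    · simp
    · simp only [ofReal_im]; exact h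
  have h3 : ((normSq L.ω₁ : ℝ) : ℂ) * L.ω₂ = ((conj L.ω₁ * L.ω₂).re : ℂ) * L.ω₁ := by
    rw [← h2, ← mul_conj]
    ring
  have := (hind (-(conj L.ω₁ * L.ω₂).re) (normSq L.ω₁) (by
    rw [Complex.real_smul, Complex.real_smul, h3]
    push_cast
    ring)).2
  exact h1 (normSq_eq_zero.mp this)

theorem cls_mem (L : PeriodPair) (j : Fin 3) : cls j ∈ WW L := by
  have h := mem_WW (isK3_pt L j)
  have e : Chain.reg L ⟨[], [⟨1, j, exp (Real.pi / 3 * I)⟩]⟩ =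
      (Real.pi * area L * blochWigner (exp (Real.pi / 3 * I))) • cls j := by
    simp [Chain.reg, Pt.reg]
  rw [e] at h
  have hpos : 0 < Real.pi * area L * blochWigner (exp (Real.pi / 3 * I)) :=
    mul_pos (mul_pos Real.pi_pos (area_pos L)) bw_pos
  have h2 := (WW L).smul_mem (Real.pi * area L * blochWigner (exp (Real.pi / 3 * I)))⁻¹ h
  rwa [smul_smul, inv_mul_cancel₀ hpos.ne', one_smul] at h2

theorem e1_mem (L : PeriodPair) (r : ℝ) : ((0, r, 0, 0) : ℂ × ℝ × ℝ × ℂ) ∈ WW L := by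
  have h := (WW L).smul_mem r (cls_mem L 0)
  simpa [cls] using h

theorem e2_mem (L : PeriodPair) (r : ℝ) : ((0, 0, r, 0) : ℂ × ℝ × ℝ × ℂ) ∈ WW L := by
  have h := (WW L).smul_mem r (cls_mem L 1)
  simpa [cls] using h

theorem e3_mem (L : PeriodPair) (r : ℝ) : ((0, 0, 0, (r : ℂ) * I) : ℂ × ℝ × ℝ × ℂ) ∈ WW L := by
  have h := (WW L).smul_mem r ((WW L).sub_mem ((WW L).sub_mem (cls_mem L 2) (cls_mem L 0))
    (cls_mem L 1))
  simpa [cls] using h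

theorem proj_mem {L : PeriodPair} {v : ℂ × ℝ × ℝ × ℂ} (h : v ∈ WW L) :
    ((v.1, 0, 0, (v.2.2.2.re : ℂ)) : ℂ × ℝ × ℝ × ℂ) ∈ WW L := by
  have h1 := (WW L).sub_mem ((WW L).sub_mem ((WW L).sub_mem h (e1_mem L v.2.1))
    (e2_mem L v.2.2.1)) (e3_mem L v.2.2.2.im)
  have e : v - (0, v.2.1, 0, 0) - (0, 0, v.2.2.1, 0) - (0, 0, 0, (v.2.2.2.im : ℂ) * I) =
      ((v.1, 0, 0, (v.2.2.2.re : ℂ)) : ℂ × ℝ × ℝ × ℂ) := by
    have h3 : v.2.2.2 - (v.2.2.2.im : ℂ) * I = (v.2.2.2.re : ℂ) := by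
      apply Complex.ext <;> simp
    ext1
    · simp
    · ext1
      · simp
      · ext1
        · simp
        · simpa using h3
  rwa [e] at h1

theorem main_mem {L₁ L : PeriodPair} (hL : L₁.lattice ≤ L.lattice) (him : 0 < (L.ω₂ / L.ω₁).im)
    (r : ℝ) :
    ((((r ^ 2 : ℝ) : ℂ) * (L.ω₁ ^ 2)⁻¹ * PP (L.ω₂ / L.ω₁), 0, 0,
      ((((r ^ 2 : ℝ) : ℂ) * (L.ω₁ * conj L.ω₁)⁻¹ * QQ (L.ω₂ / L.ω₁)).re : ℂ)) :
      ℂ × ℝ × ℝ × ℂ) ∈ WW L₁ := by
  have h := mem_WW (isK3_main hL him)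
  have e : Chain.reg L₁ ⟨[mainSym L], []⟩ = (mainSym L).reg L₁ := by
    simp [Chain.reg]
  rw [e] at h
  have h1 := proj_mem ((WW L₁).smul_mem (r ^ 2 * (area L₁ ^ 2)⁻¹) h)
  obtain ⟨e1, e2⟩ := reg_main hL him
  have ha : (area L₁ : ℂ) ≠ 0 := by exact_mod_cast (area_pos L₁).ne'
  have e3 : ((r ^ 2 * (area L₁ ^ 2)⁻¹) • (mainSym L).reg L₁).1 =
      ((r ^ 2 : ℝ) : ℂ) * (L.ω₁ ^ 2)⁻¹ * PP (L.ω₂ / L.ω₁) := by
    rw [Prod.smul_fst, e1, Complex.real_smul]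
    push_cast
    field_simp
  have e4 : ((r ^ 2 * (area L₁ ^ 2)⁻¹) • (mainSym L).reg L₁).2.2.2 =
      ((r ^ 2 : ℝ) : ℂ) * (L.ω₁ * conj L.ω₁)⁻¹ * QQ (L.ω₂ / L.ω₁) := by
    rw [Prod.smul_snd, Prod.smul_snd, Prod.smul_snd, e2, Complex.real_smul]
    push_cast
    field_simp
  rwa [e3, e4] at h1

/-- the square lattice -/
def L0 : PeriodPair where
  ω₁ := 1
  ω₂ := I
  indep := by
    rw [LinearIndependent.pair_iff]
    intro s t h
    have h1 := congrArg Complex.re h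
    have h2 := congrArg Complex.im h
    simp at h1 h2
    exact ⟨h1, h2⟩

theorem limit_mem (L₁ : PeriodPair) {c : ℂ} (hc : c ≠ 0) :
    (((c ^ 2)⁻¹ * PP I, 0, 0, (((c * conj c)⁻¹ * QQ I).re : ℂ)) :
      ℂ × ℝ × ℝ × ℂ) ∈ WW L₁ := by
  obtain ⟨Mn, s, h1, h2, h3⟩ := exists_seq L₁ L0 hc
  have hw1 : L0.ω₁ = 1 := rfl
  have hw2 : L0.ω₂ = I := rfl
  rw [hw1] at h1
  rw [hw2] at h2
  have ht : Tendsto (fun n => (Mn n).ω₂ / (Mn n).ω₁) atTop (𝓝 I) := by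
    have := h2.div h1 one_ne_zero
    rwa [div_one] at this
  have him : ∀ᶠ n in atTop, 0 < ((Mn n).ω₂ / (Mn n).ω₁).im := by
    have h4 : Tendsto (fun n => ((Mn n).ω₂ / (Mn n).ω₁).im) atTop (𝓝 1) := by
      have h5 := (continuous_im.tendsto I).comp ht
      rw [I_im] at h5
      exact h5
    exact h4.eventually (lt_mem_nhds one_pos)
  have hP := PP_tendsto ht
  have hQ := QQ_tendsto ht
  have hcj : conj c ≠ 0 := by rwa [map_ne_zero]
  have hlim : Tendsto (fun n => (((c * (Mn n).ω₁) ^ 2)⁻¹ * PP ((Mn n).ω₂ / (Mn n).ω₁), (0 : ℝ),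
      (0 : ℝ), ((((c * (Mn n).ω₁) * conj (c * (Mn n).ω₁))⁻¹ *
        QQ ((Mn n).ω₂ / (Mn n).ω₁)).re : ℂ))) atTop
      (𝓝 ((c ^ 2)⁻¹ * PP I, 0, 0, (((c * conj c)⁻¹ * QQ I).re : ℂ))) := by
    have hc1 : Tendsto (fun n => c * (Mn n).ω₁) atTop (𝓝 c) := by
      simpa using h1.const_mul c
    refine Tendsto.prodMk_nhds ?_ (Tendsto.prodMk_nhds tendsto_const_nhds
      (Tendsto.prodMk_nhds tendsto_const_nhds ?_))
    · exact ((hc1.pow 2).inv₀ (pow_ne_zero 2 hc)).mul hP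
    · refine (continuous_ofReal.tendsto _).comp ((continuous_re.tendsto _).comp ?_)
      refine Tendsto.mul (Tendsto.inv₀ ?_ (mul_ne_zero hc hcj)) hQ
      exact hc1.mul ((continuous_conj.tendsto c).comp hc1)
  refine (WW_closed L₁).mem_of_tendsto hlim ?_
  filter_upwards [h3, him] with n hn hm
  obtain ⟨hsc, hle⟩ := hn
  have hs : (s n : ℂ) ≠ 0 := left_ne_zero_of_mul hsc
  have eτ : (scale (Mn n) (s n * c) hsc).ω₂ / (scale (Mn n) (s n * c) hsc).ω₁ =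
      (Mn n).ω₂ / (Mn n).ω₁ := mul_div_mul_left _ _ hsc
  have key := main_mem hle (by rw [eτ]; exact hm) (s n)
  rw [eτ] at key
  have ew : (scale (Mn n) (s n * c) hsc).ω₁ = s n * c * (Mn n).ω₁ := rfl
  rw [ew] at key
  have e1 : ((s n ^ 2 : ℝ) : ℂ) * ((s n * c * (Mn n).ω₁) ^ 2)⁻¹ =
      ((c * (Mn n).ω₁) ^ 2)⁻¹ := by
    push_cast
    rw [mul_assoc (s n : ℂ), mul_pow (s n : ℂ), mul_inv, ← mul_assoc,
      mul_inv_cancel₀ (pow_ne_zero 2 hs), one_mul]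
  have e2 : ((s n ^ 2 : ℝ) : ℂ) * ((s n * c * (Mn n).ω₁) * conj (s n * c * (Mn n).ω₁))⁻¹ =
      ((c * (Mn n).ω₁) * conj (c * (Mn n).ω₁))⁻¹ := by
    rw [mul_assoc (s n : ℂ), map_mul conj (s n : ℂ), conj_ofReal]
    have : (s n : ℂ) * (c * (Mn n).ω₁) * ((s n : ℂ) * conj (c * (Mn n).ω₁)) =
        (s n : ℂ) ^ 2 * ((c * (Mn n).ω₁) * conj (c * (Mn n).ω₁)) := by ring
    rw [this, mul_inv]
    push_cast
    rw [← mul_assoc, mul_inv_cancel₀ (pow_ne_zero 2 hs), one_mul]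
  rw [e1, e2] at key
  exact key

theorem WW_eq_top (L : PeriodPair) (v : ℂ × ℝ × ℝ × ℂ) : v ∈ WW L := by
  obtain ⟨r, hr, hP⟩ := PP_neg
  obtain ⟨t, ht, hQ⟩ := QQ_pos
  have h1 : (((r : ℂ), 0, 0, (t : ℂ)) : ℂ × ℝ × ℝ × ℂ) ∈ WW L := by
    have h := limit_mem L one_ne_zero
    rw [hP, hQ] at h
    simpa using h
  have h2 : ((-(r : ℂ), 0, 0, (t : ℂ)) : ℂ × ℝ × ℝ × ℂ) ∈ WW L := by
    have h := limit_mem L I_ne_zero
    rw [hP, hQ] at h
    simpa using h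
  have h3 : ((-(r : ℂ) * I, 0, 0, (t : ℂ)) : ℂ × ℝ × ℝ × ℂ) ∈ WW L := by
    obtain ⟨c, hc⟩ := IsAlgClosed.exists_pow_nat_eq I (n := 2) (by norm_num)
    have hc0 : c ≠ 0 := by
      rintro rfl
      rw [zero_pow two_ne_zero] at hc
      exact I_ne_zero hc.symm
    have h := limit_mem L hc0
    have hn : ‖c‖ ^ 2 = 1 := by rw [← norm_pow, hc, norm_I]
    have hcc : c * conj c = 1 := by
      rw [mul_conj, normSq_eq_norm_sq, hn, ofReal_one]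
    rw [hP, hQ, hc, hcc] at h
    have e : I⁻¹ * (r : ℂ) = -(r : ℂ) * I := by
      rw [inv_I]; ring
    rw [e] at h
    simpa using h
  have hr' : r ≠ 0 := hr.ne
  have ht' : t ≠ 0 := ht.ne'
  have a4 : ∀ x : ℝ, ((0, 0, 0, (x : ℂ)) : ℂ × ℝ × ℝ × ℂ) ∈ WW L := by
    intro x
    have h := (WW L).smul_mem (x / (2 * t)) ((WW L).add_mem h1 h2)
    have e : (x / (2 * t)) • ((((r : ℂ), 0, 0, (t : ℂ)) : ℂ × ℝ × ℝ × ℂ) +
        (-(r : ℂ), 0, 0, (t : ℂ))) = (0, 0, 0, (x : ℂ)) := by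
      have : (((x / (2 * t) : ℝ)) : ℂ) * ((t : ℂ) + t) = (x : ℂ) := by
        have h2t : (t : ℂ) ≠ 0 := by exact_mod_cast ht'
        push_cast
        field_simp
        ring
      simp only [Prod.mk_add_mk, Prod.smul_mk, add_neg_cancel, smul_zero, add_zero,
        Complex.real_smul, this]
    rwa [e] at h
  have a1 : ∀ x : ℝ, (((x : ℂ), 0, 0, 0) : ℂ × ℝ × ℝ × ℂ) ∈ WW L := by
    intro x
    have h := (WW L).smul_mem (x / r) ((WW L).sub_mem h1 (a4 t))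
    have e : (x / r) • ((((r : ℂ), 0, 0, (t : ℂ)) : ℂ × ℝ × ℝ × ℂ) -
        (0, 0, 0, (t : ℂ))) = ((x : ℂ), 0, 0, 0) := by
      have : (((x / r : ℝ)) : ℂ) * (r : ℂ) = (x : ℂ) := by
        have h2t : (r : ℂ) ≠ 0 := by exact_mod_cast hr'
        push_cast
        field_simp
      simp only [Prod.mk_sub_mk, Prod.smul_mk, sub_self, smul_zero, sub_zero,
        Complex.real_smul, this]
      rfl
    rwa [e] at h
  have a1' : ∀ x : ℝ, (((x : ℂ) * I, 0, 0, 0) : ℂ × ℝ × ℝ × ℂ) ∈ WW L := by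
    intro x
    have h := (WW L).smul_mem (-(x / r)) ((WW L).sub_mem h3 (a4 t))
    have e : (-(x / r)) • (((-(r : ℂ) * I, 0, 0, (t : ℂ)) : ℂ × ℝ × ℝ × ℂ) -
        (0, 0, 0, (t : ℂ))) = ((x : ℂ) * I, 0, 0, 0) := by
      have : (((-(x / r) : ℝ)) : ℂ) * (-(r : ℂ) * I) = (x : ℂ) * I := by
        have h2t : (r : ℂ) ≠ 0 := by exact_mod_cast hr'
        push_cast
        field_simp
      simp only [Prod.mk_sub_mk, Prod.smul_mk, sub_self, smul_zero, sub_zero,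
        Complex.real_smul, this]
      rfl
    rwa [e] at h
  obtain ⟨x, a, b, y⟩ := v
  have h := (WW L).add_mem ((WW L).add_mem ((WW L).add_mem (a1 x.re) (a1' x.im))
    ((WW L).add_mem (e1_mem L a) (e2_mem L b))) ((WW L).add_mem (a4 y.re) (e3_mem L y.im))
  have e : (((x.re : ℂ), 0, 0, 0) + ((x.im : ℂ) * I, 0, 0, 0) + ((0, a, 0, 0) + (0, 0, b, 0)) +
      ((0, 0, 0, (y.re : ℂ)) + (0, 0, 0, (y.im : ℂ) * I)) : ℂ × ℝ × ℝ × ℂ) = (x, a, b, y) := by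
    simp only [Prod.mk_add_mk, add_zero, zero_add, re_add_im]
  rwa [e] at h

/-- the image of the real regulator is dense -/
theorem main_density (L : PeriodPair) :
    Dense {v : ℂ × ℝ × ℝ × ℂ | ∃ (ξ : Chain) (m : ℕ), IsK3 L ξ ∧ 0 < m ∧
      v = (m : ℝ)⁻¹ • ξ.reg L} := by
  intro v
  have h := WW_eq_top L v
  have h2 : v ∈ closure ((image L : Submodule ℚ (ℂ × ℝ × ℝ × ℂ)) : Set (ℂ × ℝ × ℝ × ℂ)) := by
    rw [← Submodule.topologicalClosure_coe]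
    exact h
  exact h2

end Pool.Agent.Helper76.K3
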