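import Pool.Agent.Helper76.K3.Fin

/-!
# Density of the regulator in bidegree `(3, 3)` for the square of every elliptic curve

`L : PeriodPair` is an arbitrary lattice in `ℂ`, `E = ℂ / L.lattice` the corresponding elliptic curve
and `X = E × E`.

* `H³_H(X, ℚ(3)) = J^{3,3}(X) = H²(X, ℂ) / H²(X, ℚ(3))`, because `Hg^{3,3}(X) = 0` and
  `F³H²(X) = 0`.  The image of the regulator is a `ℚ`-subspace whose preimage in `H²(X, ℂ)` contains
  `H²(X, ℚ(3))`; hence its closure contains `H²(X, ℝ(3))`, and the image is dense if and only if the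
  image of the real regulator `H³_M(X, ℚ(3)) → H²(X, ℝ(2)) = H²(X, ℂ) / H²(X, ℝ(3))` is dense.
* `IsK3 L ξ` says that `ξ` is a finite combination of symbols `{F, G, H}` of functions `f ∘ p` with
  `f` a nonzero rational function on `E` and `p = x, y` or `x + y`, whose residues along all curves
  vanish in the exterior square of the function field (so that `ξ` is an element of `H³_M(X, ℚ(3))`),
  plus elements `[D] ⊗ u` with `D` one of the curves `x = 0`, `y = 0`, `x + y = 0` and `u` in the Bloch
  group of `ℂ`, `K₃(ℂ)^{ind} ⊗ ℚ`.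
* `Chain.reg L ξ` is the real regulator of `ξ`, given by the current `r₃(F, G, H)` (Beilinson,
  Goncharov), respectively by the Bloch-Wigner function, in the coordinates `ℂ × ℝ × ℝ × ℂ` of
  `H²(X, ℝ)`: the coefficients at `dx ∧ dy`, `i dx ∧ dx̄`, `i dy ∧ dȳ` and `dx ∧ dȳ`.

The theorem says that the real regulator has dense image.
-/

noncomputable section

namespace Pool.Agent.Results.MP_b2b689_ag.SquareK3

open Pool.Agent.Helper76.K3

/-- For every elliptic curve `E = ℂ / L.lattice` the real regulator image of `H³_M(E × E, ℚ(3))` is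
dense. -/
theorem result (L : PeriodPair) :
    Dense {v : ℂ × ℝ × ℝ × ℂ | ∃ (ξ : Chain) (m : ℕ), IsK3 L ξ ∧ 0 < m ∧
      v = (m : ℝ)⁻¹ • ξ.reg L} :=
  main_density L

end Pool.Agent.Results.MP_b2b689_ag.SquareK3
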