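import Pool.Agent.Helper76.K3.FF

/-! ### UNRAM: the main symbol is unramified (helper38) -/

noncomputable section

namespace Pool.Agent.Helper76.K3

open Complex MeasureTheory Set Filter Topology
open Pool.Agent.Helper21.Reg (IsElliptic ordAt intE Th ee Lat)
open Pool.Agent.Helper24.K1 (sq scale)
open scoped ComplexConjugate

private theorem unram_ff_lat {τ : ℂ} (hτ : 0 < τ.im) {l : ℂ} (hl : Lat τ l) (z : ℂ) :
    ff τ (z + l) = ff τ z := by
  obtain ⟨m, n, rfl⟩ := hl
  have h1 : Function.Periodic (ff τ) 1 := fun z => ff_add_one hτ z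
  have h2 : Function.Periodic (ff τ) τ := fun z => ff_add_tau hτ z
  have h3 := (h2.int_mul n) (z + m)
  have h4 := (h1.int_mul m) z
  rw [mul_one] at h4
  rw [← add_assoc, h3, h4]

private theorem unram_ff_half' {τ : ℂ} (hτ : 0 < τ.im) {l : ℂ} (hl : Lat τ (l + 1 / 2)) (z : ℂ) :
    ff τ (z + l) = (ff τ z)⁻¹ := by
  have e1 : z + 1 / 2 + (l + 1 / 2) = z + l + 1 := by ring
  have h := unram_ff_lat hτ hl (z + 1 / 2)
  rw [e1, ff_add_one hτ, ff_half hτ] at h
  exact h

private theorem unram_analytic (w z : ℂ) : AnalyticAt ℂ (fun z : ℂ => z / w) z :=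
  analyticAt_id.div_const

private theorem unram_fL_comp (L : PeriodPair) : fL L = ff (L.ω₂ / L.ω₁) ∘ fun z => z / L.ω₁ := rfl

private theorem unram_ω₁_ne (L : PeriodPair) : L.ω₁ ≠ 0 := by
  have := L.indep.ne_zero 0
  simpa using this

private theorem unram_order (L : PeriodPair) (c : ℂ) :
    meromorphicOrderAt (fL L) c = meromorphicOrderAt (ff (L.ω₂ / L.ω₁)) (c / L.ω₁) := by
  rw [unram_fL_comp]
  refine meromorphicOrderAt_comp_of_deriv_ne_zero (unram_analytic _ _) ?_
  have : deriv (fun z : ℂ => z / L.ω₁) c = 1 / L.ω₁ := by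
    rw [deriv_div_const]
    simp
  rw [this]
  exact one_div_ne_zero (unram_ω₁_ne L)

private theorem unram_lat (L : PeriodPair) {l : ℂ} (hl : l ∈ L.lattice) :
    Lat (L.ω₂ / L.ω₁) (l / L.ω₁) := by
  obtain ⟨m, n, rfl⟩ := PeriodPair.mem_lattice.1 hl
  refine ⟨m, n, ?_⟩
  have := unram_ω₁_ne L
  field_simp

theorem fL_elliptic {L₁ L : PeriodPair} (hL : L₁.lattice ≤ L.lattice) (him : 0 < (L.ω₂ / L.ω₁).im) :
    IsElliptic L₁ (fL L) := by
  refine ⟨fun z => ?_, fun z => ?_, fun l hl z => ?_⟩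
  · rw [unram_fL_comp]
    have h : MeromorphicAt (ff (L.ω₂ / L.ω₁)) ((fun z => z / L.ω₁) z) := ff_mero him _
    exact MeromorphicAt.comp_analyticAt (x := z) (g := fun z => z / L.ω₁) h
      (unram_analytic L.ω₁ z)
  · rw [unram_order]
    exact ff_order_ne_top him _
  · unfold fL
    rw [add_div]
    exact unram_ff_lat him (unram_lat L (hL hl)) _

private theorem unram_inv {L : PeriodPair} {f : ℂ → ℂ} (hf : IsElliptic L f) :
    IsElliptic L (fun z => (f z)⁻¹) := by
  refine ⟨fun z => (hf.mero z).inv, fun z => ?_, fun l hl z => by rw [hf.periodic l hl z]⟩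
  have : (fun z => (f z)⁻¹) = f⁻¹ := rfl
  rw [this, meromorphicOrderAt_inv]
  intro h
  have h2 := hf.ne_top z
  revert h h2
  generalize meromorphicOrderAt f z = o
  cases o with
  | top => intro _ h; exact absurd rfl h
  | coe n => intro h _; exact absurd h (by simp [← WithTop.LinearOrderedAddCommGroup.coe_neg])

private theorem unram_mul {L : PeriodPair} {f g : ℂ → ℂ} (hf : IsElliptic L f)
    (hg : IsElliptic L g) : IsElliptic L (fun z => f z * g z) := by
  refine ⟨fun z => (hf.mero z).mul (hg.mero z), fun z => ?_,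
    fun l hl z => by rw [hf.periodic l hl z, hg.periodic l hl z]⟩
  have : (fun z => f z * g z) = f * g := rfl
  rw [this, meromorphicOrderAt_mul (hf.mero z) (hg.mero z)]
  exact WithTop.add_ne_top.2 ⟨hf.ne_top z, hg.ne_top z⟩

private theorem unram_one (L : PeriodPair) : IsElliptic L (fun _ => (1 : ℂ)) := by
  refine ⟨fun z => MeromorphicAt.const 1 z, fun z => ?_, fun _ _ _ => rfl⟩
  rw [meromorphicOrderAt_const]
  simp

private theorem unram_B_self {L : PeriodPair} {B : (ℂ → ℂ) → (ℂ → ℂ) → ℚ} (hB : AltPairing L B)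
    {f : ℂ → ℂ} (hf : IsElliptic L f) : B f f = 0 := by
  have := hB.skew f f hf hf
  linarith

private theorem unram_B_inv {L : PeriodPair} {B : (ℂ → ℂ) → (ℂ → ℂ) → ℚ} (hB : AltPairing L B)
    {f : ℂ → ℂ} (hf : IsElliptic L f) : B f (fun z => (f z)⁻¹) = 0 := by
  have hi := unram_inv hf
  have h1 := unram_one L
  -- `B 1 f = 0`
  have e1 : B (fun _ => (1 : ℂ)) f = 0 := by
    have := hB.mul (fun _ => 1) (fun _ => 1) f h1 h1 hf
    simp only [mul_one] at this
    linarith
  have e2 := hB.mul f (fun z => (f z)⁻¹) f hf hi hf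
  have e3 : B (fun z => f z * (f z)⁻¹) f = B (fun _ => (1 : ℂ)) f := by
    refine hB.congr _ _ _ (unram_mul hf hi) h1 hf ?_
    have : {z | f z * (f z)⁻¹ = 1} ∈ codiscrete ℂ := by
      rw [mem_codiscrete]
      intro z
      rw [disjoint_principal_right, compl_compl]
      have h := (meromorphicOrderAt_ne_top_iff_eventually_ne_zero (hf.mero z)).1 (hf.ne_top z)
      filter_upwards [h] with w hw
      exact mul_inv_cancel₀ hw
    exact this
  have e4 := unram_B_self hB hf
  have e5 := hB.skew f (fun z => (f z)⁻¹) hf hi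
  rw [e3, e1, e4] at e2
  linarith

/-- the pairing of `f` with a translate of `f` by a zero or a pole -/
private theorem unram_key {L₁ L : PeriodPair} (hL : L₁.lattice ≤ L.lattice)
    (him : 0 < (L.ω₂ / L.ω₁).im) {B : (ℂ → ℂ) → (ℂ → ℂ) → ℚ} (hB : AltPairing L₁ B) (c : ℂ)
    (g : ℂ → ℂ) (hg : ∀ z, g z = fL L (z + c)) : (ordAt (fL L) c : ℚ) * B (fL L) g = 0 := by
  by_cases h : ordAt (fL L) c = 0
  · rw [h]; simp
  have hE := fL_elliptic hL him
  have h2 : ordAt (ff (L.ω₂ / L.ω₁)) (c / L.ω₁) ≠ 0 := by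
    unfold ordAt at h ⊢
    rwa [unram_order] at h
  rcases ff_ordAt him h2 with h3 | h3
  · have : g = fL L := by
      funext z
      rw [hg]
      unfold fL
      rw [add_div]
      exact unram_ff_lat him h3 _
    rw [this, unram_B_self hB hE, mul_zero]
  · have : g = fun z => (fL L z)⁻¹ := by
      funext z
      rw [hg]
      unfold fL
      rw [add_div]
      exact unram_ff_half' him h3 _
    rw [this, unram_B_inv hB hE, mul_zero]

theorem isK3_main {L₁ L : PeriodPair} (hL : L₁.lattice ≤ L.lattice)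
    (him : 0 < (L.ω₂ / L.ω₁).im) : IsK3 L₁ ⟨[mainSym L], []⟩ := by
  have hE := fL_elliptic hL him
  refine ⟨?_, ?_, ?_, ?_⟩
  · intro T hT
    simp only [List.mem_singleton] at hT
    subst hT
    exact ⟨hE, hE, hE⟩
  · intro B hB j c
    simp only [List.map_cons, List.map_nil, List.sum_cons, List.sum_nil, add_zero]
    unfold Sym.resid mainSym
    simp only [Int.cast_one, one_mul]
    fin_cases j
    · have h0 : Fn.ord ⟨1, fL L⟩ (0 : Fin 3) c = 0 := by simp [Fn.ord]
      have h1 : Fn.ord ⟨2, fL L⟩ (0 : Fin 3) c = 0 := by simp [Fn.ord]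
      have h2 : Fn.ord ⟨0, fL L⟩ (0 : Fin 3) c = ordAt (fL L) c := by simp [Fn.ord]
      have h3 : Fn.res ⟨1, fL L⟩ (0 : Fin 3) c = fL L := by
        simp [Fn.res, pr, crv]
      have h4 : ∀ z, Fn.res ⟨2, fL L⟩ (0 : Fin 3) c z = fL L (z + c) := by
        intro z
        simp [Fn.res, pr, crv, add_comm]
      have h5 := unram_key hL him hB c _ h4
      simp only [Fin.zero_eta] at *
      rw [h0, h1, h2, h3, h5]
      simp
    · have h0 : Fn.ord ⟨0, fL L⟩ (1 : Fin 3) c = 0 := by simp [Fn.ord]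
      have h1 : Fn.ord ⟨2, fL L⟩ (1 : Fin 3) c = 0 := by simp [Fn.ord]
      have h2 : Fn.ord ⟨1, fL L⟩ (1 : Fin 3) c = ordAt (fL L) c := by simp [Fn.ord]
      have h3 : Fn.res ⟨0, fL L⟩ (1 : Fin 3) c = fL L := by
        simp [Fn.res, pr, crv]
      have h4 : ∀ z, Fn.res ⟨2, fL L⟩ (1 : Fin 3) c z = fL L (z + c) := by
        intro z
        simp [Fn.res, pr, crv]
      have h5 := unram_key hL him hB c _ h4
      simp only [Fin.mk_one] at *
      rw [h0, h1, h2, h3, h5]
      simp
    · have h0 : Fn.ord ⟨0, fL L⟩ (2 : Fin 3) c = 0 := by simp [Fn.ord]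
      have h1 : Fn.ord ⟨1, fL L⟩ (2 : Fin 3) c = 0 := by simp [Fn.ord]
      have h2 : Fn.ord ⟨2, fL L⟩ (2 : Fin 3) c = ordAt (fL L) c := by simp [Fn.ord]
      have h3 : Fn.res ⟨0, fL L⟩ (2 : Fin 3) c = fL L := by
        simp [Fn.res, pr, crv]
      have h4 : ∀ z, Fn.res ⟨1, fL L⟩ (2 : Fin 3) c z = fL L (c - z) := by
        intro z
        simp [Fn.res, pr, crv]
      have hev : ∀ z, fL L (-z) = fL L z := by
        intro z
        unfold fL
        rw [neg_div, ff_neg him]
      -- `ordAt (fL L) (-c) = ordAt (fL L) c`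
      have hord : ordAt (fL L) (-c) = ordAt (fL L) c := by
        unfold ordAt
        congr 1
        have e : fL L = fL L ∘ fun z => -z := by
          funext z
          exact (hev z).symm
        conv_rhs => rw [e]
        refine (meromorphicOrderAt_comp_of_deriv_ne_zero (g := fun z : ℂ => -z)
          analyticAt_id.neg ?_).symm
        simp
      have h5 := unram_key hL him hB (-c) (Fn.res ⟨1, fL L⟩ (2 : Fin 3) c) (by
        intro z
        rw [h4, ← hev]
        congr 1
        ring)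
      rw [hord] at h5
      have h6 : ((⟨2, by decide⟩ : Fin 3)) = 2 := rfl
      simp only [Fin.reduceFinMk] at *
      rw [h0, h1, h2, h3, h5]
      simp
  · intro t ht
    simp at ht
  · intro B _ j
    simp

end Pool.Agent.Helper76.K3
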